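import Pool.Agent.Y848.UG.Sys

set_option autoImplicit false

/-! # Few `n` for which an additional number `n + x` is prime -/

open Finset Filter Topology

namespace Pool.Agent.Y848.UG

open Pool.Agent.H378R2 Pool.Agent.H387R2.MB
open Pool.Agent.H387R2 (Uni.WW Uni.WW_pos)

/-- the excluded primes of the additional form -/
noncomputable def EN {J : ℕ} (Y : ℕ) (c : Fin J → ℕ) (h : Fin J → ℤ) (x : ℕ) : Finset ℕ :=
  (Uni.WW Y * ∏ j, (h j - c j * x).natAbs).primeFactors

lemma sub_ne {J : ℕ} {c : Fin J → ℕ} {h : Fin J → ℤ} (P : Prm c h) {x : ℕ} (hx : ∀ j, c j = 1 → h j ≠ x) (j : Fin J) :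
    h j - c j * x ≠ 0 := by
  intro h0
  by_cases hc : c j = 1
  · apply hx j hc
    rw [hc] at h0
    push_cast at h0
    linarith
  · obtain ⟨p, hp, hpd⟩ := Nat.exists_prime_and_dvd hc
    apply P.prim j p hp hpd
    have h1 : h j = c j * x := by linarith
    rw [h1]
    exact (Int.natCast_dvd_natCast.2 hpd).mul_right _

lemma FS_cons {J : ℕ} {Y : ℕ} {E : Fin J → Finset ℕ} {c : Fin J → ℕ} {h : Fin J → ℤ} (P : Prm c h)
    (hF : FS (Uni.WW Y) E c h) {x : ℕ} (hx : ∀ j, c j = 1 → h j ≠ x) :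
    FS (Uni.WW Y) (Fin.cons (EN Y c h x) E : Fin (J + 1) → Finset ℕ) (Fin.cons 1 c : Fin (J + 1) → ℕ)
      (Fin.cons (x : ℤ) h : Fin (J + 1) → ℤ) := by
  have hne : Uni.WW Y * ∏ j, (h j - c j * x).natAbs ≠ 0 := by
    apply Nat.mul_ne_zero (Uni.WW_pos Y).ne'
    rw [prod_ne_zero_iff]
    intro j _
    exact Int.natAbs_ne_zero.2 (sub_ne P hx j)
  have hW : ∀ p : ℕ, p.Prime → p ∉ EN Y c h x → ¬ p ∣ Uni.WW Y := by
    intro p hp hpE hd
    apply hpE
    unfold EN
    rw [Nat.mem_primeFactors]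
    exact ⟨hp, hd.mul_right _, hne⟩
  have hD : ∀ j, ∀ p : ℕ, p.Prime → p ∉ EN Y c h x → ¬ (p : ℤ) ∣ h j - c j * x := by
    intro j p hp hpE hd
    apply hpE
    unfold EN
    rw [Nat.mem_primeFactors]
    refine ⟨hp, ?_, hne⟩
    apply Dvd.dvd.mul_left
    exact (Int.natCast_dvd.1 hd).trans (dvd_prod_of_mem _ (mem_univ j))
  refine ⟨?_, ?_, ?_⟩
  · intro j
    refine Fin.cases ?_ (fun j => ?_) j
    · intro p hp hpE
      rw [Fin.cons_zero] at hpE
      exact hW p hp hpE
    · intro p hp hpE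
      rw [Fin.cons_succ] at hpE
      exact hF.dv j p hp hpE
  · intro j
    refine Fin.cases ?_ (fun j => ?_) j
    · intro p hp hpE
      rw [Fin.cons_zero]
      intro hd
      exact hp.one_lt.ne' (Nat.dvd_one.1 hd)
    · intro p hp hpE
      rw [Fin.cons_succ] at hpE ⊢
      exact hF.cf j p hp hpE
  · intro i j
    refine Fin.cases ?_ (fun i => ?_) i
    · refine Fin.cases ?_ (fun j => ?_) j
      · intro h; exact absurd rfl h
      · intro _ p hp hi hj
        rw [Fin.cons_zero] at hi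
        rw [Fin.cons_zero, Fin.cons_zero, Fin.cons_succ, Fin.cons_succ]
        have e : ((1 : ℕ) : ℤ) * h j - c j * x = h j - c j * x := by push_cast; ring
        rw [e]
        exact hD j p hp hi
    · refine Fin.cases ?_ (fun j => ?_) j
      · intro _ p hp hi hj
        rw [Fin.cons_zero] at hj
        rw [Fin.cons_zero, Fin.cons_zero, Fin.cons_succ, Fin.cons_succ]
        have e : (c i : ℤ) * x - ((1 : ℕ) : ℤ) * h i = -(h i - c i * x) := by push_cast; ring
        rw [e, dvd_neg]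
        exact hD i p hp hj
      · intro hij p hp hi hj
        rw [Fin.cons_succ] at hi hj
        rw [Fin.cons_succ, Fin.cons_succ, Fin.cons_succ, Fin.cons_succ]
        exact hF.dt i j (fun h => hij (by rw [h])) p hp hi hj

open Classical in
theorem bad_x (J : ℕ) {δ : ℝ} (hδ : 0 < δ) (hδ1 : δ ≤ 1 / 10) : ∃ C : ℝ, 0 < C ∧ ∃ z : ℕ, ∀ Y : ℕ, z ≤ Y → ∀ A : ℝ,
    ∀ᶠ X : ℝ in atTop, ∀ (E : Fin J → Finset ℕ) (a0 x : ℕ) (c : Fin J → ℕ) (h : Fin J → ℤ),
      (∀ j, GS X z (E j)) → Prm c h → FS (Uni.WW Y) E c h → (∀ j, c j = 1 → h j ≠ x) →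
      ((∏ j, (h j - c j * x).natAbs : ℕ) : ℝ) ≤ X ^ A →
      ∑ n ∈ Icc 1 ⌊3 * X⌋₊, nu X (Uni.WW Y) a0 n *
        (if (∀ j, RgG δ X (E j) (c j * (n : ℤ) + h j)) ∧ (n + x).Prime then 1 else 0) ≤
          C * (Real.log (Real.log X) / Real.log X) * QG X (Uni.WW Y) E := by
  obtain ⟨C, hC, z, hz⟩ := rough_upG (J + 1) hδ
  obtain ⟨C2, hC2⟩ := gs_pf2
  refine ⟨C * (1000 * Real.exp (C2 + 4)) + 1, by positivity, z, fun Y hzY A => ?_⟩
  have hW := Uni.WW_pos Y
  have hW0 : (0:ℝ) < Uni.WW Y := by exact_mod_cast hW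
  have hll : Tendsto (fun X : ℝ => Real.log (LL X)) atTop atTop := Real.tendsto_log_atTop.comp LL_tendsto
  have hllog : Tendsto (fun X : ℝ => Real.log (Real.log X)) atTop atTop := Real.tendsto_log_atTop.comp Real.tendsto_log_atTop
  have hl3 : ∀ᶠ X : ℝ in atTop, (Uni.WW Y : ℝ) ≤ Real.log X ^ 3 := by
    filter_upwards [Real.tendsto_log_atTop.eventually_ge_atTop (Uni.WW Y : ℝ),
      Real.tendsto_log_atTop.eventually_ge_atTop 1] with X h1 h2
    refine h1.trans ?_
    exact le_self_pow₀ h2 (by norm_num)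
  filter_upwards [hz, hC2 z Y hzY A, exp_errH J 1000 1 one_pos, eventually_ge_atTop 4,
    LL_tendsto.eventually_ge_atTop 1, LL_tendsto.eventually_ge_atTop (Uni.WW Y : ℝ),
    hllog.eventually_ge_atTop 1, hl3] with X h1 h2 h3 h4 h5 h6 h7 h8
  intro E a0 x c h hGS P hF hx hsz
  have hX0 : 0 < X := by linarith
  have hL0 : 0 < LL X := by linarith
  have hlogX : Real.log X = 200 * LL X := by unfold LL; ring
  have hlog0 : 0 < Real.log X := by rw [hlogX]; linarith
  have hpos : 0 < ∏ j, (h j - c j * x).natAbs := prod_pos fun j _ => Int.natAbs_pos.2 (sub_ne P hx j)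
  obtain ⟨hGSn, hsn⟩ := h2 _ hpos hsz
  change GS X z (EN Y c h x) at hGSn
  change ∑ p ∈ EN Y c h x, (1 : ℝ) / p ≤ Real.log (5 * Real.log (Real.log X)) + C2 at hsn
  have hXe : Real.exp (200 * LL X) = X := by
    rw [← hlogX, Real.exp_log hX0]
  have hWX : (Uni.WW Y : ℝ) * Real.exp (LL X * 2) ≤ X := by
    have e1 : (Uni.WW Y : ℝ) ≤ Real.exp (LL X) := h6.trans (by have := Real.add_one_le_exp (LL X); linarith)
    calc (Uni.WW Y : ℝ) * Real.exp (LL X * 2) ≤ Real.exp (LL X) * Real.exp (LL X * 2) := by gcongr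
      _ = Real.exp (3 * LL X) := by rw [← Real.exp_add]; congr 1; ring
      _ ≤ Real.exp (200 * LL X) := Real.exp_le_exp.2 (by linarith)
      _ = X := hXe
  have k1 := h1 (Uni.WW Y) (Fin.cons (EN Y c h x) E) a0 (Fin.cons 1 c) (Fin.cons (x : ℤ) h)
    (by
      intro j
      refine Fin.cases ?_ (fun j => ?_) j
      · rw [Fin.cons_zero]; exact hGSn.toGE h5
      · rw [Fin.cons_succ]; exact (hGS j).toGE h5)
    hW hWX (FS_cons P hF hx)
  have k2 := h3 (Uni.WW Y) E hW h8 (fun j => (hGS j).pr)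
  have hLB : 0 < LB X E := LB_pos hL0 fun j => (hGS j).pr
  have hM0 : 0 ≤ MPhi X := MPhi_nonneg X
  have hQ0 : 0 ≤ QG X (Uni.WW Y) E := by unfold QG; positivity
  -- the additional factor
  have k3 : 1 / (LL X * BE (EN Y c h x)) ≤ 1000 * Real.exp (C2 + 4) * (Real.log (Real.log X) / Real.log X) := by
    have e1 := BE_ge hGSn.pr
    have e3 : Real.exp (-(Real.log (5 * Real.log (Real.log X)) + C2) - 4) ≤ BE (EN Y c h x) :=
      le_trans (Real.exp_le_exp.2 (by linarith)) e1
    have e4 : Real.exp (-(Real.log (5 * Real.log (Real.log X)) + C2) - 4) =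
        1 / (5 * Real.log (Real.log X) * Real.exp (C2 + 4)) := by
      have e5 : -(Real.log (5 * Real.log (Real.log X)) + C2) - 4 =
        -(Real.log (5 * Real.log (Real.log X)) + (C2 + 4)) := by ring
      rw [e5, Real.exp_neg, Real.exp_add, Real.exp_log (by linarith), one_div]
    rw [e4] at e3
    have e5 : 0 < 1 / (5 * Real.log (Real.log X) * Real.exp (C2 + 4)) := by
      have : 0 < Real.exp (C2 + 4) := Real.exp_pos _
      positivity
    calc 1 / (LL X * BE (EN Y c h x)) ≤ 1 / (LL X * (1 / (5 * Real.log (Real.log X) * Real.exp (C2 + 4)))) := by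
          apply one_div_le_one_div_of_le (by positivity)
          exact mul_le_mul_of_nonneg_left e3 hL0.le
      _ = 1000 * Real.exp (C2 + 4) * (Real.log (Real.log X) / Real.log X) := by
          have gen : ∀ a b e : ℝ, 0 < a → 0 < b → 0 < e →
              1 / (b * (1 / (5 * a * e))) = 1000 * e * (a / (200 * b)) := by
            intro a b e ha hb he
            field_simp
            norm_num
          have e6 := gen (Real.log (Real.log X)) (LL X) (Real.exp (C2 + 4)) (by linarith) hL0 (Real.exp_pos _)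
          rw [e6, ← hlogX]
  have k4 : QG X (Uni.WW Y) (Fin.cons (EN Y c h x) E : Fin (J + 1) → Finset ℕ) =
      QG X (Uni.WW Y) E * (1 / (LL X * BE (EN Y c h x))) := by
    unfold QG LB
    rw [Fin.prod_univ_succ]
    simp only [Fin.cons_zero, Fin.cons_succ]
    have e1 : 0 < BE (EN Y c h x) := BE_pos hGSn.pr
    unfold LB at hLB
    field_simp
  have k5 : C * QG X (Uni.WW Y) (Fin.cons (EN Y c h x) E : Fin (J + 1) → Finset ℕ) ≤
      C * (1000 * Real.exp (C2 + 4)) * (Real.log (Real.log X) / Real.log X) * QG X (Uni.WW Y) E := by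
    rw [k4]
    calc C * (QG X (Uni.WW Y) E * (1 / (LL X * BE (EN Y c h x)))) ≤
        C * (QG X (Uni.WW Y) E * (1000 * Real.exp (C2 + 4) * (Real.log (Real.log X) / Real.log X))) := by
          gcongr
      _ = _ := by ring
  have k6 : 5 * Real.exp (2 * LL X) ≤ (Real.log (Real.log X) / Real.log X) * QG X (Uni.WW Y) E := by
    have e1 : 1000 * Real.exp (3 * LL X) ≤ QG X (Uni.WW Y) E := by
      rw [one_mul] at k2
      exact k2
    have e2 : Real.exp (3 * LL X) = Real.exp (2 * LL X) * Real.exp (LL X) := by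
      rw [← Real.exp_add]; congr 1; ring
    have e3 : Real.log X ≤ 200 * Real.exp (LL X) := by
      rw [hlogX]
      have := Real.add_one_le_exp (LL X)
      linarith
    have e4 : 1 ≤ Real.log (Real.log X) / Real.log X * (200 * Real.exp (LL X)) := by
      rw [div_mul_eq_mul_div, le_div_iff₀ hlog0, one_mul]
      nlinarith [Real.exp_pos (LL X)]
    have e7 : 0 ≤ Real.log (Real.log X) / Real.log X := div_nonneg (by linarith) hlog0.le
    calc 5 * Real.exp (2 * LL X) ≤ 5 * Real.exp (2 * LL X) *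
          (Real.log (Real.log X) / Real.log X * (200 * Real.exp (LL X))) :=
            le_mul_of_one_le_right (by positivity) e4
      _ = (Real.log (Real.log X) / Real.log X) * (1000 * Real.exp (3 * LL X)) := by rw [e2]; ring
      _ ≤ (Real.log (Real.log X) / Real.log X) * QG X (Uni.WW Y) E := mul_le_mul_of_nonneg_left e1 e7
  have k7 : ∑ n ∈ Icc 1 ⌊3 * X⌋₊, nu X (Uni.WW Y) a0 n *
        (if (∀ j, RgG δ X (E j) (c j * (n : ℤ) + h j)) ∧ (n + x).Prime then 1 else 0) ≤
      ∑ n ∈ Icc 1 ⌊3 * X⌋₊, nu X (Uni.WW Y) a0 n * (if ∀ j : Fin (J + 1),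
        RgG δ X ((Fin.cons (EN Y c h x) E : Fin (J + 1) → Finset ℕ) j)
          (((Fin.cons 1 c : Fin (J + 1) → ℕ) j : ℤ) * (n : ℤ) + (Fin.cons (x : ℤ) h : Fin (J + 1) → ℤ) j) then 1 else 0) := by
    apply sum_le_sum
    intro n hn
    rw [mem_Icc] at hn
    by_cases hn0 : nu X (Uni.WW Y) a0 n = 0
    · rw [hn0, zero_mul, zero_mul]
    · apply mul_le_mul_of_nonneg_left _ (nu_nonneg _ _ _ _)
      by_cases hg : (∀ j, RgG δ X (E j) (c j * (n : ℤ) + h j)) ∧ (n + x).Prime
      · rw [if_pos hg, if_pos]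
        intro j
        refine Fin.cases ?_ (fun j => ?_) j
        · rw [Fin.cons_zero, Fin.cons_zero, Fin.cons_zero]
          intro p hp _ hd
          rw [mem_PS] at hp
          have hnX : X < n := by
            by_contra hcon
            push Not at hcon
            apply hn0
            unfold nu
            rw [Phi_eq_zero_of_le (by positivity) (by rw [div_le_one hX0]; exact hcon)]
            split_ifs <;> rfl
          have e1 : (p : ℤ) ∣ ((n + x : ℕ) : ℤ) := by
            push_cast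
            simpa using hd
          have e2 := (Nat.prime_dvd_prime_iff_eq hp.1 hg.2).1 (Int.natCast_dvd_natCast.1 e1)
          have e3 : (p : ℝ) ≤ X := by
            refine hp.2.trans (le_trans (Real.exp_le_exp.2 ?_) hXe.le)
            nlinarith
          rw [e2] at e3
          push_cast at e3
          have : (0:ℝ) ≤ x := Nat.cast_nonneg x
          linarith
        · rw [Fin.cons_succ, Fin.cons_succ, Fin.cons_succ]
          exact hg.1 j
      · rw [if_neg hg]
        split_ifs <;> norm_num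
  refine k7.trans (k1.trans ?_)
  rw [add_mul, one_mul, add_mul]
  linarith

end Pool.Agent.Y848.UG
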