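import Pool.Agent.H387R2.MB4

set_option autoImplicit false

/-! # Systems of linear forms with excluded primes depending on the form -/

open Finset Filter Topology
open scoped ContDiff

namespace Pool.Agent.Y848.UG

open Pool.Agent.H378R2 Pool.Agent.H387R2.MB

/-- the forms `c_j n + h_j` with excluded primes `E_j` -/
structure FS {J : ℕ} (W : ℕ) (E : Fin J → Finset ℕ) (c : Fin J → ℕ) (h : Fin J → ℤ) : Prop where
  dv : ∀ j, ∀ p : ℕ, p.Prime → p ∉ E j → ¬ p ∣ W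
  cf : ∀ j, ∀ p : ℕ, p.Prime → p ∉ E j → ¬ p ∣ c j
  dt : ∀ i j, i ≠ j → ∀ p : ℕ, p.Prime → p ∉ E i → p ∉ E j → ¬ (p : ℤ) ∣ (c i : ℤ) * h j - c j * h i

lemma FS.res {J : ℕ} {W : ℕ} {E : Fin J → Finset ℕ} {c : Fin J → ℕ} {h : Fin J → ℤ} (H : FS W E c h)
    {i j : Fin J} (hij : i ≠ j) {p : ℕ} (hp : p.Prime) (hi : p ∉ E i) (hj : p ∉ E j) (x : ℤ) :
    ¬ ((p : ℤ) ∣ c i * x + h i ∧ (p : ℤ) ∣ c j * x + h j) := by
  rintro ⟨h1, h2⟩
  apply H.dt i j hij p hp hi hj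
  have h3 : (p : ℤ) ∣ (c i : ℤ) * (c j * x + h j) - c j * (c i * x + h i) :=
    dvd_sub (h2.mul_left _) (h1.mul_left _)
  have e : (c i : ℤ) * (c j * x + h j) - c j * (c i * x + h i) = (c i : ℤ) * h j - c j * h i := by ring
  rwa [e] at h3

/-- enlarging the excluded sets -/
lemma FS.insert {J : ℕ} {W : ℕ} {E : Fin J → Finset ℕ} {c : Fin J → ℕ} {h : Fin J → ℤ} (H : FS W E c h)
    (p : ℕ) (hp : p.Prime) : FS (W * p) (fun j => insert p (E j)) c h := by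
  refine ⟨fun j r hr hrE hrd => ?_, fun j r hr hrE => H.cf j r hr (fun h' => hrE (mem_insert_of_mem h')),
    fun i j hij r hr hi hj => H.dt i j hij r hr (fun h' => hi (mem_insert_of_mem h')) (fun h' => hj (mem_insert_of_mem h'))⟩
  rcases (Nat.Prime.dvd_mul hr).1 hrd with h | h
  · exact H.dv j r hr (fun h' => hrE (mem_insert_of_mem h')) h
  · have : r = p := (Nat.prime_dvd_prime_iff_eq hr hp).1 h
    exact hrE (this ▸ mem_insert_self _ _)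

/-- square root of the weight -/
noncomputable def sqwG {K B : ℕ} (E : Fin K → Finset ℕ) (X : ℝ) (f : Fin B → ℝ → ℝ) (A : Finset (Fin K → Fin B))
    (x : Fin K → ℤ) : ℝ := ∑ a ∈ A, ∏ j, VVm (E j) (RR X) (LL X) (f (a j)) (x j)

theorem sqwG_sq {K B : ℕ} (E : Fin K → Finset ℕ) (X : ℝ) (f : Fin B → ℝ → ℝ) (A : Finset (Fin K → Fin B))
    (x : Fin K → ℤ) : sqwG E X f A x ^ 2 =
      ∑ a ∈ A, ∑ b ∈ A, ∏ j, (VVm (E j) (RR X) (LL X) (f (a j)) (x j) * VVm (E j) (RR X) (LL X) (f (b j)) (x j)) := by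
  unfold sqwG
  rw [sq, Finset.sum_mul_sum]
  refine Finset.sum_congr rfl fun a _ => Finset.sum_congr rfl fun b _ => ?_
  rw [Finset.prod_mul_distrib]

lemma sqwG_sq_le_sum {K B : ℕ} (E : Fin K → Finset ℕ) (X : ℝ) (f : Fin B → ℝ → ℝ) (A : Finset (Fin K → Fin B))
    (x : Fin K → ℤ) : sqwG E X f A x ^ 2 ≤ A.card *
      ∑ a ∈ A, ∏ j, (VVm (E j) (RR X) (LL X) (f (a j)) (x j) * VVm (E j) (RR X) (LL X) (f (a j)) (x j)) := by
  unfold sqwG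
  refine (sq_sum_le_card_mul_sum_sq).trans (le_of_eq ?_)
  congr 1
  apply sum_congr rfl
  intro a _
  rw [← prod_pow]
  apply prod_congr rfl
  intro j _
  ring

/-- the factor of the main terms -/
noncomputable def LB {K : ℕ} (X : ℝ) (E : Fin K → Finset ℕ) : ℝ := ∏ j, (LL X * BE (E j))

lemma LB_pos {K : ℕ} {X : ℝ} (hL : 0 < LL X) {E : Fin K → Finset ℕ} (hE : ∀ j, ∀ p ∈ E j, p.Prime) : 0 < LB X E :=
  Finset.prod_pos fun j _ => mul_pos hL (BE_pos (hE j))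

/-- product form of the first sum, functions `F`, `G` -/
theorem S1prodH {K : ℕ} (F G : Fin K → ℝ → ℝ) (cF cG : Fin K → ℝ) (Cf : ℝ) (hCf : 0 ≤ Cf)
    (hF : ∀ j x, |F j x| ≤ Cf) (hG : ∀ j x, |G j x| ≤ Cf)
    (hF0 : ∀ j x, cF j < x → F j x = 0) (hG0 : ∀ j x, cG j < x → G j x = 0)
    (hs : ∑ j, cF j + ∑ j, cG j ≤ 2) {X : ℝ} (hX : 4 ≤ X) (hL : 1 ≤ LL X)
    {W : ℕ} {E : Fin K → Finset ℕ} (hW : 0 < W) (hWX : (W : ℝ) * Real.exp (LL X * 2) ≤ X)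
    (a0 : ℕ) {c : Fin K → ℕ} {h : Fin K → ℤ} (ht : FS W E c h) :
    |∑ n ∈ Icc 1 ⌊3 * X⌋₊, nu X W a0 n *
        ∏ j, (VVm (E j) (RR X) (LL X) (F j) (c j * (n : ℤ) + h j) * VVm (E j) (RR X) (LL X) (G j) (c j * (n : ℤ) + h j)) -
      (MPhi X * (1 / W)) * sieveSum K F G (LL X) E (fun p _ => 1 / (p : ℝ)) (RR X)| ≤
    5 * Cf ^ (2 * K) * Real.exp (2 * LL X) := by
  have k1 := sum1 X hX W a0 hW F G (LL X) Cf (by linarith) hCf cF cG hF hG hF0 hG0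
    E (RR X) c h ht.dv ht.cf
    (fun i j hij p hp hi hj n => ht.res hij hp hi hj n)
    (by
      refine le_trans ?_ hWX
      apply mul_le_mul_of_nonneg_left _ (Nat.cast_nonneg _)
      apply Real.exp_le_exp.2
      nlinarith)
  have k9 : ∑ n ∈ Icc 1 ⌊3 * X⌋₊, nu X W a0 n *
      ∏ j, (VVm (E j) (RR X) (LL X) (F j) (c j * (n : ℤ) + h j) * VVm (E j) (RR X) (LL X) (G j) (c j * (n : ℤ) + h j)) =
      ∑ n ∈ Icc 1 ⌊3 * X⌋₊, (if n ≡ a0 [MOD W] then Phi (n / X) else 0) *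
        ∏ j, (VVm (E j) (RR X) (LL X) (F j) (c j * (n : ℤ) + h j) *
          VVm (E j) (RR X) (LL X) (G j) (c j * (n : ℤ) + h j)) := by
    refine Finset.sum_congr rfl fun n _ => ?_
    unfold nu
    rfl
  rw [k9]
  refine k1.trans ?_
  apply mul_le_mul_of_nonneg_left _ (by positivity)
  apply Real.exp_le_exp.2
  nlinarith

lemma FS.mono {J : ℕ} {W W' : ℕ} {E : Fin J → Finset ℕ} {c : Fin J → ℕ} {h : Fin J → ℤ} (H : FS W E c h)
    (hd : W' ∣ W) : FS W' E c h :=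
  ⟨fun j p hp hpE hpd => H.dv j p hp hpE (hpd.trans hd), H.cf, H.dt⟩

/-- upper bound of the first sum -/
theorem S1upH {K B : ℕ} (f : Fin B → ℝ → ℝ) (c : Fin B → ℝ) (A : Finset (Fin K → Fin B))
    (hsm : ∀ l, ContDiff ℝ ∞ (f l)) (hcs : ∀ l, HasCompactSupport (f l)) (hf0 : ∀ l x, c l < x → f l x = 0)
    (hc : ∀ l, 0 ≤ c l ∧ c l ≤ 1 / 2) (hA : ∀ a ∈ A, ∑ j, c (a j) ≤ 1) (hf1 : ∀ l x, |f l x| ≤ 1)
    (ε1 : ℝ) (hε1 : 0 < ε1) :
    ∃ z : ℕ, ∀ᶠ X : ℝ in atTop, ∀ (W : ℕ) (E : Fin K → Finset ℕ) (a0 : ℕ) (cc : Fin K → ℕ) (h : Fin K → ℤ),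
      (∀ j, GE X z (E j)) → 0 < W → (W : ℝ) * Real.exp (LL X * 2) ≤ X → FS W E cc h →
      ∑ n ∈ Icc 1 ⌊3 * X⌋₊, nu X W a0 n * sqwG E X f A (fun j => cc j * (n : ℤ) + h j) ^ 2 ≤
        (MPhi X * (1 / (W : ℝ))) * (1 / LB X E) * (II f A + ε1) +
          (A.card : ℝ) ^ 2 * (5 * Real.exp (2 * LL X)) := by
  classical
  have hz : ∀ ab : (Fin K → Fin B) × (Fin K → Fin B), ∃ z : ℕ, ∀ᶠ X : ℝ in atTop,
      ∀ (E : Fin K → Finset ℕ) (w : ℕ → Fin K → ℝ),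
      (∀ j, GE X z (E j)) →
      (∀ j, ∀ p : ℕ, p.Prime → |w p j - 1 / p| ≤ 2 / (p : ℝ) ^ 2) →
      |(∏ j, (LL X * BE (E j))) * sieveSum K (fun j => f (ab.1 j)) (fun j => f (ab.2 j)) (LL X) E w (RR X) -
        ∏ j, DD (f (ab.1 j)) (f (ab.2 j))| ≤ ε1 / ((A.card : ℝ) ^ 2 + 1) := by
    intro ab
    exact asympE K (fun j => f (ab.1 j)) (fun j => f (ab.2 j)) (fun j => hsm _) (fun j => hsm _)
      (fun j => hcs _) (fun j => hcs _) (fun j x hx => hf0 _ x ((hc _).2.trans_lt hx))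
      (fun j x hx => hf0 _ x ((hc _).2.trans_lt hx)) _ (by positivity)
  choose z hz using hz
  refine ⟨(A ×ˢ A).sup z, ?_⟩
  have hev : ∀ᶠ X : ℝ in atTop, ∀ ab ∈ A ×ˢ A, ∀ (E : Fin K → Finset ℕ) (w : ℕ → Fin K → ℝ),
      (∀ j, GE X (z ab) (E j)) →
      (∀ j, ∀ p : ℕ, p.Prime → |w p j - 1 / p| ≤ 2 / (p : ℝ) ^ 2) →
      |(∏ j, (LL X * BE (E j))) * sieveSum K (fun j => f (ab.1 j)) (fun j => f (ab.2 j)) (LL X) E w (RR X) -
        ∏ j, DD (f (ab.1 j)) (f (ab.2 j))| ≤ ε1 / ((A.card : ℝ) ^ 2 + 1) := by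
    rw [Filter.eventually_all_finset]
    intro ab _
    exact hz ab
  filter_upwards [hev, eventually_ge_atTop 4, LL_tendsto.eventually_ge_atTop 1] with X h1 h4 h6
  intro W E a0 cc h hGE hWpos hWX ht
  have hWr : (0 : ℝ) < W := by exact_mod_cast hWpos
  have hLB : 0 < LB X E := LB_pos (by linarith) fun j => (hGE j).pr
  have hMnn : 0 ≤ MPhi X := MPhi_nonneg X
  have hone : ∀ a ∈ A, ∀ b ∈ A, ∑ n ∈ Icc 1 ⌊3 * X⌋₊, nu X W a0 n *
      ∏ j, (VVm (E j) (RR X) (LL X) (f (a j)) (cc j * (n : ℤ) + h j) *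
        VVm (E j) (RR X) (LL X) (f (b j)) (cc j * (n : ℤ) + h j)) ≤
      (MPhi X * (1 / (W : ℝ))) * (1 / LB X E) *
        (∏ j, DD (f (a j)) (f (b j)) + ε1 / ((A.card : ℝ) ^ 2 + 1)) + 5 * Real.exp (2 * LL X) := by
    intro a ha b hb
    have hsum : ∑ j, c (a j) + ∑ j, c (b j) ≤ 2 := by
      have := hA a ha
      have := hA b hb
      linarith
    have k1 := S1prodH (fun j => f (a j)) (fun j => f (b j)) (fun j => c (a j)) (fun j => c (b j)) 1 zero_le_one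
      (fun j x => hf1 _ x) (fun j x => hf1 _ x)
      (fun j x hx => hf0 _ x hx) (fun j x hx => hf0 _ x hx) hsum h4 h6 hWpos hWX a0 ht
    rw [one_pow, mul_one] at k1
    have hab : (a, b) ∈ A ×ˢ A := Finset.mem_product.2 ⟨ha, hb⟩
    have k2 := h1 (a, b) hab E (fun p _ => 1 / (p : ℝ))
      (fun j => (hGE j).mono (Finset.le_sup (f := z) hab)) (fun _ p _ => w_one p)
    have k4 := (abs_le.1 k1).2
    have k5 := (abs_le.1 k2).2
    simp only at k5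
    set SS := sieveSum K (fun j => f (a j)) (fun j => f (b j)) (LL X) E (fun p _ => 1 / (p : ℝ)) (RR X)
    have k6 : SS ≤ (1 / LB X E) * (∏ j, DD (f (a j)) (f (b j)) + ε1 / ((A.card : ℝ) ^ 2 + 1)) := by
      rw [one_div, ← div_eq_inv_mul, le_div_iff₀ (by positivity)]
      unfold LB
      linarith
    have k7 : MPhi X * (1 / (W : ℝ)) * SS ≤ (MPhi X * (1 / (W : ℝ))) * ((1 / LB X E) *
        (∏ j, DD (f (a j)) (f (b j)) + ε1 / ((A.card : ℝ) ^ 2 + 1))) :=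
      mul_le_mul_of_nonneg_left k6 (by positivity)
    linarith
  simp_rw [sqwG_sq, Finset.mul_sum]
  rw [Finset.sum_comm]
  have hswap : ∀ a ∈ A, ∑ n ∈ Icc 1 ⌊3 * X⌋₊, ∑ b ∈ A, nu X W a0 n *
      ∏ j, (VVm (E j) (RR X) (LL X) (f (a j)) (cc j * (n : ℤ) + h j) *
        VVm (E j) (RR X) (LL X) (f (b j)) (cc j * (n : ℤ) + h j)) ≤
      ∑ b ∈ A, ((MPhi X * (1 / (W : ℝ))) * (1 / LB X E) *
        (∏ j, DD (f (a j)) (f (b j)) + ε1 / ((A.card : ℝ) ^ 2 + 1)) + 5 * Real.exp (2 * LL X)) := by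
    intro a ha
    rw [Finset.sum_comm]
    exact Finset.sum_le_sum fun b hb => hone a ha b hb
  refine (Finset.sum_le_sum hswap).trans ?_
  simp_rw [Finset.sum_add_distrib, ← Finset.mul_sum, Finset.sum_add_distrib, Finset.sum_const, nsmul_eq_mul]
  have hfin : ((A.card : ℝ) * ((A.card : ℝ) * (ε1 / ((A.card : ℝ) ^ 2 + 1)))) ≤ ε1 := by
    have : (A.card : ℝ) * ((A.card : ℝ) * (ε1 / ((A.card : ℝ) ^ 2 + 1))) =
        ((A.card : ℝ) ^ 2 / ((A.card : ℝ) ^ 2 + 1)) * ε1 := by ring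
    rw [this]
    have h7 : (A.card : ℝ) ^ 2 / ((A.card : ℝ) ^ 2 + 1) ≤ 1 := by
      rw [div_le_one (by positivity)]; linarith
    nlinarith
  have hcoef : 0 ≤ (MPhi X * (1 / (W : ℝ))) * (1 / LB X E) := by positivity
  have : (MPhi X * (1 / (W : ℝ))) * (1 / LB X E) *
      (∑ a ∈ A, ∑ b ∈ A, ∏ j, DD (f (a j)) (f (b j)) +
        (A.card : ℝ) * ((A.card : ℝ) * (ε1 / ((A.card : ℝ) ^ 2 + 1)))) ≤
      (MPhi X * (1 / (W : ℝ))) * (1 / LB X E) * (II f A + ε1) := by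
    apply mul_le_mul_of_nonneg_left _ hcoef
    unfold II
    linarith
  calc _ = (MPhi X * (1 / (W : ℝ))) * (1 / LB X E) *
      (∑ a ∈ A, ∑ b ∈ A, ∏ j, DD (f (a j)) (f (b j)) +
        (A.card : ℝ) * ((A.card : ℝ) * (ε1 / ((A.card : ℝ) ^ 2 + 1)))) +
          (A.card : ℝ) ^ 2 * (5 * Real.exp (2 * LL X)) := by ring
    _ ≤ _ := by linarith

end Pool.Agent.Y848.UG
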