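import Pool.Agent.Y848.UG.BadX
import Pool.Agent.Y848.MS.Eng

set_option autoImplicit false

/-! # The configuration of shifted forms -/

open Finset Filter Topology

namespace Pool.Agent.Y848.UG

open Pool.Agent.H378R2 Pool.Agent.H387R2.MB
open Pool.Agent.H387R2 (Uni.WW Uni.WW_pos)

/-- the coefficients -/
def fc (K : ℕ) (a : ℕ → ℕ) (J : ℕ) (j : Fin J) : ℕ := a ((j : ℕ) / K)

/-- the constants -/
def fh (K : ℕ) (a : ℕ → ℕ) (b : ℕ → ℤ) (T : ℕ → ℕ) (J : ℕ) (j : Fin J) : ℤ :=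
  b ((j : ℕ) / K) + a ((j : ℕ) / K) * (T ((j : ℕ) % K) : ℤ)

lemma div_le_r {r K1 : ℕ} (j : Fin (r * (K1 + 1) + K1 + 1)) : (j : ℕ) / (K1 + 1) ≤ r := by
  have h := j.2
  rw [← Nat.lt_succ_iff, Nat.div_lt_iff_lt_mul (by omega)]
  have e : r.succ * (K1 + 1) = r * (K1 + 1) + K1 + 1 := by rw [Nat.succ_mul]; ring
  omega

lemma div_lt_r {r K1 : ℕ} (j : Fin (r * (K1 + 1) + K1 + 1)) (h : (j : ℕ) < r * (K1 + 1)) : (j : ℕ) / (K1 + 1) < r := by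
  rw [Nat.div_lt_iff_lt_mul (by omega)]
  exact h

lemma div_eq_r {r K1 : ℕ} (j : Fin (r * (K1 + 1) + K1 + 1)) (h : r * (K1 + 1) ≤ (j : ℕ)) : (j : ℕ) / (K1 + 1) = r := by
  apply le_antisymm (div_le_r j)
  rw [Nat.le_div_iff_mul_le (by omega)]
  exact h

lemma prm_cfg {r : ℕ} {a : ℕ → ℕ} {b : ℕ → ℤ} (H : Sys r a b) (K1 : ℕ) (T : ℕ → ℕ)
    (hT : ∀ l ≤ r, ∀ l' ≤ r, ∀ i < K1 + 1, ∀ i' < K1 + 1, i ≠ i' → a l = a l' →
      b l' - b l ≠ a l * ((T i : ℤ) - (T i' : ℤ))) :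
    Prm (fc (K1 + 1) a (r * (K1 + 1) + K1 + 1)) (fh (K1 + 1) a b T (r * (K1 + 1) + K1 + 1)) := by
  refine ⟨fun j => H.pos _ (div_le_r j), fun i j hij h0 => ?_, fun j p hp h1 h2 => ?_⟩
  · unfold Dt fc fh at h0
    have hl := div_le_r i
    have hl' := div_le_r j
    have hi : (i : ℕ) % (K1 + 1) < K1 + 1 := Nat.mod_lt _ (by omega)
    have hj : (j : ℕ) % (K1 + 1) < K1 + 1 := Nat.mod_lt _ (by omega)
    obtain ⟨h1, h2⟩ := H.coinc hl hl' (T ((i : ℕ) % (K1 + 1)) : ℤ) (T ((j : ℕ) % (K1 + 1)) : ℤ) (by linarith)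
    by_cases hs : (i : ℕ) % (K1 + 1) = (j : ℕ) % (K1 + 1)
    · rw [hs, sub_self, mul_zero] at h2
      by_cases hll : (i : ℕ) / (K1 + 1) = (j : ℕ) / (K1 + 1)
      · apply hij
        apply Fin.ext
        rw [← Nat.div_add_mod (i : ℕ) (K1 + 1), ← Nat.div_add_mod (j : ℕ) (K1 + 1), hll, hs]
      · exact H.dist _ hl _ hl' hll ⟨h1, by linarith⟩
    · exact hT _ hl _ hl' _ hi _ hj hs h1 h2
  · unfold fc at h1
    unfold fh at h2
    refine H.prim (div_le_r j) hp h1 ?_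
    exact (Int.dvd_add_left ((Int.natCast_dvd_natCast.2 h1).mul_right _)).1 h2

/-- the residue class -/
lemma class_cfg {r : ℕ} {a : ℕ → ℕ} {b : ℕ → ℤ} (H : Sys r a b) (K1 y Y : ℕ) (T : ℕ → ℕ)
    (hy : r * (K1 + 1) + K1 + 1 ≤ y) (hT0 : ∀ i, ∀ p : ℕ, p.Prime → p ≤ y → p ∣ T i)
    (P : Prm (fc (K1 + 1) a (r * (K1 + 1) + K1 + 1)) (fh (K1 + 1) a b T (r * (K1 + 1) + K1 + 1))) :
    ∃ a0 : ℕ, ∀ n : ℕ, n ≡ a0 [MOD Uni.WW Y] → ∀ j, ∀ p : ℕ, p.Prime → p ≤ Y →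
      ¬ (p : ℤ) ∣ (fc (K1 + 1) a (r * (K1 + 1) + K1 + 1) j : ℤ) * (n : ℤ) + fh (K1 + 1) a b T (r * (K1 + 1) + K1 + 1) j := by
  classical
  have hcl : ∀ p : ℕ, ∃ x : ℕ, p.Prime → ∀ j,
      ¬ (p : ℤ) ∣ (fc (K1 + 1) a (r * (K1 + 1) + K1 + 1) j : ℤ) * (x : ℤ) + fh (K1 + 1) a b T (r * (K1 + 1) + K1 + 1) j := by
    intro p
    by_cases hp : p.Prime
    · by_cases hpy : p ≤ y
      · obtain ⟨x, hx⟩ := H.adm p hp
        refine ⟨(x % p).toNat, fun _ j hd => ?_⟩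
        have hp0 : (p : ℤ) ≠ 0 := by exact_mod_cast hp.ne_zero
        have e0 : (((x % p).toNat : ℕ) : ℤ) = x % p := Int.toNat_of_nonneg (Int.emod_nonneg _ hp0)
        rw [e0] at hd
        apply hx _ (div_le_r j)
        unfold fc fh at hd
        have h1 : (p : ℤ) ∣ (a ((j : ℕ) / (K1 + 1)) : ℤ) * (T ((j : ℕ) % (K1 + 1)) : ℤ) :=
          (Int.natCast_dvd_natCast.2 (hT0 _ p hp hpy)).mul_left _
        have h2 : (p : ℤ) ∣ (a ((j : ℕ) / (K1 + 1)) : ℤ) * (x - x % p) := by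
          apply Dvd.dvd.mul_left
          exact Int.dvd_self_sub_emod
        have e : (a ((j : ℕ) / (K1 + 1)) : ℤ) * x + b ((j : ℕ) / (K1 + 1)) =
            ((a ((j : ℕ) / (K1 + 1)) : ℤ) * (x % p) + (b ((j : ℕ) / (K1 + 1)) +
              (a ((j : ℕ) / (K1 + 1)) : ℤ) * (T ((j : ℕ) % (K1 + 1)) : ℤ))) -
              (a ((j : ℕ) / (K1 + 1)) : ℤ) * (T ((j : ℕ) % (K1 + 1)) : ℤ) +
              (a ((j : ℕ) / (K1 + 1)) : ℤ) * (x - x % p) := by ring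
        rw [e]
        exact dvd_add (dvd_sub hd h1) h2
      · obtain ⟨x, hx⟩ := exists_clG (J := r * (K1 + 1) + K1 + 1) (p := p) (by omega) hp _ _ (fun j => P.prim j p hp)
        exact ⟨x, fun _ => hx⟩
    · exact ⟨0, fun h => absurd h hp⟩
  choose cl hcl using hcl
  obtain ⟨a0, ha0⟩ := Nat.chineseRemainderOfFinset cl id ((Y + 1).primesBelow)
    (fun i hi => (Nat.prime_of_mem_primesBelow hi).ne_zero)
    (fun i hi j hj hij => (Nat.coprime_primes (Nat.prime_of_mem_primesBelow hi) (Nat.prime_of_mem_primesBelow hj)).2 hij)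
  refine ⟨a0, fun n hn j p hp hpY hd => ?_⟩
  have hpW : p ∣ Uni.WW Y := (dvd_WW hp).2 hpY
  have h1 : n ≡ a0 [MOD p] := hn.of_dvd hpW
  have h2 : a0 ≡ cl p [MOD p] := ha0 p (Nat.mem_primesBelow.2 ⟨by omega, hp⟩)
  have h3 := h1.trans h2
  apply hcl p hp j
  have h4 : (p : ℤ) ∣ (n : ℤ) - cl p := (Nat.modEq_iff_dvd.1 h3.symm)
  have e : (fc (K1 + 1) a (r * (K1 + 1) + K1 + 1) j : ℤ) * (cl p : ℤ) + fh (K1 + 1) a b T (r * (K1 + 1) + K1 + 1) j =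
      (fc (K1 + 1) a (r * (K1 + 1) + K1 + 1) j : ℤ) * (n : ℤ) + fh (K1 + 1) a b T (r * (K1 + 1) + K1 + 1) j -
      (fc (K1 + 1) a (r * (K1 + 1) + K1 + 1) j : ℤ) * ((n : ℤ) - cl p) := by ring
  rw [e]
  exact dvd_sub hd (h4.mul_left _)

/-- size of the numbers of excluded primes -/
lemma NN_le {J : ℕ} {c : Fin J → ℕ} {h : Fin J → ℤ} {B D : ℝ} (hB : 1 ≤ B) (hD : 1 ≤ D)
    (hc : ∀ j, (c j : ℝ) ≤ B) (hd : ∀ i j, (((Dt c h i j).natAbs : ℕ) : ℝ) ≤ D) (H : ℕ) (j : Fin J) :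
    (NN c h H j : ℝ) ≤ B * D ^ J := by
  classical
  unfold NN
  split_ifs with hs
  · rw [Nat.cast_one]
    have : 1 ≤ D ^ J := one_le_pow₀ hD
    nlinarith
  · push_cast
    apply mul_le_mul (hc j) _ (prod_nonneg fun _ _ => by positivity) (by linarith)
    calc ∏ i ∈ univ.filter (fun i => i ≠ j ∧ (Sp c h H i ∨ i < j)), (((Dt c h i j).natAbs : ℕ) : ℝ) ≤
          ∏ _i ∈ univ.filter (fun i => i ≠ j ∧ (Sp c h H i ∨ i < j)), D :=
          Finset.prod_le_prod (fun _ _ => Nat.cast_nonneg _) (fun i _ => hd i j)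
      _ = D ^ (univ.filter (fun i => i ≠ j ∧ (Sp c h H i ∨ i < j))).card := prod_const _
      _ ≤ D ^ J := by
          apply pow_le_pow_right₀ hD
          refine (card_filter_le _ _).trans ?_
          rw [card_univ, Fintype.card_fin]

end Pool.Agent.Y848.UG
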