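import Pool.Agent.Y848.UG.Config
import Pool.Agent.Y843.HS.Stm

set_option autoImplicit false

/-! # The classes excluded by the forms, and the density of the sifted set -/

open Finset Filter Topology

namespace Pool.Agent.Y848.UG

open Pool.Agent.H378R2 Pool.Agent.H387R2.MB
open Pool.Agent.H387R2 (Uni.WW Uni.WW_pos)
open Pool.Agent.Y843.HS (VV Pr)

open Classical in
/-- the classes modulo `p` in which one of the forms is divisible by `p` -/
noncomputable def Zc {J : ℕ} (c : Fin J → ℕ) (h : Fin J → ℤ) (p : ℕ) : Finset ℕ :=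
  (range p).filter (fun u => ∃ j, (p : ℤ) ∣ c j * (u : ℤ) + h j)

lemma mem_Zc {J : ℕ} {c : Fin J → ℕ} {h : Fin J → ℤ} {p : ℕ} (hp : 0 < p) (n : ℕ) :
    n % p ∈ Zc c h p ↔ ∃ j, (p : ℤ) ∣ c j * (n : ℤ) + h j := by
  classical
  unfold Zc
  rw [mem_filter, mem_range]
  have key : ∀ j, ((p : ℤ) ∣ c j * ((n % p : ℕ) : ℤ) + h j ↔ (p : ℤ) ∣ c j * (n : ℤ) + h j) := by
    intro j
    have h1 : (p : ℤ) ∣ (n : ℤ) - ((n % p : ℕ) : ℤ) := by
      push_cast
      exact Int.dvd_self_sub_emod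
    have e : (c j : ℤ) * (n : ℤ) + h j = (c j * ((n % p : ℕ) : ℤ) + h j) + c j * ((n : ℤ) - ((n % p : ℕ) : ℤ)) := by ring
    rw [e]
    exact (Int.dvd_add_left (h1.mul_left _)).symm
  constructor
  · rintro ⟨_, j, hj⟩
    exact ⟨j, (key j).1 hj⟩
  · rintro ⟨j, hj⟩
    exact ⟨Nat.mod_lt _ hp, j, (key j).2 hj⟩

lemma Zc_lt {J : ℕ} {c : Fin J → ℕ} {h : Fin J → ℤ} {p : ℕ} : ∀ u ∈ Zc c h p, u < p := by
  classical
  intro u hu
  unfold Zc at hu
  rw [mem_filter, mem_range] at hu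
  exact hu.1

lemma Zc_card_le {J : ℕ} {c : Fin J → ℕ} {h : Fin J → ℤ} (P : Prm c h) {p : ℕ} (hp : p.Prime) :
    (Zc c h p).card ≤ J := by
  classical
  have h1 : Zc c h p ⊆ univ.biUnion (fun j : Fin J => (range p).filter (fun u => (p : ℤ) ∣ c j * (u : ℤ) + h j)) := by
    intro u hu
    unfold Zc at hu
    rw [mem_filter] at hu
    obtain ⟨hu1, j, hj⟩ := hu
    rw [mem_biUnion]
    exact ⟨j, mem_univ _, mem_filter.2 ⟨hu1, hj⟩⟩
  refine (card_le_card h1).trans (card_biUnion_le.trans ?_)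
  have h2 : ∀ j ∈ (univ : Finset (Fin J)), ((range p).filter (fun u : ℕ => (p : ℤ) ∣ c j * (u : ℤ) + h j)).card ≤ 1 := by
    intro j _
    rw [card_le_one]
    intro u hu u' hu'
    rw [mem_filter, mem_range] at hu hu'
    have h3 : (p : ℤ) ∣ c j * ((u : ℤ) - u') := by
      have h4 := dvd_sub hu.2 hu'.2
      have e : (c j : ℤ) * (u : ℤ) + h j - (c j * (u' : ℤ) + h j) = c j * ((u : ℤ) - u') := by ring
      rwa [e] at h4
    rcases (Nat.prime_iff_prime_int.1 hp).dvd_or_dvd h3 with h4 | h4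
    · exfalso
      have h5 : p ∣ c j := Int.natCast_dvd_natCast.1 h4
      exact P.prim j p hp h5 ((Int.dvd_add_right (h4.mul_right _)).1 hu.2)
    · have h5 : (u : ℤ) - u' = 0 := by
        apply Int.eq_zero_of_abs_lt_dvd h4
        rw [abs_lt]
        have := hu.1
        have := hu'.1
        constructor <;> omega
      omega
  calc ∑ j : Fin J, ((range p).filter (fun u : ℕ => (p : ℤ) ∣ c j * (u : ℤ) + h j)).card ≤ ∑ _j : Fin J, 1 :=
        sum_le_sum h2
    _ = J := by rw [sum_const, card_univ, Fintype.card_fin, smul_eq_mul, mul_one]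

lemma exists_root {c p : ℕ} (hp : p.Prime) (hc : ¬ p ∣ c) (h : ℤ) : ∃ u < p, (p : ℤ) ∣ c * (u : ℤ) + h := by
  have := Fact.mk hp
  have hc0 : (c : ZMod p) ≠ 0 := by
    rw [Ne, ZMod.natCast_eq_zero_iff]
    exact hc
  refine ⟨(-(h : ZMod p) / c).val, ZMod.val_lt _, ?_⟩
  rw [← ZMod.intCast_zmod_eq_zero_iff_dvd]
  push_cast
  rw [ZMod.natCast_zmod_val, mul_div_cancel₀ _ hc0]
  ring

lemma Zc_card_ge {J : ℕ} {W : ℕ} {E : Fin J → Finset ℕ} {c : Fin J → ℕ} {h : Fin J → ℤ} (hF : FS W E c h)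
    {p : ℕ} (hp : p.Prime) : (univ.filter (fun j => p ∉ E j)).card ≤ (Zc c h p).card := by
  classical
  have hr : ∀ j : Fin J, ∃ u : ℕ, p ∉ E j → u < p ∧ (p : ℤ) ∣ c j * (u : ℤ) + h j := by
    intro j
    by_cases hj : p ∈ E j
    · exact ⟨0, fun h => absurd hj h⟩
    · obtain ⟨u, hu, hu'⟩ := exists_root hp (hF.cf j p hp hj) (h j)
      exact ⟨u, fun _ => ⟨hu, hu'⟩⟩
  choose u hu using hr
  apply card_le_card_of_injOn u
  · intro j hj
    rw [mem_coe, mem_filter] at hj
    rw [mem_coe]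
    unfold Zc
    rw [mem_filter, mem_range]
    exact ⟨(hu j hj.2).1, j, (hu j hj.2).2⟩
  · intro i hi j hj hij
    rw [mem_coe, mem_filter] at hi hj
    by_contra hne
    have h1 := (hu i hi.2).2
    have h2 := (hu j hj.2).2
    rw [← hij] at h2
    exact hF.res hne hp hi.2 hj.2 _ ⟨h1, h2⟩

lemma one_sub_nonneg' {p : ℕ} (hp : p.Prime) : 0 ≤ 1 - 1 / (p : ℝ) ∧ 1 - 1 / (p : ℝ) ≤ 1 ∧ 0 < 1 - 1 / (p : ℝ) := by
  have h2 : (2 : ℝ) ≤ p := by exact_mod_cast hp.two_le
  have h3 : 1 / (p : ℝ) ≤ 1 / 2 := one_div_le_one_div_of_le (by norm_num) h2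
  have h4 : 0 ≤ 1 / (p : ℝ) := by positivity
  refine ⟨by linarith, by linarith, by linarith⟩

/-- upper bound of the density of the sifted set -/
theorem VV_le : ∃ C : ℝ, 1 ≤ C ∧ ∀ (J W : ℕ) (E : Fin J → Finset ℕ) (c : Fin J → ℕ) (h : Fin J → ℤ), FS W E c h →
    (∀ j, ∀ p ∈ E j, p.Prime) → ∀ z : ℕ, 3 ≤ z →
      VV (Zc c h) 0 z ≤ (C / Real.log z) ^ J * ∏ j, (1 / BE (E j)) := by
  classical
  obtain ⟨C2, hC2⟩ := Pool.Agent.Erdos456.Mert.mertens_inv
  refine ⟨Real.exp |C2|, Real.one_le_exp (abs_nonneg _), fun J W E c h hF hE z hz => ?_⟩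
  have hPr : ∀ p ∈ Pr 0 z, p.Prime := by
    intro p hp
    unfold Pr at hp
    exact (mem_filter.1 hp).2
  have hlog : 0 < Real.log (z : ℝ) := Real.log_pos (by exact_mod_cast (by omega : 1 < z))
  have hM : ∏ p ∈ Pr 0 z, (1 - 1 / (p : ℝ)) ≤ Real.exp |C2| / Real.log z := by
    have h1 : ∏ p ∈ Pr 0 z, (1 - 1 / (p : ℝ)) ≤ Real.exp (-∑ p ∈ Pr 0 z, (1 : ℝ) / p) := by
      rw [← sum_neg_distrib, Real.exp_sum]
      apply Finset.prod_le_prod
      · intro p hp; exact (one_sub_nonneg' (hPr p hp)).1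
      · intro p hp
        have := Real.add_one_le_exp (-(1 / (p : ℝ)))
        linarith
    refine h1.trans ?_
    have h2 : (Pr 0 z) = (Icc 1 z).filter Nat.Prime := by
      unfold Pr
      congr 1
    have h3 := (abs_le.1 (hC2 z hz)).1
    rw [← h2] at h3
    have h4 := le_abs_self C2
    rw [← Real.exp_log hlog, ← Real.exp_sub]
    apply Real.exp_le_exp.2
    linarith
  have h1 : VV (Zc c h) 0 z ≤ ∏ p ∈ Pr 0 z, ∏ j : Fin J, (if p ∉ E j then (1 - 1 / (p : ℝ)) else 1) := by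
    unfold VV
    apply Finset.prod_le_prod
    · intro p hp
      have hpp := hPr p hp
      have h2 : (Zc c h p).card ≤ p := by
        have : Zc c h p ⊆ range p := fun u hu => mem_range.2 (Zc_lt u hu)
        have := card_le_card this
        rwa [card_range] at this
      have h3 : ((Zc c h p).card : ℝ) / p ≤ 1 := by
        rw [div_le_one (by exact_mod_cast hpp.pos)]
        exact_mod_cast h2
      linarith
    · intro p hp
      have hpp := hPr p hp
      rw [prod_ite, prod_const, prod_const_one, mul_one]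
      have h2 := Zc_card_ge hF hpp
      have h3 : (((univ.filter (fun j => p ∉ E j)).card : ℕ) : ℝ) / p ≤ ((Zc c h p).card : ℝ) / p := by
        gcongr
      have h4 := one_add_mul_le_pow (a := -(1 / (p : ℝ))) (by
        have := (one_sub_nonneg' hpp).1
        linarith) (univ.filter (fun j => p ∉ E j)).card
      have e : 1 + (((univ.filter (fun j => p ∉ E j)).card : ℕ) : ℝ) * -(1 / (p : ℝ)) =
        1 - (((univ.filter (fun j => p ∉ E j)).card : ℕ) : ℝ) / p := by ring
      have e2 : 1 + -(1 / (p : ℝ)) = 1 - 1 / (p : ℝ) := by ring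
      rw [e, e2] at h4
      linarith
  refine h1.trans ?_
  rw [Finset.prod_comm]
  have h2 : ∀ j : Fin J, ∏ p ∈ Pr 0 z, (if p ∉ E j then (1 - 1 / (p : ℝ)) else 1) ≤
      (Real.exp |C2| / Real.log z) * (1 / BE (E j)) := by
    intro j
    have hB := BE_pos (hE j)
    rw [mul_one_div, le_div_iff₀ hB]
    refine le_trans ?_ hM
    have h3 : BE (E j) ≤ ∏ p ∈ Pr 0 z, (if p ∉ E j then 1 else (1 - 1 / (p : ℝ))) := by
      rw [prod_ite, prod_const_one, one_mul]
      unfold BE
      have hsub : (Pr 0 z).filter (fun p => ¬ p ∉ E j) ⊆ E j := by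
        intro p hp
        rw [mem_filter, not_not] at hp
        exact hp.2
      rw [← prod_sdiff hsub]
      apply mul_le_of_le_one_left
      · exact prod_nonneg fun p hp => (one_sub_nonneg' (hE j p (hsub hp))).1
      · apply prod_le_one
        · intro p hp
          exact (one_sub_nonneg' (hE j p (mem_sdiff.1 hp).1)).1
        · intro p hp
          exact (one_sub_nonneg' (hE j p (mem_sdiff.1 hp).1)).2.1
    calc (∏ p ∈ Pr 0 z, (if p ∉ E j then (1 - 1 / (p : ℝ)) else 1)) * BE (E j) ≤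
        (∏ p ∈ Pr 0 z, (if p ∉ E j then (1 - 1 / (p : ℝ)) else 1)) *
          ∏ p ∈ Pr 0 z, (if p ∉ E j then 1 else (1 - 1 / (p : ℝ))) := by
          apply mul_le_mul_of_nonneg_left h3
          apply prod_nonneg
          intro p hp
          split_ifs
          · norm_num
          · exact (one_sub_nonneg' (hPr p hp)).1
      _ = ∏ p ∈ Pr 0 z, (1 - 1 / (p : ℝ)) := by
          rw [← prod_mul_distrib]
          apply prod_congr rfl
          intro p _
          split_ifs <;> ring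
  calc ∏ j : Fin J, ∏ p ∈ Pr 0 z, (if p ∉ E j then (1 - 1 / (p : ℝ)) else 1) ≤
      ∏ j : Fin J, ((Real.exp |C2| / Real.log z) * (1 / BE (E j))) := by
        apply Finset.prod_le_prod
        · intro j _
          apply prod_nonneg
          intro p hp
          split_ifs
          · norm_num
          · exact (one_sub_nonneg' (hPr p hp)).1
        · intro j _; exact h2 j
    _ = _ := by rw [prod_mul_distrib, prod_const, card_univ, Fintype.card_fin]

end Pool.Agent.Y848.UG
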