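import Pool.Agent.Y848.MS.Fam

set_option autoImplicit false

/-! # The asymmetric family of weights: wide functions for the prime forms, one narrow function for the companions -/

open Finset MeasureTheory
open scoped ContDiff

namespace Pool.Agent.Y848.UG

open Pool.Agent.H378R2

lemma DD_scale (f g : ℝ → ℝ) : DD (fun x => f (2 * x)) (fun x => g (2 * x)) = 2 * DD f g := by
  unfold DD
  have h1 : ∀ (f : ℝ → ℝ) (t : ℝ), deriv (fun x => f (2 * x)) t = 2 * deriv f (2 * t) := by
    intro f t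
    rw [deriv_comp_mul_left]
    rfl
  simp_rw [h1]
  have h2 : ∀ t : ℝ, 2 * deriv f (2 * t) * (2 * deriv g (2 * t)) = 4 * (fun s => deriv f s * deriv g s) (2 * t) := by
    intro t; ring
  simp_rw [h2]
  rw [integral_const_mul, integral_comp_mul_left_Ioi (fun s => deriv f s * deriv g s) 0 (by norm_num : (0:ℝ) < 2), mul_zero,
    smul_eq_mul]
  ring

/-- the family of level one half -/
theorem familyS (M0 : ℝ) : ∃ (K0 B : ℕ) (f : Fin B → ℝ → ℝ) (c : Fin B → ℝ)
    (A : Finset (Fin (K0 + 1) → Fin B)),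
    (∀ l, ContDiff ℝ ∞ (f l)) ∧ (∀ l, HasCompactSupport (f l)) ∧ (∀ l x, c l < x → f l x = 0) ∧
    (∀ l, 0 ≤ c l ∧ c l ≤ 1 / 2) ∧ (∀ a ∈ A, ∑ j, c (a j) ≤ 1 / 2) ∧ (∀ l x, |f l x| ≤ 1) ∧
    0 < II f A ∧ (∀ i, M0 * II f A ≤ ((K0 : ℝ) + 1) * JJ f A i) := by
  obtain ⟨K0, B, f, c, A, hsm, hcs, hf0, hc, hA, hf1, hI, hJ, _⟩ := Pool.Agent.Y848.MS.familyI (2 * M0)
  refine ⟨K0, B, fun l x => f l (2 * x), fun l => c l / 2, A, fun l => ?_, fun l => ?_, fun l x hx => ?_,
    fun l => ⟨by have := (hc l).1; linarith, by have := (hc l).2; have := (hc l).1; linarith⟩, fun a ha => ?_,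
    fun l x => hf1 l _, ?_, fun i => ?_⟩
  · exact (hsm l).comp (contDiff_const.mul contDiff_id)
  · have h := (hcs l).comp_homeomorph (Homeomorph.mulLeft₀ (2:ℝ) (by norm_num))
    exact h
  · apply hf0
    linarith
  · rw [← sum_div]
    have := hA a ha
    linarith
  · have e : II (fun l x => f l (2 * x)) A = 2 ^ (K0 + 1) * II f A := by
      unfold II
      simp_rw [DD_scale, prod_mul_distrib, prod_const, card_univ, Fintype.card_fin, mul_sum]
    rw [e]
    positivity
  · have e : II (fun l x => f l (2 * x)) A = 2 ^ (K0 + 1) * II f A := by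
      unfold II
      simp_rw [DD_scale, prod_mul_distrib, prod_const, card_univ, Fintype.card_fin, mul_sum]
    have e2 : JJ (fun l x => f l (2 * x)) A i = 2 ^ K0 * JJ f A i := by
      unfold JJ
      simp_rw [DD_scale, prod_mul_distrib, prod_const, card_univ, Fintype.card_fin, mul_sum, mul_zero]
      refine Finset.sum_congr rfl fun a _ => Finset.sum_congr rfl fun b _ => ?_
      ring
    rw [e, e2]
    have h1 := mul_le_mul_of_nonneg_left (hJ i) (by positivity : (0:ℝ) ≤ 2 ^ K0)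
    calc M0 * (2 ^ (K0 + 1) * II f A) = 2 ^ K0 * (2 * M0 * II f A) := by ring
      _ ≤ 2 ^ K0 * ((K0 + 1) * JJ f A i) := h1
      _ = _ := by ring

lemma prod_succAbove {n : ℕ} (i : Fin (n + 1)) (g : Fin (n + 1) → ℝ) :
    ∏ j : Fin n, g (i.succAbove j) = ∏ j, (if j = i then 1 else g j) := by
  rw [Fin.prod_univ_succAbove (fun j => if j = i then 1 else g j) i]
  simp [Fin.succAbove_ne]

lemma rho_mul_prod {R : ℕ} (i0 : Fin R) (ρ : ℝ) : ρ * ∏ j : Fin R, (if j = i0 then 1 else ρ) = ρ ^ R := by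
  have h1 : ∏ j : Fin R, (if j = i0 then ρ else 1) = ρ := by simp
  calc ρ * ∏ j : Fin R, (if j = i0 then 1 else ρ) =
      (∏ j : Fin R, (if j = i0 then ρ else 1)) * ∏ j : Fin R, (if j = i0 then 1 else ρ) := by rw [h1]
    _ = ∏ _j : Fin R, ρ := by
        rw [← prod_mul_distrib]
        apply prod_congr rfl
        intro j _
        split_ifs <;> ring
    _ = ρ ^ R := by rw [prod_const, card_univ, Fintype.card_fin]

/-- the asymmetric family: `R` companion indices first, then `K1 + 1` prime indices -/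
theorem familyA (M0 : ℝ) : ∃ K1 : ℕ, ∀ (R : ℕ) (ε : ℝ), 0 < ε → ∃ (B : ℕ) (f : Fin B → ℝ → ℝ) (c : Fin B → ℝ)
    (A : Finset (Fin (R + K1 + 1) → Fin B)),
    (∀ l, ContDiff ℝ ∞ (f l)) ∧ (∀ l, HasCompactSupport (f l)) ∧ (∀ l x, c l < x → f l x = 0) ∧
    (∀ l, 0 ≤ c l ∧ c l ≤ 1 / 2) ∧ (∀ a ∈ A, ∑ j, c (a j) ≤ 1) ∧ (∀ l x, |f l x| ≤ 1) ∧
    0 < II f A ∧ (∀ i : Fin (R + K1 + 1), R ≤ (i : ℕ) → M0 * II f A ≤ ((K1 : ℝ) + 1) * JJ f A i) ∧
    (∀ i : Fin (R + K1 + 1), (i : ℕ) < R → 0 ≤ JJ f A i ∧ (R : ℝ) * JJ f A i ≤ ε * II f A) := by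
  classical
  obtain ⟨K1, B', f', c', A', hsm, hcs, hf0, hc, hA, hf1, hI, hJ⟩ := familyS M0
  refine ⟨K1, fun R ε hε => ?_⟩
  have hg := gam_pos
  set η : ℝ := min (1 / (2 * ((R : ℝ) + 1))) (ε * gam / ((R : ℝ) + 1)) with hη
  have hη0 : 0 < η := lt_min (by positivity) (by positivity)
  have hη1 : η ≤ 1 / (2 * ((R : ℝ) + 1)) := min_le_left _ _
  have hη2 : η ≤ ε * gam / ((R : ℝ) + 1) := min_le_right _ _
  have hRη : (R : ℝ) * η ≤ 1 / 2 := by
    calc (R : ℝ) * η ≤ (R + 1) * (1 / (2 * ((R : ℝ) + 1))) := by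
          apply mul_le_mul (by linarith) hη1 hη0.le (by positivity)
      _ = 1 / 2 := by field_simp
  have hηhalf : η ≤ 1 / 2 := by
    refine hη1.trans ?_
    apply one_div_le_one_div_of_le (by norm_num)
    have : (0:ℝ) ≤ R := Nat.cast_nonneg R
    linarith
  set f : Fin (B' + 1) → ℝ → ℝ := Fin.cons (hs η) f' with hf
  set c : Fin (B' + 1) → ℝ := Fin.cons η c' with hcdef
  set ρ : ℝ := gam / η with hρ
  have hρ0 : 0 < ρ := by positivity
  set ext : (Fin (K1 + 1) → Fin B') → (Fin (R + K1 + 1) → Fin (B' + 1)) :=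
    fun a' => Fin.append (m := R) (n := K1 + 1) (fun _ : Fin R => 0) (fun i => (a' i).succ) with hext
  have hextl : ∀ a' (j : Fin R), ext a' (Fin.castAdd (K1 + 1) j) = 0 := by
    intro a' j; simp only [hext]; rw [Fin.append_left]
  have hextr : ∀ a' (j : Fin (K1 + 1)), ext a' (Fin.natAdd R j) = (a' j).succ := by
    intro a' j; simp only [hext]; rw [Fin.append_right]
  have hinj : Function.Injective ext := by
    intro a b hab
    funext j
    have h1 := congrFun hab (Fin.natAdd R j)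
    rw [hextr, hextr] at h1
    exact Fin.succ_injective _ h1
  have hDl : ∀ a b (j : Fin R), DD (f (ext a (Fin.castAdd (K1 + 1) j))) (f (ext b (Fin.castAdd (K1 + 1) j))) = ρ := by
    intro a b j
    rw [hextl, hextl]
    simp only [hf, Fin.cons_zero]
    exact DD_hs_self hη0
  have hDr : ∀ a b (j : Fin (K1 + 1)), DD (f (ext a (Fin.natAdd R j))) (f (ext b (Fin.natAdd R j))) = DD (f' (a j)) (f' (b j)) := by
    intro a b j
    rw [hextr, hextr]
    simp only [hf, Fin.cons_succ]
  have hII : II (K := R + K1 + 1) f (A'.image ext) = ρ ^ R * II f' A' := by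
    unfold II
    rw [sum_image (fun a _ b _ h => hinj h), mul_sum]
    refine sum_congr rfl fun a _ => ?_
    rw [sum_image (fun a _ b _ h => hinj h), mul_sum]
    refine sum_congr rfl fun b _ => ?_
    have e1 : ∏ j : Fin (R + K1 + 1), DD (f (ext a j)) (f (ext b j)) =
        ∏ j : Fin (R + (K1 + 1)), DD (f (ext a j)) (f (ext b j)) := rfl
    rw [e1, Fin.prod_univ_add]
    simp_rw [hDl, hDr]
    rw [prod_const, card_univ, Fintype.card_fin]
  have hJr : ∀ i : Fin (K1 + 1), JJ (K0 := R + K1) f (A'.image ext) (Fin.natAdd R i) = ρ ^ R * JJ f' A' i := by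
    intro i
    unfold JJ
    rw [sum_image (fun a _ b _ h => hinj h), mul_sum]
    refine sum_congr rfl fun a _ => ?_
    rw [sum_image (fun a _ b _ h => hinj h), mul_sum]
    refine sum_congr rfl fun b _ => ?_
    rw [prod_succAbove (n := R + K1) (Fin.natAdd R i) (fun j => DD (f (ext a j)) (f (ext b j)))]
    have e1 : ∏ j : Fin (R + K1 + 1), (if j = Fin.natAdd R i then 1 else DD (f (ext a j)) (f (ext b j))) =
        ∏ j : Fin (R + (K1 + 1)), (if j = Fin.natAdd R i then 1 else DD (f (ext a j)) (f (ext b j))) := rfl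
    rw [e1, Fin.prod_univ_add]
    have e2 : ∀ j : Fin R, (if Fin.castAdd (K1 + 1) j = Fin.natAdd R i then 1 else
        DD (f (ext a (Fin.castAdd (K1 + 1) j))) (f (ext b (Fin.castAdd (K1 + 1) j)))) = ρ := by
      intro j
      rw [if_neg, hDl]
      intro h
      have := congrArg Fin.val h
      simp only [Fin.val_castAdd, Fin.val_natAdd] at this
      have := j.2
      omega
    have e3 : ∀ j : Fin (K1 + 1), (if Fin.natAdd R j = Fin.natAdd R i then 1 else
        DD (f (ext a (Fin.natAdd R j))) (f (ext b (Fin.natAdd R j)))) =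
        (if j = i then 1 else DD (f' (a j)) (f' (b j))) := by
      intro j
      rw [hDr]
      by_cases hji : j = i
      · rw [hji, if_pos rfl, if_pos rfl]
      · rw [if_neg hji, if_neg (fun h => hji (Fin.natAdd_injective _ _ h))]
    simp_rw [e2, e3]
    rw [prod_const, card_univ, Fintype.card_fin, hextr, hextr,
      ← prod_succAbove i (fun j => DD (f' (a j)) (f' (b j)))]
    simp only [hf, Fin.cons_succ]
    ring
  have hJl : ∀ i : Fin R, ρ * JJ (K0 := R + K1) f (A'.image ext) (Fin.castAdd (K1 + 1) i) = ρ ^ R * II f' A' := by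
    intro i
    unfold JJ II
    rw [sum_image (fun a _ b _ h => hinj h), mul_sum, mul_sum]
    refine sum_congr rfl fun a _ => ?_
    rw [sum_image (fun a _ b _ h => hinj h), mul_sum, mul_sum]
    refine sum_congr rfl fun b _ => ?_
    rw [prod_succAbove (n := R + K1) (Fin.castAdd (K1 + 1) i) (fun j => DD (f (ext a j)) (f (ext b j)))]
    have e1 : ∏ j : Fin (R + K1 + 1), (if j = Fin.castAdd (K1 + 1) i then 1 else DD (f (ext a j)) (f (ext b j))) =
        ∏ j : Fin (R + (K1 + 1)), (if j = Fin.castAdd (K1 + 1) i then 1 else DD (f (ext a j)) (f (ext b j))) := rfl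
    rw [e1, Fin.prod_univ_add]
    have e2 : ∀ j : Fin R, (if Fin.castAdd (K1 + 1) j = Fin.castAdd (K1 + 1) i then 1 else
        DD (f (ext a (Fin.castAdd (K1 + 1) j))) (f (ext b (Fin.castAdd (K1 + 1) j)))) = (if j = i then 1 else ρ) := by
      intro j
      rw [hDl]
      by_cases hji : j = i
      · rw [hji, if_pos rfl, if_pos rfl]
      · rw [if_neg hji, if_neg (fun h => hji (Fin.castAdd_injective _ _ h))]
    have e3 : ∀ j : Fin (K1 + 1), (if Fin.natAdd R j = Fin.castAdd (K1 + 1) i then 1 else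
        DD (f (ext a (Fin.natAdd R j))) (f (ext b (Fin.natAdd R j)))) = DD (f' (a j)) (f' (b j)) := by
      intro j
      rw [if_neg, hDr]
      intro h
      have := congrArg Fin.val h
      simp only [Fin.val_castAdd, Fin.val_natAdd] at this
      have := i.2
      omega
    simp_rw [e2, e3]
    rw [hextl, hextl]
    have e4 : f 0 0 = 1 := by simp only [hf, Fin.cons_zero]; exact hs_at_zero _
    rw [e4]
    have e5 := rho_mul_prod i ρ
    calc ρ * (1 * 1 * ((∏ j : Fin R, if j = i then 1 else ρ) * ∏ j, DD (f' (a j)) (f' (b j)))) =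
        (ρ * ∏ j : Fin R, (if j = i then 1 else ρ)) * ∏ j, DD (f' (a j)) (f' (b j)) := by ring
      _ = _ := by rw [e5]
  refine ⟨B' + 1, f, c, A'.image ext, ?_, ?_, ?_, ?_, ?_, ?_, ?_, ?_, ?_⟩
  · intro l
    refine Fin.cases ?_ (fun l => ?_) l
    · simp only [hf, Fin.cons_zero]; exact hs_smooth _
    · simp only [hf, Fin.cons_succ]; exact hsm l
  · intro l
    refine Fin.cases ?_ (fun l => ?_) l
    · simp only [hf, Fin.cons_zero]; exact hs_compact hη0
    · simp only [hf, Fin.cons_succ]; exact hcs l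
  · intro l
    refine Fin.cases ?_ (fun l => ?_) l
    · simp only [hf, hcdef, Fin.cons_zero]
      intro x hx
      exact hs_zero hη0 (hx.le.trans (le_abs_self x))
    · simp only [hf, hcdef, Fin.cons_succ]; exact hf0 l
  · intro l
    refine Fin.cases ?_ (fun l => ?_) l
    · simp only [hcdef, Fin.cons_zero]; exact ⟨hη0.le, hηhalf⟩
    · simp only [hcdef, Fin.cons_succ]; exact hc l
  · intro a ha
    rw [mem_image] at ha
    obtain ⟨a', ha', rfl⟩ := ha
    have e1 : ∑ j : Fin (R + K1 + 1), c (ext a' j) = ∑ j : Fin (R + (K1 + 1)), c (ext a' j) := rfl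
    rw [e1, Fin.sum_univ_add]
    simp_rw [hextl, hextr]
    simp only [hcdef, Fin.cons_zero, Fin.cons_succ]
    rw [sum_const, card_univ, Fintype.card_fin, nsmul_eq_mul]
    have := hA a' ha'
    linarith
  · intro l
    refine Fin.cases ?_ (fun l => ?_) l
    · simp only [hf, Fin.cons_zero]; exact hs_abs_le _
    · simp only [hf, Fin.cons_succ]; exact hf1 l
  · have e : II (K := R + K1 + 1) f (A'.image ext) = ρ ^ R * II f' A' := hII
    rw [e]; positivity
  · intro i hi
    have e : II (K := R + K1 + 1) f (A'.image ext) = ρ ^ R * II f' A' := hII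
    obtain ⟨i', hi'⟩ : ∃ i' : Fin (K1 + 1), i = Fin.natAdd R i' := by
      refine ⟨⟨(i : ℕ) - R, by have := i.2; omega⟩, ?_⟩
      apply Fin.ext
      simp only [Fin.val_natAdd]
      omega
    rw [e, hi', hJr]
    have h1 := mul_le_mul_of_nonneg_left (hJ i') (by positivity : (0:ℝ) ≤ ρ ^ R)
    calc M0 * (ρ ^ R * II f' A') = ρ ^ R * (M0 * II f' A') := by ring
      _ ≤ ρ ^ R * ((K1 + 1) * JJ f' A' i') := h1
      _ = _ := by ring
  · intro i hi
    have e : II (K := R + K1 + 1) f (A'.image ext) = ρ ^ R * II f' A' := hII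
    obtain ⟨i', hi'⟩ : ∃ i' : Fin R, i = Fin.castAdd (K1 + 1) i' := ⟨⟨i, hi⟩, Fin.ext rfl⟩
    rw [e, hi', ← hJl i']
    set Jv := JJ (K0 := R + K1) f (A'.image ext) (Fin.castAdd (K1 + 1) i') with hJv
    have hJv0 : 0 ≤ Jv := by
      have h1 := hJl i'
      rw [← hJv] at h1
      have h2 : 0 ≤ ρ * Jv := by rw [h1]; positivity
      exact (mul_nonneg_iff_of_pos_left hρ0).1 h2
    have h3 : (R : ℝ) ≤ ε * ρ := by
      rw [hρ, mul_div_assoc', le_div_iff₀ hη0]
      rw [le_div_iff₀ (by positivity)] at hη2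
      have hη0' := hη0.le
      nlinarith
    refine ⟨hJv0, ?_⟩
    calc (R : ℝ) * Jv ≤ (ε * ρ) * Jv := mul_le_mul_of_nonneg_right h3 hJv0
      _ = ε * (ρ * Jv) := by ring

end Pool.Agent.Y848.UG
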