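import Pool.Agent.Y848.UG.TopS

set_option autoImplicit false

/-! # Finite sets of forms: progressions of windows -/

open Finset Filter Topology

namespace Pool.Agent.Y848.UG

/-- an enumeration of a finite set of forms, followed by the form `x` -/
lemma exists_enum {r : ℕ} (F : Finset (ℕ × ℤ)) (hF : #F = r) (h10 : ((1, 0) : ℕ × ℤ) ∉ F) (h1 : ∀ f ∈ F, 1 ≤ f.1)
    (hadm : ∀ p : ℕ, p.Prime → ∃ n : ℤ, ¬ (p : ℤ) ∣ n ∧ ∀ f ∈ F, ¬ (p : ℤ) ∣ f.1 * n + f.2) :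
    ∃ (a : ℕ → ℕ) (b : ℕ → ℤ), Sys r a b ∧ (∀ l < r, (a l, b l) ∈ F) ∧ (∀ f ∈ F, ∃ l < r, a l = f.1 ∧ b l = f.2) := by
  classical
  obtain ⟨e⟩ : Nonempty (Fin r ≃ F) := ⟨(Finset.equivFinOfCardEq hF).symm⟩
  obtain ⟨g, hg⟩ : ∃ g : ℕ → ℕ × ℤ, ∀ l, g l = if hl : l < r then ((e ⟨l, hl⟩ : F) : ℕ × ℤ) else (1, 0) :=
    ⟨_, fun _ => rfl⟩
  have hgl : ∀ l, (hl : l < r) → g l = ((e ⟨l, hl⟩ : F) : ℕ × ℤ) := by
    intro l hl
    rw [hg, dif_pos hl]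
  have hgr : g r = (1, 0) := by rw [hg, dif_neg (lt_irrefl r)]
  have hgm : ∀ l < r, g l ∈ F := by
    intro l hl
    rw [hgl l hl]
    exact (e ⟨l, hl⟩).2
  refine ⟨fun l => (g l).1, fun l => (g l).2, ⟨?_, ?_, ?_, ?_, ?_⟩, ?_, ?_⟩
  · simp [hgr]
  · simp [hgr]
  · intro l hl
    rcases Nat.lt_or_ge l r with h4 | h4
    · exact h1 _ (hgm l h4)
    · have h6 : l = r := by omega
      simp [h6, hgr]
  · rintro l hl l' hl' hne ⟨he1, he2⟩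
    have he : g l = g l' := Prod.ext he1 he2
    rcases Nat.lt_or_ge l r with h4 | h4
    · rcases Nat.lt_or_ge l' r with h5 | h5
      · rw [hgl l h4, hgl l' h5] at he
        have h6 := e.injective (Subtype.ext he)
        exact hne (by simpa using h6)
      · have h6 : l' = r := by omega
        rw [h6, hgr] at he
        exact h10 (he ▸ hgm l h4)
    · have h6 : l = r := by omega
      rcases Nat.lt_or_ge l' r with h5 | h5
      · rw [h6, hgr] at he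
        exact h10 (he ▸ hgm l' h5)
      · omega
  · intro p hp
    obtain ⟨n, hn1, hn2⟩ := hadm p hp
    refine ⟨n, fun l hl hd => ?_⟩
    rcases Nat.lt_or_ge l r with h4 | h4
    · exact hn2 _ (hgm l h4) hd
    · have h6 : l = r := by omega
      beta_reduce at hd
      rw [h6, hgr] at hd
      apply hn1
      simpa using hd
  · intro l hl
    exact hgm l hl
  · intro f hf
    obtain ⟨i, hi⟩ := e.surjective ⟨f, hf⟩
    refine ⟨i, i.2, ?_⟩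
    beta_reduce
    rw [hgl i i.2]
    have h7 : (e ⟨(i : ℕ), i.2⟩ : F) = ⟨f, hf⟩ := hi
    rw [h7]
    exact ⟨rfl, rfl⟩

open Classical in
/-- finite sets of forms -/
theorem forms_gen (m r : ℕ) : ∃ δ : ℝ, 0 < δ ∧ ∃ κ H : ℕ, ∀ k C : ℕ, ∀ A : ℝ, ∃ B : ℕ, ∀ᶠ x : ℝ in atTop,
    ∀ (F : Finset (ℕ × ℤ)) (L : ℕ), #F = r → ((1, 0) : ℕ × ℤ) ∉ F → (∀ f ∈ F, 1 ≤ f.1) →
      (∀ p : ℕ, p.Prime → ∃ n : ℤ, ¬ (p : ℤ) ∣ n ∧ ∀ f ∈ F, ¬ (p : ℤ) ∣ f.1 * n + f.2) →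
      (∀ f ∈ F, (f.1 : ℝ) ≤ x ^ A ∧ |(f.2 : ℝ)| ≤ x ^ A) →
      (L : ℝ) ≤ Real.log x / Real.log (Real.log x) ^ 2 → (L ≤ C ∨ ∀ f ∈ F, f.1 = 1 → f.2 ≤ C ∨ (L : ℤ) < f.2) →
      x / Real.log x ^ κ ≤ (#((Icc 1 ⌊x⌋₊).filter (fun n => ∃ d : ℕ, 1 ≤ d ∧ (d : ℝ) ≤ Real.log x ^ B ∧
        ∀ j < k, n + j * d ≤ ⌊x⌋₊ ∧ (m ≤ #((Ioc (n + j * d) (n + j * d + H)).filter Nat.Prime) ∧
          ∀ p ∈ Ioc (n + j * d) (n + j * d + L), p.Prime → p ≤ n + j * d + H ∧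
            ∀ f ∈ F, ∀ q : ℕ, q.Prime → (q : ℤ) ∣ f.1 * (p : ℤ) + f.2 → x ^ δ < q) ∧
          ∀ t ∈ Icc 1 L, ((n + j * d + t).Prime ↔ (n + t).Prime))) : ℝ) := by
  obtain ⟨δ, hδ, κ, H, h⟩ := topS m r
  refine ⟨δ, hδ, κ, H, fun k C A => ?_⟩
  obtain ⟨B, hB⟩ := h k C (max A 0)
  refine ⟨B, ?_⟩
  filter_upwards [hB, eventually_ge_atTop 1] with x h1 h2
  intro F L hF h10 hF1 hadm hsz hL hLC
  obtain ⟨a, b, S, hab, hba⟩ := exists_enum F hF h10 hF1 hadm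
  have hxA : (1:ℝ) ≤ x ^ (max A 0) := Real.one_le_rpow h2 (le_max_right _ _)
  have hmax : x ^ A ≤ x ^ (max A 0) := Real.rpow_le_rpow_of_exponent_le h2 (le_max_left _ _)
  have k1 := h1 a b L S
    (by
      intro l hl
      rcases Nat.lt_or_ge l r with h4 | h4
      · exact (hsz _ (hab l h4)).1.trans hmax
      · have h6 : l = r := by omega
        rw [h6, S.ar]
        push_cast
        exact hxA)
    (by
      intro l hl
      rcases Nat.lt_or_ge l r with h4 | h4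
      · exact (hsz _ (hab l h4)).2.trans hmax
      · have h6 : l = r := by omega
        rw [h6, S.br]
        push_cast
        rw [abs_zero]
        linarith) hL
    (by
      rcases hLC with hLC | hLC
      · exact Or.inl hLC
      · right
        intro l hl hl1
        exact hLC _ (hab l hl) hl1)
  refine k1.trans ?_
  have : (#((Icc 1 ⌊x⌋₊).filter (fun n => Prg m r a b H L (x ^ δ) k ⌊x⌋₊ (Real.log x ^ B) n))) ≤
      (#((Icc 1 ⌊x⌋₊).filter (fun n => ∃ d : ℕ, 1 ≤ d ∧ (d : ℝ) ≤ Real.log x ^ B ∧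
        ∀ j < k, n + j * d ≤ ⌊x⌋₊ ∧ (m ≤ #((Ioc (n + j * d) (n + j * d + H)).filter Nat.Prime) ∧
          ∀ p ∈ Ioc (n + j * d) (n + j * d + L), p.Prime → p ≤ n + j * d + H ∧
            ∀ f ∈ F, ∀ q : ℕ, q.Prime → (q : ℤ) ∣ f.1 * (p : ℤ) + f.2 → x ^ δ < q) ∧
          ∀ t ∈ Icc 1 L, ((n + j * d + t).Prime ↔ (n + t).Prime)))) := by
    apply card_le_card
    intro n hn
    rw [mem_filter] at hn ⊢
    obtain ⟨hn1, d, hd1, hd2, hd3⟩ := hn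
    refine ⟨hn1, d, hd1, hd2, fun j hj => ?_⟩
    obtain ⟨h4, h5, h6⟩ := hd3 j hj
    refine ⟨h4, ⟨h5.1, fun p hp hpp => ⟨(h5.2 p hp hpp).1, fun f hf q hq hqd => ?_⟩⟩, h6⟩
    obtain ⟨l, hl, e1, e2⟩ := hba f hf
    refine (h5.2 p hp hpp).2 l hl q hq ?_
    rw [e1, e2]
    exact hqd
  exact_mod_cast this

end Pool.Agent.Y848.UG
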