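import Pool.Agent.H387R2.MB10

set_option autoImplicit false

/-! # The prime factors of a number of polynomial size form a good excluded set -/

open Finset Filter Topology

namespace Pool.Agent.Y848.UG

open Pool.Agent.H378R2 Pool.Agent.H387R2.MB
open Pool.Agent.H387R2 (Uni.WW Uni.WW_pos)

lemma two_pow_omega {M : ℕ} (hM : M ≠ 0) : 2 ^ M.primeFactors.card ≤ M := by
  calc 2 ^ M.primeFactors.card ≤ ∏ p ∈ M.primeFactors, p := by
        rw [← prod_const]
        exact Finset.prod_le_prod' fun p hp => (Nat.prime_of_mem_primeFactors hp).two_le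
    _ ≤ M := Nat.le_of_dvd (Nat.pos_of_ne_zero hM) (Nat.prod_primeFactors_dvd M)

lemma omega_le_log {M : ℕ} (hM : M ≠ 0) : (M.primeFactors.card : ℝ) ≤ 2 * Real.log M := by
  have h1 : ((2:ℝ) ^ M.primeFactors.card) ≤ M := by exact_mod_cast two_pow_omega hM
  have h2 := Real.log_le_log (by positivity) h1
  rw [Real.log_pow] at h2
  have h3 := Real.log_two_gt_d9
  have h4 : (0:ℝ) ≤ M.primeFactors.card := Nat.cast_nonneg _
  nlinarith

lemma log_le_two_sqrt {x : ℝ} (hx : 0 < x) : Real.log x ≤ 2 * Real.sqrt x := by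
  have h1 : Real.log (Real.sqrt x) ≤ Real.sqrt x - 1 := Real.log_le_sub_one_of_pos (Real.sqrt_pos.2 hx)
  rw [Real.log_sqrt hx.le] at h1
  linarith

theorem gs_pf2 : ∃ C : ℝ, ∀ (z Y : ℕ), z ≤ Y → ∀ (A : ℝ), ∀ᶠ X : ℝ in atTop, ∀ N : ℕ, 0 < N → (N : ℝ) ≤ X ^ A →
    GS X z (Uni.WW Y * N).primeFactors ∧
      ∑ p ∈ (Uni.WW Y * N).primeFactors, (1 : ℝ) / p ≤ Real.log (5 * Real.log (Real.log X)) + C := by
  obtain ⟨C1, hC1⟩ := Pool.Agent.Erdos456.Mert.mertens_log
  obtain ⟨C2, hC2⟩ := Pool.Agent.Erdos456.Mert.mertens_inv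
  refine ⟨|C2| + 1, fun z Y hzY A => ?_⟩
  set l : ℝ → ℝ := fun X => Real.log X with hl
  have hlt : Tendsto l atTop atTop := Real.tendsto_log_atTop
  have hllt : Tendsto (fun X => Real.log (l X)) atTop atTop := Real.tendsto_log_atTop.comp hlt
  have hlllt : Tendsto (fun X => Real.log (Real.log (l X))) atTop atTop := Real.tendsto_log_atTop.comp hllt
  -- auxiliary growth facts
  have g1 : ∀ᶠ X : ℝ in atTop, 5 * Real.log (l X) + |C1| + 2 ≤ (LL X) ^ (1 / 4 : ℝ) / 2 := by
    have e1 : (fun L : ℝ => Real.log L) =o[atTop] (fun L : ℝ => L ^ (1 / 4 : ℝ)) := isLittleO_log_rpow_atTop (by norm_num)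
    have e2 := LL_tendsto.eventually (e1.def (by norm_num : (0:ℝ) < 1 / 20))
    have e3 : Tendsto (fun X : ℝ => (LL X) ^ (1 / 4 : ℝ)) atTop atTop :=
      (tendsto_rpow_atTop (by norm_num)).comp LL_tendsto
    filter_upwards [e2, e3.eventually_ge_atTop (4 * (5 * Real.log 200 + |C1| + 2)), LL_tendsto.eventually_ge_atTop 1] with X h2 h3 h4
    rw [Real.norm_of_nonneg (Real.log_nonneg h4), Real.norm_of_nonneg (Real.rpow_nonneg (by linarith) _)] at h2
    have h5 : Real.log (l X) = Real.log (LL X) + Real.log 200 := by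
      have : l X = LL X * 200 := by simp only [hl]; unfold LL; ring
      rw [this, Real.log_mul (by linarith) (by norm_num)]
    rw [h5]
    linarith
  have g2 : ∀ᶠ X : ℝ in atTop, Real.log (5 * Real.log (l X)) + |C2| + 2 ≤ Real.log (LL X) / 64 := by
    have e1 : (fun L : ℝ => Real.log L) =o[atTop] (fun L : ℝ => L) := Real.isLittleO_log_id_atTop
    have e2 := hllt.eventually (e1.def (by norm_num : (0:ℝ) < 1 / 200))
    filter_upwards [e2, hllt.eventually_ge_atTop (1000 * (Real.log 5 + |C2| + 2 + Real.log 200)), hllt.eventually_ge_atTop 1,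
      hlt.eventually_ge_atTop 1] with X h2 h3 h4 h1
    rw [Real.norm_of_nonneg (Real.log_nonneg h4), Real.norm_of_nonneg (by linarith)] at h2
    have h5 : Real.log (LL X) = Real.log (l X) - Real.log 200 := by
      unfold LL
      rw [Real.log_div (by simp only [hl] at h1; linarith) (by norm_num)]
    rw [h5, Real.log_mul (by norm_num) (by linarith)]
    have h200 : 0 ≤ Real.log 200 := Real.log_nonneg (by norm_num)
    have h5' : 0 ≤ Real.log 5 := Real.log_nonneg (by norm_num)
    have hc2 := abs_nonneg C2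
    linarith
  filter_upwards [g1, g2, hlt.eventually_ge_atTop 3, hlt.eventually_ge_atTop (4 * (1 + |A|)),
    eventually_ge_atTop (Uni.WW Y : ℝ), eventually_gt_atTop 1] with X h1 h2 h3 h4 h5 h6
  intro N hN hNX
  set L : ℝ := l X with hLdef
  have hL0 : 0 < L := by linarith
  have hlogL : 0 < Real.log L := Real.log_pos (by linarith)
  have hW0 : 0 < Uni.WW Y := Uni.WW_pos Y
  have hM0 : Uni.WW Y * N ≠ 0 := (Nat.mul_pos hW0 hN).ne'
  set M : ℕ := Uni.WW Y * N with hM
  have hNr : (0:ℝ) < N := by exact_mod_cast hN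
  have hlogM : Real.log M ≤ (1 + |A|) * L := by
    have e1 : Real.log M = Real.log (Uni.WW Y) + Real.log N := by
      rw [hM]; push_cast
      rw [Real.log_mul (by exact_mod_cast hW0.ne') hNr.ne']
    have e2 : Real.log (Uni.WW Y) ≤ L := Real.log_le_log (by exact_mod_cast hW0) h5
    have e3 : Real.log N ≤ |A| * L := by
      have h7 := Real.log_le_log hNr hNX
      rw [Real.log_rpow (by linarith)] at h7
      exact h7.trans (mul_le_mul_of_nonneg_right (le_abs_self A) hL0.le)
    rw [e1]; linarith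
  have hω : (M.primeFactors.card : ℝ) ≤ 2 * (1 + |A|) * L := by
    have := omega_le_log hM0
    linarith
  have hωL : (M.primeFactors.card : ℝ) ≤ L ^ 2 / 2 := by
    refine hω.trans ?_
    nlinarith
  set T : ℕ := ⌈L ^ 4⌉₊ with hT
  have hT1 : L ^ 4 ≤ T := Nat.le_ceil _
  have hL4 : (81:ℝ) ≤ L ^ 4 := by
    calc (81:ℝ) = 3 ^ 4 := by norm_num
      _ ≤ L ^ 4 := pow_le_pow_left₀ (by norm_num) h3 4
  have hT2 : (T : ℝ) ≤ L ^ 5 := by
    have := Nat.ceil_lt_add_one (by positivity : (0:ℝ) ≤ L ^ 4)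
    have h7 : L ^ 5 = L ^ 4 * L := by ring
    rw [h7]
    nlinarith
  have hT3 : 3 ≤ T := by
    have : (3:ℝ) ≤ T := by linarith
    exact_mod_cast this
  have hTr : (0:ℝ) < T := by linarith
  have hlogT : Real.log T ≤ 5 * Real.log L := by
    have h7 := Real.log_le_log hTr hT2
    rw [Real.log_pow] at h7
    push_cast at h7
    exact h7
  have hlogT1 : 1 ≤ Real.log T := by
    rw [Real.le_log_iff_exp_le hTr]
    have := Real.exp_one_lt_d9
    linarith
  -- splitting
  have hsplit : ∀ g : ℕ → ℝ, (∀ p, 0 ≤ g p) → ∑ p ∈ M.primeFactors, g p ≤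
      ∑ p ∈ (Icc 1 T).filter Nat.Prime, g p + ∑ p ∈ M.primeFactors.filter (fun p => ¬ p ≤ T), g p := by
    intro g hg
    rw [← sum_filter_add_sum_filter_not M.primeFactors (fun p => p ≤ T) g]
    have : ∑ p ∈ M.primeFactors.filter (fun p => p ≤ T), g p ≤ ∑ p ∈ (Icc 1 T).filter Nat.Prime, g p := by
      apply sum_le_sum_of_subset_of_nonneg
      · intro p hp
        rw [mem_filter] at hp
        have hpp := Nat.prime_of_mem_primeFactors hp.1
        rw [mem_filter, mem_Icc]
        exact ⟨⟨hpp.one_lt.le, hp.2⟩, hpp⟩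
      · intro p _ _; exact hg p
    linarith
  have hcard : ((M.primeFactors.filter (fun p => ¬ p ≤ T)).card : ℝ) ≤ L ^ 2 / 2 := by
    refine le_trans ?_ hωL
    exact_mod_cast card_filter_le _ _
  have hsum2 : ∑ p ∈ M.primeFactors, (1 : ℝ) / p ≤ Real.log (5 * Real.log L) + (|C2| + 1) := by
    refine (hsplit (fun p => 1 / (p : ℝ)) (fun p => by positivity)).trans ?_
    have e1 := (abs_le.1 (hC2 T hT3)).2
    have e2 : ∑ p ∈ (Icc 1 T).filter Nat.Prime, (1 : ℝ) / p ≤ Real.log (Real.log T) + |C2| := by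
      have h7 := le_abs_self C2
      linarith
    have e2' : Real.log (Real.log T) ≤ Real.log (5 * Real.log L) := Real.log_le_log (by linarith) hlogT
    have e3 : ∑ p ∈ M.primeFactors.filter (fun p => ¬ p ≤ T), (1:ℝ) / p ≤
        (M.primeFactors.filter (fun p => ¬ p ≤ T)).card • (1 / L ^ 4) := by
      apply sum_le_card_nsmul
      intro p hp
      rw [mem_filter, not_le] at hp
      have hpT : (T : ℝ) < p := by exact_mod_cast hp.2
      apply one_div_le_one_div_of_le (by positivity)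
      linarith
    rw [nsmul_eq_mul] at e3
    have e4 : ((M.primeFactors.filter (fun p => ¬ p ≤ T)).card : ℝ) * (1 / L ^ 4) ≤ 1 := by
      calc ((M.primeFactors.filter (fun p => ¬ p ≤ T)).card : ℝ) * (1 / L ^ 4) ≤ L ^ 2 / 2 * (1 / L ^ 4) := by
            gcongr
        _ = 1 / (2 * L ^ 2) := by field_simp
        _ ≤ 1 := by
            rw [div_le_one (by positivity)]
            nlinarith
    linarith
  refine ⟨⟨fun p hp => Nat.prime_of_mem_primeFactors hp, fun p hp hpz => ?_, ?_, ?_⟩, hsum2⟩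
  · rw [Nat.mem_primeFactors]
    exact ⟨hp, ((dvd_WW hp).2 (hpz.trans hzY)).mul_right N, hM0⟩
  · refine (hsplit (fun p => Real.log p / p) (fun p => div_nonneg (Real.log_natCast_nonneg p) (Nat.cast_nonneg p))).trans ?_
    have e1 := (abs_le.1 (hC1 T (by omega))).2
    have e2 : ∑ p ∈ (Icc 1 T).filter Nat.Prime, Real.log p / p ≤ Real.log T + |C1| := by
      have h7 := le_abs_self C1
      have h8 : ∑ p ∈ (Icc 1 T).filter Nat.Prime, Real.log p / p = ∑ p ∈ Pool.Agent.Erdos456.Mert.PP T, Real.log p / p := rfl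
      rw [h8]
      linarith
    have e3 : ∑ p ∈ M.primeFactors.filter (fun p => ¬ p ≤ T), Real.log p / p ≤
        (M.primeFactors.filter (fun p => ¬ p ≤ T)).card • (2 / L ^ 2) := by
      apply sum_le_card_nsmul
      intro p hp
      rw [mem_filter, not_le] at hp
      have hpT : (T : ℝ) < p := by exact_mod_cast hp.2
      have hp0 : (0:ℝ) < p := by linarith
      have hL2 : L ^ 2 ≤ Real.sqrt p := by
        rw [Real.le_sqrt (by positivity) hp0.le]
        calc (L ^ 2) ^ 2 = L ^ 4 := by ring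
          _ ≤ (p : ℝ) := by linarith
      have h7 := log_le_two_sqrt hp0
      have hsq : 0 < Real.sqrt p := Real.sqrt_pos.2 hp0
      calc Real.log p / p ≤ 2 * Real.sqrt p / p := by gcongr
        _ = 2 / Real.sqrt p := by
            rw [div_eq_div_iff hp0.ne' hsq.ne']
            rw [mul_assoc, Real.mul_self_sqrt hp0.le]
        _ ≤ 2 / L ^ 2 := by gcongr
    rw [nsmul_eq_mul] at e3
    have e4 : ((M.primeFactors.filter (fun p => ¬ p ≤ T)).card : ℝ) * (2 / L ^ 2) ≤ 1 := by
      calc ((M.primeFactors.filter (fun p => ¬ p ≤ T)).card : ℝ) * (2 / L ^ 2) ≤ L ^ 2 / 2 * (2 / L ^ 2) := by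
            gcongr
        _ = 1 := by field_simp
    linarith
  · linarith

theorem gs_pf (z Y : ℕ) (hzY : z ≤ Y) (A : ℝ) : ∀ᶠ X : ℝ in atTop, ∀ N : ℕ, 0 < N → (N : ℝ) ≤ X ^ A →
    GS X z (Uni.WW Y * N).primeFactors := by
  obtain ⟨C, hC⟩ := gs_pf2
  filter_upwards [hC z Y hzY A] with X h N hN hNX
  exact (h N hN hNX).1

end Pool.Agent.Y848.UG
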