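import Pool.Agent.Y848.UG.Top

set_option autoImplicit false

/-! # Goldbach: isolated clusters of primes `p` with `N - p` free of small prime factors -/

open Finset Filter Topology

namespace Pool.Agent.Y848.UG

open Classical in
theorem top_goldbach (m : ℕ) : ∃ δ : ℝ, 0 < δ ∧ ∃ κ H : ℕ, ∀ A : ℝ, ∀ᶠ x : ℝ in atTop,
    ∀ N : ℕ, Even N → 2 * x ≤ N → (N : ℝ) ≤ x ^ A →
      x / Real.log x ^ κ ≤ (#((Icc 1 ⌊x⌋₊).filter (fun n =>
        m ≤ #((Ioc n (n + H)).filter Nat.Prime) ∧ ∀ p : ℕ, p.Prime → n < p →
          (p : ℝ) ≤ n + Real.log x / Real.log (Real.log x) ^ 2 →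
            p ≤ n + H ∧ ∀ q : ℕ, q.Prime → q ∣ N - p → x ^ δ < q)) : ℝ) := by
  obtain ⟨δ, hδ, κ, H, h⟩ := top m 1
  refine ⟨δ, hδ, κ, H, fun A => ?_⟩
  have hllog : Tendsto (fun X : ℝ => Real.log (Real.log X)) atTop atTop :=
    Real.tendsto_log_atTop.comp Real.tendsto_log_atTop
  filter_upwards [h 0 (max A 0), eventually_ge_atTop 1, Real.tendsto_log_atTop.eventually_gt_atTop 0,
    hllog.eventually_ge_atTop 1] with x h1 h3 hlog hll
  intro N hN hxN hNA
  have hx0 : 0 < x := by linarith
  obtain ⟨L, hL⟩ : ∃ L, L = ⌊Real.log x / Real.log (Real.log x) ^ 2⌋₊ := ⟨_, rfl⟩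
  have hLx : Real.log x / Real.log (Real.log x) ^ 2 < x := by
    have e1 : Real.log x / Real.log (Real.log x) ^ 2 ≤ Real.log x := by
      apply div_le_self hlog.le
      exact one_le_pow₀ hll
    have e2 := Real.log_lt_sub_one_of_pos hx0
    have e3 : Real.log x ≤ x - 1 := Real.log_le_sub_one_of_pos hx0
    linarith
  obtain ⟨b, hb0, hb1⟩ : ∃ b : ℕ → ℤ, b 0 = -(N : ℤ) ∧ b 1 = 0 :=
    ⟨fun l => if l = 0 then -(N : ℤ) else 0, by simp, by simp⟩
  have hxA : (1:ℝ) ≤ x ^ (max A 0) := Real.one_le_rpow h3 (le_max_right _ _)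
  have hNA' : (N : ℝ) ≤ x ^ (max A 0) := hNA.trans (Real.rpow_le_rpow_of_exponent_le h3 (le_max_left _ _))
  have hNpos : (0:ℝ) < N := by linarith
  have hNne : N ≠ 0 := by
    rintro rfl
    simp at hNpos
  have hS : Sys 1 (fun _ => 1) b := by
    refine ⟨rfl, hb1, fun l _ => le_rfl, ?_, ?_⟩
    · rintro l hl l' hl' hne ⟨-, he⟩
      have : (l = 0 ∧ l' = 1) ∨ (l = 1 ∧ l' = 0) := by omega
      rcases this with ⟨rfl, rfl⟩ | ⟨rfl, rfl⟩
      · rw [hb0, hb1] at he
        omega
      · rw [hb0, hb1] at he
        omega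
    · intro p hp
      by_cases hp2 : p = 2
      · refine ⟨1, fun l hl hd => ?_⟩
        rw [hp2] at hd
        obtain ⟨w, hw⟩ := hN
        interval_cases l
        · rw [hb0, hw] at hd
          push_cast at hd
          omega
        · rw [hb1] at hd
          push_cast at hd
      · have hp3 : 3 ≤ p := by
          have := hp.two_le
          omega
        by_cases h1N : (p : ℤ) ∣ 1 - N
        · refine ⟨-1, fun l hl hd => ?_⟩
          interval_cases l
          · rw [hb0] at hd
            push_cast at hd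
            have h5 := dvd_sub h1N hd
            have e : (1 : ℤ) - N - (-1 + -N) = 2 := by ring
            rw [e] at h5
            have := Int.le_of_dvd (by norm_num) h5
            omega
          · rw [hb1] at hd
            push_cast at hd
            have h5 : (p : ℤ) ∣ 1 := by
              have := hd.neg_right
              simpa using this
            have := Int.le_of_dvd (by norm_num) h5
            omega
        · refine ⟨1, fun l hl hd => ?_⟩
          interval_cases l
          · rw [hb0] at hd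
            apply h1N
            push_cast at hd
            have e : (1 : ℤ) - N = 1 + -N := by ring
            rwa [e]
          · rw [hb1] at hd
            push_cast at hd
            have h5 : (p : ℤ) ∣ 1 := by simpa using hd
            have := Int.le_of_dvd (by norm_num) h5
            omega
  have hLle : (L : ℝ) ≤ Real.log x / Real.log (Real.log x) ^ 2 := by
    rw [hL]
    exact Nat.floor_le (div_nonneg hlog.le (by positivity))
  have k1 := h1 (fun _ => 1) b L hS (fun _ _ => by push_cast; exact hxA)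
    (by
      intro l hl
      interval_cases l
      · rw [hb0]
        push_cast
        rw [abs_neg, Nat.abs_cast]
        exact hNA'
      · rw [hb1]
        push_cast
        rw [abs_zero]
        linarith) hLle
    (Or.inr (by
      intro l hl _
      left
      have : l = 0 := by omega
      rw [this, hb0]
      push_cast
      have : (0 : ℤ) ≤ N := by positivity
      linarith))
  refine k1.trans ?_
  have : (#((Icc 1 ⌊x⌋₊).filter (fun n => GoodI m 1 (fun _ => 1) b H L (x ^ δ) n))) ≤
      (#((Icc 1 ⌊x⌋₊).filter (fun n =>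
        m ≤ #((Ioc n (n + H)).filter Nat.Prime) ∧ ∀ p : ℕ, p.Prime → n < p →
          (p : ℝ) ≤ n + Real.log x / Real.log (Real.log x) ^ 2 →
            p ≤ n + H ∧ ∀ q : ℕ, q.Prime → q ∣ N - p → x ^ δ < q))) := by
    apply card_le_card
    intro n hn
    rw [mem_filter] at hn ⊢
    refine ⟨hn.1, hn.2.1, fun p hpp hnp hpL => ?_⟩
    have hnx : (n : ℝ) ≤ x := (Nat.le_floor_iff hx0.le).1 (mem_Icc.1 hn.1).2
    have hpL' : p ≤ n + L := by
      have h5 : ((p - n : ℕ) : ℝ) ≤ Real.log x / Real.log (Real.log x) ^ 2 := by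
        rw [Nat.cast_sub hnp.le]
        linarith
      have := Nat.le_floor h5
      omega
    have h5 := hn.2.2 p (mem_Ioc.2 ⟨hnp, hpL'⟩) hpp
    refine ⟨h5.1, fun q hq hqd => h5.2 0 one_pos q hq ?_⟩
    have hpN : p ≤ N := by
      have : (p : ℝ) ≤ N := by linarith
      exact_mod_cast this
    rw [hb0]
    have h6 : (q : ℤ) ∣ ((N - p : ℕ) : ℤ) := Int.natCast_dvd_natCast.2 hqd
    rw [Nat.cast_sub hpN] at h6
    have e : ((1 : ℕ) : ℤ) * (p : ℤ) + -(N : ℤ) = -((N : ℤ) - p) := by push_cast; ring
    rw [e]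
    exact h6.neg_right
  exact_mod_cast this

end Pool.Agent.Y848.UG
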