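import Pool.Agent.Y848.UG.TopS

set_option autoImplicit false

/-! # Goldbach: progressions of windows of primes `p` with `N - p` free of small prime factors -/

open Finset Filter Topology

namespace Pool.Agent.Y848.UG

/-- the constants for Goldbach -/
def gb (N : ℕ) (l : ℕ) : ℤ := if l = 0 then -(N : ℤ) else 0

lemma sys_gold {N : ℕ} (hN : Even N) (hN0 : N ≠ 0) : Sys 1 (fun _ => 1) (gb N) := by
  have hb0 : gb N 0 = -(N : ℤ) := rfl
  have hb1 : gb N 1 = 0 := rfl
  refine ⟨rfl, rfl, fun l _ => le_rfl, ?_, ?_⟩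
  · rintro l hl l' hl' hne ⟨-, he⟩
    have : (l = 0 ∧ l' = 1) ∨ (l = 1 ∧ l' = 0) := by omega
    rcases this with ⟨rfl, rfl⟩ | ⟨rfl, rfl⟩
    · rw [hb0, hb1] at he
      omega
    · rw [hb0, hb1] at he
      omega
  · intro p hp
    by_cases hp2 : p = 2
    · refine ⟨1, fun l hl hd => ?_⟩
      rw [hp2] at hd
      obtain ⟨w, hw⟩ := hN
      interval_cases l
      · rw [hb0, hw] at hd
        push_cast at hd
        omega
      · rw [hb1] at hd
        push_cast at hd
    · have hp3 : 3 ≤ p := by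
        have := hp.two_le
        omega
      by_cases h1N : (p : ℤ) ∣ 1 - N
      · refine ⟨-1, fun l hl hd => ?_⟩
        interval_cases l
        · rw [hb0] at hd
          push_cast at hd
          have h5 := dvd_sub h1N hd
          have e : (1 : ℤ) - N - (-1 + -N) = 2 := by ring
          rw [e] at h5
          have := Int.le_of_dvd (by norm_num) h5
          omega
        · rw [hb1] at hd
          push_cast at hd
          have h5 : (p : ℤ) ∣ 1 := by
            have := hd.neg_right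
            simpa using this
          have := Int.le_of_dvd (by norm_num) h5
          omega
      · refine ⟨1, fun l hl hd => ?_⟩
        interval_cases l
        · rw [hb0] at hd
          apply h1N
          push_cast at hd
          have e : (1 : ℤ) - N = 1 + -N := by ring
          rwa [e]
        · rw [hb1] at hd
          push_cast at hd
          have h5 : (p : ℤ) ∣ 1 := by simpa using hd
          have := Int.le_of_dvd (by norm_num) h5
          omega

/-- the window after `n` -/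
def WinG (m H : ℕ) (δ x : ℝ) (N n : ℕ) : Prop :=
  m ≤ #((Ioc n (n + H)).filter Nat.Prime) ∧ ∀ p : ℕ, p.Prime → n < p →
    (p : ℝ) ≤ n + Real.log x / Real.log (Real.log x) ^ 2 →
      p ≤ n + H ∧ ∀ q : ℕ, q.Prime → q ∣ N - p → x ^ δ < q

open Classical in
theorem gold_prog (m : ℕ) : ∃ δ : ℝ, 0 < δ ∧ ∃ κ H : ℕ, ∀ (k : ℕ) (A : ℝ), ∃ B : ℕ, ∀ᶠ x : ℝ in atTop,
    ∀ N : ℕ, Even N → 2 * x ≤ N → (N : ℝ) ≤ x ^ A →
      x / Real.log x ^ κ ≤ (#((Icc 1 ⌊x⌋₊).filter (fun n => ∃ d : ℕ, 1 ≤ d ∧ (d : ℝ) ≤ Real.log x ^ B ∧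
        ∀ j < k, ((n + j * d : ℕ) : ℝ) ≤ x ∧ WinG m H δ x N (n + j * d) ∧
          ∀ t : ℕ, 1 ≤ t → (t : ℝ) ≤ Real.log x / Real.log (Real.log x) ^ 2 →
            ((n + j * d + t).Prime ↔ (n + t).Prime))) : ℝ) := by
  obtain ⟨δ, hδ, κ, H, h⟩ := topS m 1
  refine ⟨δ, hδ, κ, H, fun k A => ?_⟩
  obtain ⟨B, hB⟩ := h k 0 (max A 0)
  refine ⟨B, ?_⟩
  have hllog : Tendsto (fun X : ℝ => Real.log (Real.log X)) atTop atTop :=
    Real.tendsto_log_atTop.comp Real.tendsto_log_atTop
  filter_upwards [hB, eventually_ge_atTop 1, Real.tendsto_log_atTop.eventually_gt_atTop 0,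
    hllog.eventually_ge_atTop 1] with x h1 h3 hlog hll
  intro N hN hxN hNA
  have hx0 : 0 < x := by linarith
  obtain ⟨L, hL⟩ : ∃ L, L = ⌊Real.log x / Real.log (Real.log x) ^ 2⌋₊ := ⟨_, rfl⟩
  have hLx : Real.log x / Real.log (Real.log x) ^ 2 < x := by
    have e1 : Real.log x / Real.log (Real.log x) ^ 2 ≤ Real.log x := by
      apply div_le_self hlog.le
      exact one_le_pow₀ hll
    have e3 : Real.log x ≤ x - 1 := Real.log_le_sub_one_of_pos hx0
    linarith
  have hb0 : gb N 0 = -(N : ℤ) := rfl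
  have hb1 : gb N 1 = 0 := rfl
  have hxA : (1:ℝ) ≤ x ^ (max A 0) := Real.one_le_rpow h3 (le_max_right _ _)
  have hNA' : (N : ℝ) ≤ x ^ (max A 0) := hNA.trans (Real.rpow_le_rpow_of_exponent_le h3 (le_max_left _ _))
  have hNpos : (0:ℝ) < N := by linarith
  have hNne : N ≠ 0 := by
    rintro rfl
    simp at hNpos
  have hLle : (L : ℝ) ≤ Real.log x / Real.log (Real.log x) ^ 2 := by
    rw [hL]
    exact Nat.floor_le (div_nonneg hlog.le (by positivity))
  have k1 := h1 (fun _ => 1) (gb N) L (sys_gold hN hNne) (fun _ _ => by push_cast; exact hxA)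
    (by
      intro l hl
      interval_cases l
      · rw [hb0]
        push_cast
        rw [abs_neg, Nat.abs_cast]
        exact hNA'
      · rw [hb1]
        push_cast
        rw [abs_zero]
        linarith) hLle
    (Or.inr (by
      intro l hl _
      left
      have : l = 0 := by omega
      rw [this, hb0]
      push_cast
      have : (0 : ℤ) ≤ N := by positivity
      linarith))
  refine k1.trans ?_
  have : (#((Icc 1 ⌊x⌋₊).filter (fun n => Prg m 1 (fun _ => 1) (gb N) H L (x ^ δ) k ⌊x⌋₊ (Real.log x ^ B) n))) ≤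
      (#((Icc 1 ⌊x⌋₊).filter (fun n => ∃ d : ℕ, 1 ≤ d ∧ (d : ℝ) ≤ Real.log x ^ B ∧
        ∀ j < k, ((n + j * d : ℕ) : ℝ) ≤ x ∧ WinG m H δ x N (n + j * d) ∧
          ∀ t : ℕ, 1 ≤ t → (t : ℝ) ≤ Real.log x / Real.log (Real.log x) ^ 2 →
            ((n + j * d + t).Prime ↔ (n + t).Prime)))) := by
    apply card_le_card
    intro n hn
    rw [mem_filter] at hn ⊢
    obtain ⟨hn1, d, hd1, hd2, hd3⟩ := hn
    refine ⟨hn1, d, hd1, hd2, fun j hj => ?_⟩
    obtain ⟨h4, h5, h6⟩ := hd3 j hj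
    have hnx : ((n + j * d : ℕ) : ℝ) ≤ x := (Nat.le_floor_iff hx0.le).1 h4
    refine ⟨hnx, ⟨h5.1, fun p hpp hnp hpL => ?_⟩, fun t ht1 ht2 => h6 t (mem_Icc.2 ⟨ht1, ?_⟩)⟩
    · have hpL' : p ≤ n + j * d + L := by
        have h7 : ((p - (n + j * d) : ℕ) : ℝ) ≤ Real.log x / Real.log (Real.log x) ^ 2 := by
          rw [Nat.cast_sub hnp.le]
          linarith
        have := Nat.le_floor h7
        omega
      have h7 := h5.2 p (mem_Ioc.2 ⟨hnp, hpL'⟩) hpp
      refine ⟨h7.1, fun q hq hqd => h7.2 0 one_pos q hq ?_⟩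
      have hpN : p ≤ N := by
        have : (p : ℝ) ≤ N := by linarith
        exact_mod_cast this
      rw [hb0]
      have h8 : (q : ℤ) ∣ ((N - p : ℕ) : ℤ) := Int.natCast_dvd_natCast.2 hqd
      rw [Nat.cast_sub hpN] at h8
      have e : ((1 : ℕ) : ℤ) * (p : ℤ) + -(N : ℤ) = -((N : ℤ) - p) := by push_cast; ring
      rw [e]
      exact h8.neg_right
    · rw [hL]
      exact Nat.le_floor ht2
  exact_mod_cast this

end Pool.Agent.Y848.UG
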