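import Pool.Agent.Y848.UG.Base
import Pool.Agent.H387R2.MB6

set_option autoImplicit false

/-! # The prime sum for one form -/

open Finset Filter Topology
open scoped ContDiff

namespace Pool.Agent.Y848.UG

open Pool.Agent.H378R2 Pool.Agent.H387R2.MB

/-- the sum over primes with general linear forms -/
theorem sum2c {J : ℕ} (X : ℝ) (W P b : ℕ) (hW : 0 < W) (hbW : b.Coprime W) (F G : Fin J → ℝ → ℝ)
    (L Cf : ℝ) (hL : 0 < L) (hCf : 0 ≤ Cf) (cF cG : Fin J → ℝ)
    (hF : ∀ j x, |F j x| ≤ Cf) (hG : ∀ j x, |G j x| ≤ Cf)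
    (hF0 : ∀ j x, cF j < x → F j x = 0) (hG0 : ∀ j x, cG j < x → G j x = 0)
    (E : Fin J → Finset ℕ) (R : ℕ) (c : Fin J → ℕ) (h : Fin J → ℤ)
    (hEW : ∀ j, ∀ p : ℕ, p.Prime → p ∉ E j → ¬ p ∣ W) (hEP : ∀ j, ∀ p : ℕ, p.Prime → p ∉ E j → ¬ p ∣ P)
    (hEc : ∀ j, ∀ p : ℕ, p.Prime → p ∉ E j → ¬ p ∣ c j)
    (hEh : ∀ j, ∀ p : ℕ, p.Prime → p ∉ E j → ¬ (p : ℤ) ∣ h j)
    (hres : ∀ i j, i ≠ j → ∀ p : ℕ, p.Prime → p ∉ E i → p ∉ E j → ∀ n : ℕ,
      ¬ ((p : ℤ) ∣ c i * n + h i ∧ (p : ℤ) ∣ c j * n + h j))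
    (B : ℕ → ℕ) (hB : ∀ q, 1 ≤ q → ∀ b' : ℕ, b'.Coprime (W * q) → |EPhi X (W * q) b'| ≤ |EPhi X (W * q) (B q)|) :
    |∑ n ∈ Icc 1 ⌊3 * X⌋₊, (if n ≡ b [MOD W] then Phi (n / X) * ArithmeticFunction.vonMangoldt n else 0) *
        ∏ j, (VVm (E j) R L (F j) (c j * (n : ℤ) + h j) * VVm (E j) R L (G j) (c j * (n : ℤ) + h j)) -
      (LPhi X * (1 / W.totient)) * sieveSum J F G L E (fun p _ => 1 / ((p : ℝ) - 1)) R| ≤
    Cf ^ (2 * J) * ∑ q ∈ (Icc 1 ⌊Real.exp (L * (∑ j, cF j + ∑ j, cG j))⌋₊).filter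
      (fun q => Squarefree q ∧ q.Coprime P), (q.divisors.card : ℝ) ^ (2 * J) * |EPhi X (W * q) (B q)| := by
  classical
  refine (expand_le E R L F G ⌊3 * X⌋₊ (fun n => if n ≡ b [MOD W] then Phi (n / X) * ArithmeticFunction.vonMangoldt n else 0)
    (fun n j => c j * (n : ℤ) + h j) (LPhi X * (1 / W.totient)) (fun p _ => 1 / ((p : ℝ) - 1))).trans ?_
  refine (support_bound E R L Cf hL hCf F G cF cG hF hG hF0 hG0 _ (fun _ _ => abs_nonneg _)).trans ?_
  apply mul_le_mul_of_nonneg_left _ (by positivity)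
  refine fiber_bound (supp E R L cF) (supp E R L cG) _ PC (fun q => |EPhi X (W * q) (B q)|)
    (fun _ => abs_nonneg _) ?_ ?_ _ ?_ ?_
  · intro q hq
    rw [Finset.mem_filter, Finset.mem_Icc] at hq
    omega
  · intro d hd e he hPC
    have hdp := supp_prod_le hd
    have hep := supp_prod_le he
    rw [mem_supp] at hd he
    have hd0 : ∀ j, d j ≠ 0 := fun j => by have := (mem_adm.1 (hd j).1).1.1; omega
    have he0 : ∀ j, e j ≠ 0 := fun j => by have := (mem_adm.1 (he j).1).1.1; omega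
    have hprodpos : 0 < ∏ j, Nat.lcm (d j) (e j) :=
      Finset.prod_pos fun j _ => Nat.pos_of_ne_zero (Nat.lcm_ne_zero (hd0 j) (he0 j))
    rw [Finset.mem_filter, Finset.mem_Icc]
    refine ⟨⟨hprodpos, Nat.le_floor ?_⟩, ?_, ?_⟩
    · have h1 : ∏ j, Nat.lcm (d j) (e j) ≤ (∏ j, d j) * ∏ j, e j := by
        rw [← Finset.prod_mul_distrib]
        exact Finset.prod_le_prod' fun j _ => lcm_le_mul' (Nat.pos_of_ne_zero (hd0 j)) (Nat.pos_of_ne_zero (he0 j))
      calc ((∏ j, Nat.lcm (d j) (e j) : ℕ) : ℝ) ≤ (((∏ j, d j) * ∏ j, e j : ℕ) : ℝ) := by exact_mod_cast h1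
        _ = ((∏ j, d j : ℕ) : ℝ) * ((∏ j, e j : ℕ) : ℝ) := by push_cast; ring
        _ ≤ Real.exp (L * ∑ j, cF j) * Real.exp (L * ∑ j, cG j) := by
            apply mul_le_mul hdp hep (Nat.cast_nonneg _) (Real.exp_pos _).le
        _ = _ := by rw [← Real.exp_add]; ring_nf
    · exact squarefree_prod _ hPC fun j => sqf_lcm (mem_adm.1 (hd j).1).2.1 (mem_adm.1 (he j).1).2.1
    · exact Nat.Coprime.prod_left fun j _ => adm_lcm_coprime (hd j).1 (he j).1 (hEP j)
  · intro d hd e he hPC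
    rw [mem_supp] at hd he
    set D : Fin J → ℕ := fun j => Nat.lcm (d j) (e j) with hD
    have hd0 : ∀ j, d j ≠ 0 := fun j => by have := (mem_adm.1 (hd j).1).1.1; omega
    have he0 : ∀ j, e j ≠ 0 := fun j => by have := (mem_adm.1 (he j).1).1.1; omega
    have hD0 : ∀ j, D j ≠ 0 := fun j => Nat.lcm_ne_zero (hd0 j) (he0 j)
    have hDW : ∀ j, (D j).Coprime W := fun j => adm_lcm_coprime (hd j).1 (he j).1 (hEW j)
    have hDc : ∀ j, (c j).Coprime (D j) := fun j => (adm_lcm_coprime (hd j).1 (he j).1 (hEc j)).symm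
    have hDsq : ∀ j, Squarefree (D j) := fun j =>
      sqf_lcm (mem_adm.1 (hd j).1).2.1 (mem_adm.1 (he j).1).2.1
    obtain ⟨b', hb'⟩ := class_exists W b hW.ne' D c h hD0 hPC hDW hDc
    have hprodpos : 0 < ∏ j, D j := Finset.prod_pos fun j _ => Nat.pos_of_ne_zero (hD0 j)
    have hself := (hb' b').2 rfl
    have hcop : b'.Coprime (W * ∏ j, D j) := by
      rw [Nat.coprime_mul_iff_right]
      constructor
      · have h1 : b'.gcd W = b.gcd W := Nat.ModEq.gcd_eq hself.1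
        rw [Nat.coprime_iff_gcd_eq_one, h1]
        exact hbW
      · apply Nat.Coprime.prod_right
        intro j _
        by_contra hcop
        obtain ⟨p, hp, hpi, hpj⟩ := Nat.Prime.not_coprime_iff_dvd.1 hcop
        have hpE := prime_not_mem (hd j).1 (he j).1 hp hpj
        apply hEh j p hp hpE
        have h2 : (p : ℤ) ∣ c j * b' + h j := (Int.natCast_dvd_natCast.2 hpj).trans (hself.2 j)
        have h3 : (p : ℤ) ∣ c j * b' := (Int.natCast_dvd_natCast.2 hpi).mul_left _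
        exact (Int.dvd_add_right h3).1 h2
    have e1 : Err ⌊3 * X⌋₊ (fun n => if n ≡ b [MOD W] then Phi (n / X) * ArithmeticFunction.vonMangoldt n else 0)
      (fun n j => c j * (n : ℤ) + h j) (LPhi X * (1 / W.totient)) (fun p _ => 1 / ((p : ℝ) - 1)) d e =
        EPhi X (W * ∏ j, D j) b' := by
      rw [EPhi_eq]
      unfold Err
      rw [if_pos hPC]
      congr 1
      · rw [Finset.sum_filter]
        refine Finset.sum_congr rfl fun n _ => ?_
        by_cases hn : n ≡ b' [MOD (W * ∏ j, D j)]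
        · have h3 := (hb' n).2 hn
          have hDC : DC (fun j => (c j : ℤ) * (n : ℤ) + h j) d e := h3.2
          simp only [if_pos hn, if_pos hDC, if_pos h3.1]
        · rw [if_neg hn]
          by_cases hDC : DC (fun j => (c j : ℤ) * (n : ℤ) + h j) d e
          · rw [if_pos hDC]
            have hna : ¬ n ≡ b [MOD W] := fun hna => hn ((hb' n).1 ⟨hna, hDC⟩)
            simp only [if_neg hna]
          · rw [if_neg hDC]
      · rw [mul_assoc]
        congr 1
        have hcopW : W.Coprime (∏ j, D j) := Nat.Coprime.prod_right fun j _ => (hDW j).symm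
        rw [Nat.totient_mul hcopW, totient_prod D hPC]
        have : ∀ j : Fin J, ∏ p ∈ (Nat.lcm (d j) (e j)).primeFactors, (1 : ℝ) / ((p : ℝ) - 1) =
            1 / ((D j).totient : ℝ) := by
          intro j
          rw [totient_sqf (hDsq j), Finset.prod_div_distrib, Finset.prod_const_one]
        simp_rw [this]
        rw [Finset.prod_div_distrib, Finset.prod_const_one]
        push_cast
        rw [one_div_mul_one_div]
    rw [e1]
    exact hB _ hprodpos _ hcop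
  · intro d hd e he hPC
    rw [mem_supp] at hd he
    rw [not_PC_err _ _ _ _ (fun j => (hd j).1) (fun j => (he j).1) _ hPC]
    · norm_num
    · intro i j hij p hp hpi hpj n _ _
      exact hres i j hij p hp hpi hpj n

/-- the constant of the form `j` in terms of the prime `n + t` -/
def hh {K : ℕ} (cc : Fin K → ℕ) (h : Fin K → ℤ) (t : ℕ) (j : Fin K) : ℤ := h j - cc j * t

/-- the product of the remaining forms, as a function of the prime -/
noncomputable def PRG {K0 B : ℕ} (E : Fin (K0 + 1) → Finset ℕ) (X : ℝ) (f : Fin B → ℝ → ℝ) (a b : Fin (K0 + 1) → Fin B)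
    (i : Fin (K0 + 1)) (cc : Fin (K0 + 1) → ℕ) (h : Fin (K0 + 1) → ℤ) (t n : ℕ) : ℝ :=
  ∏ j : Fin K0, (VVm (E (i.succAbove j)) (RR X) (LL X) (f (a (i.succAbove j)))
      (cc (i.succAbove j) * (n : ℤ) + hh cc h t (i.succAbove j)) *
    VVm (E (i.succAbove j)) (RR X) (LL X) (f (b (i.succAbove j)))
      (cc (i.succAbove j) * (n : ℤ) + hh cc h t (i.succAbove j)))

theorem sqwG_at_prime {K0 B : ℕ} (E : Fin (K0 + 1) → Finset ℕ) (X : ℝ) (f : Fin B → ℝ → ℝ)
    (A : Finset (Fin (K0 + 1) → Fin B))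
    (i : Fin (K0 + 1)) (cc : Fin (K0 + 1) → ℕ) (h : Fin (K0 + 1) → ℤ) (t n : ℕ) (hci : cc i = 1) (hhi : h i = t)
    (hR : 1 ≤ RR X) (hp : (n + t).Prime) (hRp : RR X < n + t) :
    sqwG E X f A (fun j => cc j * (n : ℤ) + h j) ^ 2 =
      ∑ a ∈ A, ∑ b ∈ A, f (a i) 0 * f (b i) 0 * PRG E X f a b i cc h t (n + t) := by
  rw [sqwG_sq]
  refine Finset.sum_congr rfl fun a _ => Finset.sum_congr rfl fun b _ => ?_
  rw [Fin.prod_univ_succAbove _ i]
  have h1 : ∀ l, VVm (E i) (RR X) (LL X) (f l) ((cc i : ℤ) * (n : ℤ) + h i) = f l 0 := by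
    intro l
    have := VV_prime (E i) (RR X) hR (LL X) (f l) (n + t) hp hRp
    rw [hci, hhi]
    push_cast at this ⊢
    rw [one_mul]
    exact this
  rw [h1, h1]
  congr 1
  unfold PRG
  refine Finset.prod_congr rfl fun j _ => ?_
  have h2 : (cc (i.succAbove j) : ℤ) * (((n + t : ℕ) : ℤ)) + hh cc h t (i.succAbove j) =
      cc (i.succAbove j) * (n : ℤ) + h (i.succAbove j) := by
    unfold hh
    push_cast; ring
  rw [h2]

lemma abs_VV_leG {K B : ℕ} (E : Fin K → Finset ℕ) (R : ℕ) (L : ℝ) (hL : 0 < L) (f : Fin B → ℝ → ℝ) (c : Fin B → ℝ)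
    (hf0 : ∀ l x, c l < x → f l x = 0) (hf1 : ∀ l x, |f l x| ≤ 1) (a b : Fin K → Fin B)
    (hs : ∑ j, c (a j) + ∑ j, c (b j) ≤ 2) (x : Fin K → ℤ) :
    |∏ j, (VVm (E j) R L (f (a j)) (x j) * VVm (E j) R L (f (b j)) (x j))| ≤ Real.exp (2 * L) := by
  have h1 : ∀ (j : Fin K) (l : Fin B), |VVm (E j) R L (f l) (x j)| ≤ Real.exp (L * c l) := by
    intro j l
    have := prod_VV_le (K := 1) (E j) R L hL f c hf0 hf1
    have hone : |VVm (E j) R L (f l) (x j)| ≤ ((((Icc 1 ⌊Real.exp (L * c l)⌋₊)).card : ℕ) : ℝ) := by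
      unfold VVm
      refine (abs_sum_le_sum_abs _ _).trans ?_
      have h2 : ∑ d ∈ adm (E j) R, |if (d : ℤ) ∣ x j then ((ArithmeticFunction.moebius d : ℤ) : ℝ) * f l (Real.log d / L) else 0| ≤
          ∑ d ∈ (adm (E j) R).filter (fun d => d ∈ Icc 1 ⌊Real.exp (L * c l)⌋₊), (1 : ℝ) := by
        rw [sum_filter]
        apply sum_le_sum
        intro d hd
        rw [mem_adm] at hd
        have hd0 : (0:ℝ) < d := by exact_mod_cast hd.1.1
        by_cases hm : d ∈ Icc 1 ⌊Real.exp (L * c l)⌋₊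
        · rw [if_pos hm]
          by_cases hdx : (d : ℤ) ∣ x j
          · rw [if_pos hdx, abs_mul]
            have hmu : |((ArithmeticFunction.moebius d : ℤ) : ℝ)| ≤ 1 := by
              rw [← Int.cast_abs]
              exact_mod_cast ArithmeticFunction.abs_moebius_le_one
            calc |((ArithmeticFunction.moebius d : ℤ) : ℝ)| * |f l (Real.log d / L)| ≤ 1 * 1 := by
                  apply mul_le_mul hmu (hf1 _ _) (abs_nonneg _) zero_le_one
              _ = 1 := one_mul 1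
          · rw [if_neg hdx, abs_zero]; exact zero_le_one
        · rw [if_neg hm]
          have h3 : f l (Real.log d / L) = 0 := by
            apply hf0
            rw [lt_div_iff₀ hL]
            by_contra hcon
            push Not at hcon
            apply hm
            rw [mem_Icc]
            refine ⟨hd.1.1, Nat.le_floor ?_⟩
            rw [← Real.log_le_iff_le_exp hd0]
            linarith
          rw [h3, mul_zero, ite_self, abs_zero]
      refine h2.trans ?_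
      rw [sum_const, nsmul_eq_mul, mul_one]
      have h4 : ((adm (E j) R).filter (fun d => d ∈ Icc 1 ⌊Real.exp (L * c l)⌋₊)).card ≤
          (Icc 1 ⌊Real.exp (L * c l)⌋₊).card := by
        apply card_le_card
        intro d hd
        exact (mem_filter.1 hd).2
      exact_mod_cast h4
    refine hone.trans ?_
    rw [Nat.card_Icc, Nat.add_sub_cancel]
    exact Nat.floor_le (Real.exp_pos _).le
  rw [abs_prod]
  calc ∏ j, |VVm (E j) R L (f (a j)) (x j) * VVm (E j) R L (f (b j)) (x j)| ≤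
      ∏ j, (Real.exp (L * c (a j)) * Real.exp (L * c (b j))) := by
        apply Finset.prod_le_prod
        · intro j _; exact abs_nonneg _
        · intro j _
          rw [abs_mul]
          exact mul_le_mul (h1 j _) (h1 j _) (abs_nonneg _) (Real.exp_pos _).le
    _ = Real.exp (L * (∑ j, c (a j) + ∑ j, c (b j))) := by
        rw [prod_mul_distrib, ← Real.exp_sum, ← Real.exp_sum, ← Real.exp_add, ← mul_sum, ← mul_sum, mul_add]
    _ ≤ Real.exp (2 * L) := by
        apply Real.exp_le_exp.2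
        nlinarith

/-- conditions on the forms for the prime form `i` -/
structure PF {K : ℕ} (W : ℕ) (E : Fin K → Finset ℕ) (cc : Fin K → ℕ) (h : Fin K → ℤ) (a0 : ℕ) (i : Fin K) (t : ℕ) : Prop where
  ci : cc i = 1
  hi : h i = t
  cop : (a0 + t).Coprime W
  dt : ∀ j, j ≠ i → ∀ p : ℕ, p.Prime → p ∉ E j → ¬ (p : ℤ) ∣ hh cc h t j

theorem S2pairG {K0 B : ℕ} (f : Fin B → ℝ → ℝ) (c : Fin B → ℝ)
    (hsm : ∀ l, ContDiff ℝ ∞ (f l)) (hcs : ∀ l, HasCompactSupport (f l)) (hf0 : ∀ l x, c l < x → f l x = 0)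
    (hc : ∀ l, 0 ≤ c l ∧ c l ≤ 1 / 2) (hf1 : ∀ l x, |f l x| ≤ 1)
    (ε1 : ℝ) (hε1 : 0 < ε1) (a b : Fin (K0 + 1) → Fin B) (i : Fin (K0 + 1))
    (ha : ∑ j, c (a j) ≤ 1) (hb : ∑ j, c (b j) ≤ 1) :
    ∃ z : ℕ, ∀ᶠ X : ℝ in atTop, ∀ (W : ℕ) (E : Fin (K0 + 1) → Finset ℕ) (a0 : ℕ) (cc : Fin (K0 + 1) → ℕ)
      (h : Fin (K0 + 1) → ℤ) (t : ℕ) (T0 : ℝ),
      (∀ j, GE X z (E j)) → 0 < W → FS W E cc h → PF W E cc h a0 i t →
      (t : ℝ) ≤ T0 → T0 ≤ X / 2 →
      ∀ Bc : ℕ → ℕ, (∀ q, 1 ≤ q → ∀ b' : ℕ, b'.Coprime (W * q) →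
        |EPhi X (W * q) b'| ≤ |EPhi X (W * q) (Bc q)|) →
      |∑ n ∈ Icc 1 ⌊3 * X⌋₊, nu X W a0 n * th (n + t) * PRG E X f a b i cc h t (n + t) -
        (LPhi X * (1 / (W.totient : ℝ))) * (1 / LB X (fun j => E (i.succAbove j))) *
          ∏ j : Fin K0, DD (f (a (i.succAbove j))) (f (b (i.succAbove j)))| ≤
      (LPhi X * (1 / (W.totient : ℝ))) * (1 / LB X (fun j => E (i.succAbove j))) * ε1 +
        (BVe K0 X W Bc + Real.exp (2 * LL X) *
          ((4 * T0) * Real.log (4 * X) + 4 * Real.sqrt X * Real.log (4 * X))) := by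
  classical
  obtain ⟨z, hev⟩ := asympE K0 (fun j => f (a (i.succAbove j))) (fun j => f (b (i.succAbove j))) (fun j => hsm _) (fun j => hsm _)
      (fun j => hcs _) (fun j => hcs _) (fun j x hx => hf0 _ x ((hc _).2.trans_lt hx))
      (fun j x hx => hf0 _ x ((hc _).2.trans_lt hx)) ε1 hε1
  refine ⟨z, ?_⟩
  filter_upwards [hev, eventually_ge_atTop 4, LL_tendsto.eventually_ge_atTop 1] with X h1 h4 h6
  intro W E a0 cc h t T0 hGE hWpos hFS hPF htT hT0 Bc hBc
  have hLB : 0 < LB X (fun j => E (i.succAbove j)) := LB_pos (by linarith) fun j => (hGE _).pr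
  have hsum : ∑ j : Fin K0, c (a (i.succAbove j)) + ∑ j : Fin K0, c (b (i.succAbove j)) ≤ 2 := by
    have := sum_succAbove_le c (fun l => (hc l).1) a i
    have := sum_succAbove_le c (fun l => (hc l).1) b i
    linarith
  -- step 1 : shift
  have s1 := shift_bound X h4 W a0 t (htT.trans hT0) (PRG E X f a b i cc h t) (Real.exp (2 * LL X)) (fun n => by
        unfold PRG
        exact abs_VV_leG (fun j => E (i.succAbove j)) (RR X) (LL X) (by linarith) f c hf0 hf1 (fun j => a (i.succAbove j))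
          (fun j => b (i.succAbove j)) hsum _)
  -- step 2 : sieve
  have s2 := sum2c X W W (a0 + t) hWpos hPF.cop (fun j => f (a (i.succAbove j))) (fun j => f (b (i.succAbove j)))
    (LL X) 1 (by linarith) zero_le_one (fun j => c (a (i.succAbove j))) (fun j => c (b (i.succAbove j)))
    (fun j x => hf1 _ x) (fun j x => hf1 _ x)
    (fun j x hx => hf0 _ x hx) (fun j x hx => hf0 _ x hx) (fun j => E (i.succAbove j)) (RR X)
    (fun j => cc (i.succAbove j)) (fun j => hh cc h t (i.succAbove j))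
    (fun j p hp h => hFS.dv _ p hp h)
    (fun j p hp h => hFS.dv _ p hp h)
    (fun j p hp h => hFS.cf _ p hp h)
    (fun j p hp h' => hPF.dt _ (Fin.succAbove_ne i j) p hp h')
    (by
      intro j k hjk p hp hpE hpE' n hh'
      have hne : i.succAbove j ≠ i.succAbove k := fun h => hjk (Fin.succAbove_right_injective h)
      apply hFS.res hne hp hpE hpE' ((n : ℤ) - t)
      have e : ∀ j, (cc j : ℤ) * ((n : ℤ) - t) + h j = cc j * (n : ℤ) + hh cc h t j := by
        intro j; unfold hh; ring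
      rw [e, e]
      exact hh')
    Bc hBc
  have s3 : ∑ n ∈ Icc 1 ⌊3 * X⌋₊, (if n ≡ a0 + t [MOD W] then Phi (n / X) * ArithmeticFunction.vonMangoldt n else 0) *
      PRG E X f a b i cc h t n =
      ∑ n ∈ Icc 1 ⌊3 * X⌋₊, (if n ≡ a0 + t [MOD W] then Phi (n / X) * ArithmeticFunction.vonMangoldt n else 0) *
        ∏ j : Fin K0, (VVm (E (i.succAbove j)) (RR X) (LL X) (f (a (i.succAbove j)))
          (cc (i.succAbove j) * (n : ℤ) + hh cc h t (i.succAbove j)) *
          VVm (E (i.succAbove j)) (RR X) (LL X) (f (b (i.succAbove j)))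
          (cc (i.succAbove j) * (n : ℤ) + hh cc h t (i.succAbove j))) := rfl
  rw [← s3] at s2
  have s4 : (1 : ℝ) ^ (2 * K0) * ∑ q ∈ (Icc 1 ⌊Real.exp (LL X * (∑ j : Fin K0, c (a (i.succAbove j)) +
      ∑ j : Fin K0, c (b (i.succAbove j))))⌋₊).filter
      (fun q => Squarefree q ∧ q.Coprime W), (q.divisors.card : ℝ) ^ (2 * K0) * |EPhi X (W * q) (Bc q)| ≤
      BVe K0 X W Bc := by
    rw [one_pow, one_mul]
    unfold BVe
    apply Finset.sum_le_sum_of_subset_of_nonneg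
    · apply Finset.filter_subset_filter
      apply Finset.Icc_subset_Icc le_rfl
      apply Nat.floor_le_floor
      rw [← exp_two_LL X (by linarith)]
      apply Real.exp_le_exp.2
      nlinarith
    · intro q _ _
      positivity
  -- step 3 : asymptotics
  have s5 := h1 (fun j => E (i.succAbove j)) (fun p _ => 1 / ((p : ℝ) - 1)) (fun j => hGE _) (fun _ p hp => w_two hp)
  set SS := sieveSum K0 (fun j => f (a (i.succAbove j))) (fun j => f (b (i.succAbove j))) (LL X) (fun j => E (i.succAbove j))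
    (fun p _ => 1 / ((p : ℝ) - 1)) (RR X)
  set D := ∏ j : Fin K0, DD (f (a (i.succAbove j))) (f (b (i.succAbove j))) with hD
  have hLP : 0 ≤ LPhi X * (1 / (W.totient : ℝ)) := by
    apply mul_nonneg
    · unfold LPhi
      exact Finset.sum_nonneg fun n _ => mul_nonneg (Phi_nonneg _) ArithmeticFunction.vonMangoldt_nonneg
    · positivity
  have s5' : |LB X (fun j => E (i.succAbove j)) * SS - D| ≤ ε1 := s5
  have s6 : |(LPhi X * (1 / (W.totient : ℝ))) * SS -
      (LPhi X * (1 / (W.totient : ℝ))) * (1 / LB X (fun j => E (i.succAbove j))) * D| ≤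
      (LPhi X * (1 / (W.totient : ℝ))) * (1 / LB X (fun j => E (i.succAbove j))) * ε1 := by
    have : (LPhi X * (1 / (W.totient : ℝ))) * SS -
      (LPhi X * (1 / (W.totient : ℝ))) * (1 / LB X (fun j => E (i.succAbove j))) * D =
      (LPhi X * (1 / (W.totient : ℝ))) * (1 / LB X (fun j => E (i.succAbove j))) *
        (LB X (fun j => E (i.succAbove j)) * SS - D) := by
      field_simp
    rw [this, abs_mul, abs_of_nonneg (by positivity)]
    exact mul_le_mul_of_nonneg_left s5' (by positivity)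
  have s7 : Real.exp (2 * LL X) * ((4 * (t : ℝ)) * Real.log (4 * X) + 4 * Real.sqrt X * Real.log (4 * X)) ≤
      Real.exp (2 * LL X) * ((4 * T0) * Real.log (4 * X) + 4 * Real.sqrt X * Real.log (4 * X)) := by
    have hl : 0 ≤ Real.log (4 * X) := Real.log_nonneg (by linarith)
    gcongr
  have s8 := abs_le.1 s1
  have s9 := abs_le.1 s2
  have s10 := abs_le.1 s6
  rw [abs_le]
  constructor <;> linarith [s8.1, s8.2, s9.1, s9.2, s10.1, s10.2, s4, s7]

/-- the second sum -/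
theorem S2absG {K0 B : ℕ} (f : Fin B → ℝ → ℝ) (c : Fin B → ℝ)
    (A : Finset (Fin (K0 + 1) → Fin B))
    (hsm : ∀ l, ContDiff ℝ ∞ (f l)) (hcs : ∀ l, HasCompactSupport (f l)) (hf0 : ∀ l x, c l < x → f l x = 0)
    (hc : ∀ l, 0 ≤ c l ∧ c l ≤ 1 / 2) (hA : ∀ a ∈ A, ∑ j, c (a j) ≤ 1) (hf1 : ∀ l x, |f l x| ≤ 1)
    (ε1 : ℝ) (hε1 : 0 < ε1) :
    ∃ z : ℕ, ∀ᶠ X : ℝ in atTop, ∀ (W : ℕ) (E : Fin (K0 + 1) → Finset ℕ) (a0 : ℕ) (cc : Fin (K0 + 1) → ℕ)
      (h : Fin (K0 + 1) → ℤ) (T0 : ℝ),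
      (∀ j, GE X z (E j)) → 0 < W → FS W E cc h → T0 ≤ X / 2 →
      ∀ Bc : ℕ → ℕ, (∀ q, 1 ≤ q → ∀ b' : ℕ, b'.Coprime (W * q) →
        |EPhi X (W * q) b'| ≤ |EPhi X (W * q) (Bc q)|) →
      ∀ (i : Fin (K0 + 1)) (t : ℕ), PF W E cc h a0 i t → (t : ℝ) ≤ T0 →
        |∑ n ∈ Icc 1 ⌊3 * X⌋₊, nu X W a0 n * (sqwG E X f A (fun j => cc j * (n : ℤ) + h j) ^ 2 * th (n + t)) -
          (LPhi X * (1 / (W.totient : ℝ))) * (1 / LB X (fun j => E (i.succAbove j))) * JJ f A i| ≤
        (LPhi X * (1 / (W.totient : ℝ))) * (1 / LB X (fun j => E (i.succAbove j))) * ε1 +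
        (A.card : ℝ) ^ 2 * (BVe K0 X W Bc + Real.exp (2 * LL X) *
          ((4 * T0) * Real.log (4 * X) + 4 * Real.sqrt X * Real.log (4 * X))) := by
  classical
  have hz : ∀ (i : Fin (K0 + 1)) (a b : Fin (K0 + 1) → Fin B), ∃ z : ℕ, a ∈ A → b ∈ A →
    ∀ᶠ X : ℝ in atTop, ∀ (W : ℕ) (E : Fin (K0 + 1) → Finset ℕ) (a0 : ℕ) (cc : Fin (K0 + 1) → ℕ)
      (h : Fin (K0 + 1) → ℤ) (t : ℕ) (T0 : ℝ),
      (∀ j, GE X z (E j)) → 0 < W → FS W E cc h → PF W E cc h a0 i t →
      (t : ℝ) ≤ T0 → T0 ≤ X / 2 →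
      ∀ Bc : ℕ → ℕ, (∀ q, 1 ≤ q → ∀ b' : ℕ, b'.Coprime (W * q) →
        |EPhi X (W * q) b'| ≤ |EPhi X (W * q) (Bc q)|) →
      |∑ n ∈ Icc 1 ⌊3 * X⌋₊, nu X W a0 n * th (n + t) * PRG E X f a b i cc h t (n + t) -
        (LPhi X * (1 / (W.totient : ℝ))) * (1 / LB X (fun j => E (i.succAbove j))) *
          ∏ j : Fin K0, DD (f (a (i.succAbove j))) (f (b (i.succAbove j)))| ≤
      (LPhi X * (1 / (W.totient : ℝ))) * (1 / LB X (fun j => E (i.succAbove j))) * (ε1 / ((A.card : ℝ) ^ 2 + 1)) +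
        (BVe K0 X W Bc + Real.exp (2 * LL X) *
          ((4 * T0) * Real.log (4 * X) + 4 * Real.sqrt X * Real.log (4 * X))) := by
    intro i a b
    by_cases hab : a ∈ A ∧ b ∈ A
    · obtain ⟨z, hz⟩ := S2pairG f c hsm hcs hf0 hc hf1 (ε1 / ((A.card : ℝ) ^ 2 + 1)) (by positivity) a b i
        (hA a hab.1) (hA b hab.2)
      exact ⟨z, fun _ _ => hz⟩
    · exact ⟨0, fun h1 h2 => absurd ⟨h1, h2⟩ hab⟩
  choose z hz using hz
  set zz : ℕ := univ.sup (fun i : Fin (K0 + 1) => A.sup (fun a => A.sup (fun b => z i a b))) with hzz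
  have hzle : ∀ i, ∀ a ∈ A, ∀ b ∈ A, z i a b ≤ zz := by
    intro i a ha b hb
    have h1 : z i a b ≤ A.sup (fun b => z i a b) := Finset.le_sup (f := fun b => z i a b) hb
    have h2 : A.sup (fun b => z i a b) ≤ A.sup (fun a => A.sup (fun b => z i a b)) :=
      Finset.le_sup (f := fun a => A.sup (fun b => z i a b)) ha
    have h3 : A.sup (fun a => A.sup (fun b => z i a b)) ≤ zz :=
      Finset.le_sup (f := fun i : Fin (K0 + 1) => A.sup (fun a => A.sup (fun b => z i a b))) (Finset.mem_univ i)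
    exact h1.trans (h2.trans h3)
  refine ⟨zz, ?_⟩
  have hev : ∀ i : Fin (K0 + 1), ∀ᶠ X : ℝ in atTop, ∀ a ∈ A, ∀ b ∈ A,
    ∀ (W : ℕ) (E : Fin (K0 + 1) → Finset ℕ) (a0 : ℕ) (cc : Fin (K0 + 1) → ℕ)
      (h : Fin (K0 + 1) → ℤ) (t : ℕ) (T0 : ℝ),
      (∀ j, GE X (z i a b) (E j)) → 0 < W → FS W E cc h → PF W E cc h a0 i t →
      (t : ℝ) ≤ T0 → T0 ≤ X / 2 →
      ∀ Bc : ℕ → ℕ, (∀ q, 1 ≤ q → ∀ b' : ℕ, b'.Coprime (W * q) →
        |EPhi X (W * q) b'| ≤ |EPhi X (W * q) (Bc q)|) →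
      |∑ n ∈ Icc 1 ⌊3 * X⌋₊, nu X W a0 n * th (n + t) * PRG E X f a b i cc h t (n + t) -
        (LPhi X * (1 / (W.totient : ℝ))) * (1 / LB X (fun j => E (i.succAbove j))) *
          ∏ j : Fin K0, DD (f (a (i.succAbove j))) (f (b (i.succAbove j)))| ≤
      (LPhi X * (1 / (W.totient : ℝ))) * (1 / LB X (fun j => E (i.succAbove j))) * (ε1 / ((A.card : ℝ) ^ 2 + 1)) +
        (BVe K0 X W Bc + Real.exp (2 * LL X) *
          ((4 * T0) * Real.log (4 * X) + 4 * Real.sqrt X * Real.log (4 * X))) := by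
    intro i
    rw [Filter.eventually_all_finset]
    intro a ha
    rw [Filter.eventually_all_finset]
    intro b hb
    exact hz i a b ha hb
  rw [← Filter.eventually_all] at hev
  have hR : ∀ᶠ X : ℝ in atTop, 1 ≤ RR X ∧ (RR X : ℝ) < X := by
    filter_upwards [LL_tendsto.eventually_ge_atTop 1, eventually_gt_atTop 1] with X h1 h2
    have hlog : 0 < Real.log X := Real.log_pos h2
    constructor
    · unfold RR
      apply Nat.le_floor
      rw [Nat.cast_one]
      exact Real.one_le_exp (by linarith)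
    · unfold RR
      calc (⌊Real.exp (LL X)⌋₊ : ℝ) ≤ Real.exp (LL X) := Nat.floor_le (Real.exp_pos _).le
        _ < Real.exp (Real.log X) := by
            apply Real.exp_lt_exp.2
            unfold LL
            linarith
        _ = X := Real.exp_log (by linarith)
  filter_upwards [hev, hR, eventually_ge_atTop 4, LL_tendsto.eventually_ge_atTop 1] with X h1 h2 h4 h6
  intro W E a0 cc h T0 hGE hWpos hFS hT0 Bc hBc i t hPF htT
  have hterm : ∀ n ∈ Icc 1 ⌊3 * X⌋₊, nu X W a0 n * (sqwG E X f A (fun j => cc j * (n : ℤ) + h j) ^ 2 * th (n + t)) =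
      ∑ a ∈ A, ∑ b ∈ A, f (a i) 0 * f (b i) 0 * (nu X W a0 n * th (n + t) * PRG E X f a b i cc h t (n + t)) := by
    intro n _
    by_cases hz : nu X W a0 n * th (n + t) = 0
    · have e1 : nu X W a0 n * (sqwG E X f A (fun j => cc j * (n : ℤ) + h j) ^ 2 * th (n + t)) =
        (nu X W a0 n * th (n + t)) * sqwG E X f A (fun j => cc j * (n : ℤ) + h j) ^ 2 := by ring
      rw [e1, hz, zero_mul]
      symm
      apply Finset.sum_eq_zero; intro a _
      apply Finset.sum_eq_zero; intro b _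
      rw [zero_mul, mul_zero]
    · have hnu : nu X W a0 n ≠ 0 := fun h => hz (by rw [h, zero_mul])
      have hth : th (n + t) ≠ 0 := fun h => hz (by rw [h, mul_zero])
      have hp : (n + t).Prime := by
        by_contra hnp
        apply hth
        unfold th
        rw [if_neg hnp]
      have hXn : X < n := by
        by_contra hle
        push Not at hle
        apply hnu
        unfold nu
        rw [Phi_eq_zero_of_le (by positivity) (by rw [div_le_one (by linarith)]; exact hle), ite_self]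
      have hRn : RR X < n + t := by
        have h3 : (RR X : ℝ) < n := h2.2.trans hXn
        have h5 : RR X < n := by exact_mod_cast h3
        omega
      rw [sqwG_at_prime E X f A i cc h t n hPF.ci hPF.hi h2.1 hp hRn, Finset.sum_mul, Finset.mul_sum]
      refine Finset.sum_congr rfl fun a _ => ?_
      rw [Finset.sum_mul, Finset.mul_sum]
      refine Finset.sum_congr rfl fun b _ => ?_
      ring
  rw [Finset.sum_congr rfl hterm]
  have hexch : ∑ n ∈ Icc 1 ⌊3 * X⌋₊, ∑ a ∈ A, ∑ b ∈ A,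
      f (a i) 0 * f (b i) 0 * (nu X W a0 n * th (n + t) * PRG E X f a b i cc h t (n + t)) =
      ∑ a ∈ A, ∑ b ∈ A, f (a i) 0 * f (b i) 0 *
        ∑ n ∈ Icc 1 ⌊3 * X⌋₊, nu X W a0 n * th (n + t) * PRG E X f a b i cc h t (n + t) := by
    rw [Finset.sum_comm]
    refine Finset.sum_congr rfl fun a _ => ?_
    rw [Finset.sum_comm]
    refine Finset.sum_congr rfl fun b _ => ?_
    rw [Finset.mul_sum]
  rw [hexch]
  set M1 := (LPhi X * (1 / (W.totient : ℝ))) * (1 / LB X (fun j => E (i.succAbove j))) with hM1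
  set Er := BVe K0 X W Bc + Real.exp (2 * LL X) *
          ((4 * T0) * Real.log (4 * X) + 4 * Real.sqrt X * Real.log (4 * X)) with hEr
  have hpair : ∀ a ∈ A, ∀ b ∈ A, |f (a i) 0 * f (b i) 0 *
        ∑ n ∈ Icc 1 ⌊3 * X⌋₊, nu X W a0 n * th (n + t) * PRG E X f a b i cc h t (n + t) -
      M1 * (f (a i) 0 * f (b i) 0 * ∏ j : Fin K0, DD (f (a (i.succAbove j))) (f (b (i.succAbove j))))| ≤
      M1 * (ε1 / ((A.card : ℝ) ^ 2 + 1)) + Er := by
    intro a ha b hb
    have k1 := h1 i a ha b hb W E a0 cc h t T0 (fun j => (hGE j).mono (hzle i a ha b hb)) hWpos hFS hPF htT hT0 Bc hBc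
    have k2 : |f (a i) 0 * f (b i) 0| ≤ 1 := by
      rw [abs_mul]
      calc |f (a i) 0| * |f (b i) 0| ≤ 1 * 1 := mul_le_mul (hf1 _ _) (hf1 _ _) (abs_nonneg _) zero_le_one
        _ = 1 := one_mul 1
    set U := ∑ n ∈ Icc 1 ⌊3 * X⌋₊, nu X W a0 n * th (n + t) * PRG E X f a b i cc h t (n + t)
    set D := ∏ j : Fin K0, DD (f (a (i.succAbove j))) (f (b (i.succAbove j)))
    have k5 : f (a i) 0 * f (b i) 0 * U - M1 * (f (a i) 0 * f (b i) 0 * D) = f (a i) 0 * f (b i) 0 * (U - M1 * D) := by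
      ring
    rw [k5, abs_mul]
    calc |f (a i) 0 * f (b i) 0| * |U - M1 * D| ≤ 1 * (M1 * (ε1 / ((A.card : ℝ) ^ 2 + 1)) + Er) :=
          mul_le_mul k2 k1 (abs_nonneg _) zero_le_one
      _ = _ := one_mul _
  have hM1nn : 0 ≤ M1 := by
    rw [hM1]
    apply mul_nonneg
    · apply mul_nonneg
      · unfold LPhi
        exact Finset.sum_nonneg fun n _ => mul_nonneg (Phi_nonneg _) ArithmeticFunction.vonMangoldt_nonneg
      · positivity
    · exact one_div_nonneg.2 (LB_pos (by linarith) fun j => (hGE _).pr).le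
  have hJ : M1 * JJ f A i = ∑ a ∈ A, ∑ b ∈ A, M1 * (f (a i) 0 * f (b i) 0 * ∏ j : Fin K0, DD (f (a (i.succAbove j))) (f (b (i.succAbove j)))) := by
    unfold JJ
    rw [mul_sum]
    refine sum_congr rfl fun a _ => ?_
    rw [mul_sum]
  rw [hJ, ← sum_sub_distrib]
  have hin : ∀ a ∈ A, |∑ b ∈ A, f (a i) 0 * f (b i) 0 *
        ∑ n ∈ Icc 1 ⌊3 * X⌋₊, nu X W a0 n * th (n + t) * PRG E X f a b i cc h t (n + t) -
      ∑ b ∈ A, M1 * (f (a i) 0 * f (b i) 0 * ∏ j : Fin K0, DD (f (a (i.succAbove j))) (f (b (i.succAbove j))))| ≤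
      (A.card : ℝ) * (M1 * (ε1 / ((A.card : ℝ) ^ 2 + 1)) + Er) := by
    intro a ha
    rw [← sum_sub_distrib, ← nsmul_eq_mul]
    refine (abs_sum_le_sum_abs _ _).trans ?_
    exact sum_le_card_nsmul _ _ _ (fun b hb => hpair a ha b hb)
  refine (abs_sum_le_sum_abs _ _).trans ?_
  refine (sum_le_card_nsmul _ _ _ (fun a ha => hin a ha)).trans ?_
  rw [nsmul_eq_mul]
  have hfin : ((A.card : ℝ) * ((A.card : ℝ) * (ε1 / ((A.card : ℝ) ^ 2 + 1)))) ≤ ε1 := by
    have : (A.card : ℝ) * ((A.card : ℝ) * (ε1 / ((A.card : ℝ) ^ 2 + 1))) =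
        ((A.card : ℝ) ^ 2 / ((A.card : ℝ) ^ 2 + 1)) * ε1 := by ring
    rw [this]
    have h7 : (A.card : ℝ) ^ 2 / ((A.card : ℝ) ^ 2 + 1) ≤ 1 := by
      rw [div_le_one (by positivity)]; linarith
    nlinarith
  have := mul_le_mul_of_nonneg_left hfin hM1nn
  calc (A.card : ℝ) * ((A.card : ℝ) * (M1 * (ε1 / ((A.card : ℝ) ^ 2 + 1)) + Er)) =
      M1 * ((A.card : ℝ) * ((A.card : ℝ) * (ε1 / ((A.card : ℝ) ^ 2 + 1)))) + (A.card : ℝ) ^ 2 * Er := by ring
    _ ≤ _ := by linarith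

end Pool.Agent.Y848.UG
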