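import Pool.Agent.Y848.UG.Base
import Pool.Agent.H387R2.MB5

set_option autoImplicit false

/-! # Contribution of the `n` with a small prime factor of one of the forms -/

open Finset Filter Topology
open scoped ContDiff

namespace Pool.Agent.Y848.UG

open Pool.Agent.H378R2 Pool.Agent.H387R2.MB

/-- the class `n ≡ a0 (W)`, `p ∣ c n + h` -/
lemma class_pH {W a0 p c : ℕ} {h : ℤ} (hW : 0 < W) (hp : p.Prime) (hpW : ¬ p ∣ W) (hpc : ¬ p ∣ c) :
    ∃ b : ℕ, ∀ n : ℕ, (n ≡ a0 [MOD W] ∧ (p : ℤ) ∣ c * (n : ℤ) + h) ↔ n ≡ b [MOD (W * p)] := by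
  obtain ⟨b, hb⟩ := class_exists W a0 hW.ne' (fun _ : Fin 1 => p) (fun _ => c) (fun _ => h)
    (fun _ => hp.ne_zero) (fun i j hij => absurd (Subsingleton.elim i j) hij)
    (fun _ => (Nat.Prime.coprime_iff_not_dvd hp).2 hpW)
    (fun _ => ((Nat.Prime.coprime_iff_not_dvd hp).2 hpc).symm)
  refine ⟨b, fun n => ?_⟩
  have := hb n
  simpa using this

lemma nu_pH {X : ℝ} {W a0 p c b : ℕ} {h : ℤ}
    (hb : ∀ n : ℕ, (n ≡ a0 [MOD W] ∧ (p : ℤ) ∣ c * (n : ℤ) + h) ↔ n ≡ b [MOD (W * p)])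
    (n : ℕ) (w : ℝ) : nu X W a0 n * (if (p : ℤ) ∣ c * (n : ℤ) + h then w else 0) =
      nu X (W * p) b n * w := by
  unfold nu
  by_cases h1 : n ≡ b [MOD (W * p)]
  · have := (hb n).2 h1
    rw [if_pos h1, if_pos this.1, if_pos this.2]
  · rw [if_neg h1]
    by_cases h2 : n ≡ a0 [MOD W]
    · have h3 : ¬ (p : ℤ) ∣ c * (n : ℤ) + h := fun h3 => h1 ((hb n).1 ⟨h2, h3⟩)
      rw [if_neg h3]; ring
    · rw [if_neg h2]; ring

lemma BE_insert_ge {E : Finset ℕ} (hE : ∀ p ∈ E, p.Prime) {p : ℕ} (hp : p.Prime) : BE E / 2 ≤ BE (insert p E) := by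
  have hBE : 0 < BE E := BE_pos hE
  by_cases hpE : p ∈ E
  · rw [insert_eq_self.2 hpE]; linarith
  · rw [BE_insert hpE]
    have h1 : (1:ℝ) / p ≤ 1 / 2 := one_div_le_one_div_of_le (by norm_num) (by exact_mod_cast hp.two_le)
    nlinarith

/-- contribution of a prime `p ∉ E j0` -/
theorem stepH {K : ℕ} (g : Fin K → ℝ → ℝ) (c : Fin K → ℝ)
    (hsm : ∀ l, ContDiff ℝ ∞ (g l)) (hcs : ∀ l, HasCompactSupport (g l)) (hf0 : ∀ l x, c l < x → g l x = 0)
    (hc : ∀ l, 0 ≤ c l ∧ c l ≤ 1 / 2) (hA : ∑ j, c j ≤ 1) (hf1 : ∀ l x, |g l x| ≤ 1) (j0 : Fin K) :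
    ∃ C : ℝ, 0 ≤ C ∧ ∀ X : ℝ, 4 ≤ X → 2 ≤ LL X → ∀ (W : ℕ) (E : Fin K → Finset ℕ) (a0 p : ℕ) (cc : Fin K → ℕ)
      (h : Fin K → ℤ), 0 < W → p.Prime → p ∉ E j0 → (∀ j, GE X (32 * K + 2) (insert p (E j))) →
      ((W * p : ℕ) : ℝ) * Real.exp (LL X * 2) ≤ X → FS W E cc h →
      ∑ n ∈ Icc 1 ⌊3 * X⌋₊, nu X W a0 n * (if (p : ℤ) ∣ cc j0 * (n : ℤ) + h j0 then
        ∏ j, (VVm (E j) (RR X) (LL X) (g j) (cc j * (n : ℤ) + h j) *
          VVm (E j) (RR X) (LL X) (g j) (cc j * (n : ℤ) + h j)) else 0) ≤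
      (MPhi X * (1 / (W : ℝ))) * (1 / LB X E) * (2 ^ K * C * ((Real.log p / LL X) ^ 2 / p)) +
        5 * 2 ^ (2 * K) * Real.exp (2 * LL X) := by
  classical
  obtain ⟨C, hC0, hC⟩ := shift_sieve_bound K g g hsm hsm hcs hcs j0
  refine ⟨C, hC0, ?_⟩
  intro X hX4 hL2 W E a0 p cc h hW hp hpE hGE hWp hDT
  have hL0 : 0 < LL X := by linarith
  have hp0 : (0:ℝ) < p := by exact_mod_cast hp.pos
  have hW0 : (0:ℝ) < W := by exact_mod_cast hW
  set u := Real.log p / LL X with hu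
  have hu0 : 0 ≤ u := div_nonneg (Real.log_natCast_nonneg p) hL0.le
  obtain ⟨b, hb⟩ := class_pH (a0 := a0) (c := cc j0) (h := h j0) hW hp (hDT.dv j0 p hp hpE) (hDT.cf j0 p hp hpE)
  have hvan : ∀ (l : Fin K) (x : ℝ), Real.log (RR X) / LL X < x → g l x = 0 := by
    intro l x hx
    have := supp_aux hL2 hx
    exact hf0 l x (lt_of_le_of_lt (hc l).2 this)
  set G := shf g j0 u with hG
  have hG2 : ∀ j x, |G j x| ≤ 2 := by
    intro j x
    rw [hG]
    unfold shf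
    split_ifs
    · have h1 := hf1 j x
      have h2 := hf1 j (x + u)
      have := abs_sub (g j x) (g j (x + u))
      linarith
    · have h1 := hf1 j x
      linarith
  have hG0 : ∀ j x, c j < x → G j x = 0 := by
    intro j x hx
    rw [hG]
    unfold shf
    split_ifs
    · rw [hf0 j x hx, hf0 j (x + u) (by linarith), sub_zero]
    · exact hf0 j x hx
  have hDT' : FS (W * p) (fun j => insert p (E j)) cc h := hDT.insert p hp
  have k1 := S1prodH G G c c 2 (by norm_num) hG2 hG2 hG0 hG0 (by linarith) hX4 (by linarith)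
    (Nat.mul_pos hW hp.pos) hWp b hDT'
  have k2 := hC u hu0 (LL X) (fun j => insert p (E j)) (fun q _ => 1 / (q : ℝ)) (RR X) hL2
    (fun j x hx => ⟨hvan j x hx, hvan j x hx⟩) (fun j => (hGE j).pr) (fun j => (hGE j).sm) (fun j => (hGE j).s1)
    (fun j => (hGE j).s2) (fun _ q _ _ => w_one q)
  set SS := sieveSum K G G (LL X) (fun j => insert p (E j)) (fun q _ => 1 / (q : ℝ)) (RR X) with hSS
  have hEp : ∀ j, ∀ r ∈ E j, r.Prime := fun j r hr => (hGE j).pr r (mem_insert_of_mem hr)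
  have hLB : 0 < LB X E := LB_pos hL0 hEp
  have hLB' : 0 < LB X (fun j => insert p (E j)) := LB_pos hL0 fun j => (hGE j).pr
  have hLB2 : LB X E / 2 ^ K ≤ LB X (fun j => insert p (E j)) := by
    have e1 : LB X E / 2 ^ K = ∏ j, (LL X * BE (E j) / 2) := by
      unfold LB
      rw [prod_div_distrib, prod_const, card_univ, Fintype.card_fin]
    rw [e1]
    unfold LB
    apply Finset.prod_le_prod
    · intro j _
      have := BE_pos (hEp j)
      positivity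
    · intro j _
      have h3 := BE_insert_ge (hEp j) hp
      calc LL X * BE (E j) / 2 = LL X * (BE (E j) / 2) := by ring
        _ ≤ _ := mul_le_mul_of_nonneg_left h3 hL0.le
  have k3 : SS ≤ 1 / LB X E * (2 ^ K * (C * u ^ 2)) := by
    have h1 : LB X (fun j => insert p (E j)) * SS ≤ C * u ^ 2 := (le_abs_self _).trans k2
    have h3 : SS ≤ C * u ^ 2 / LB X (fun j => insert p (E j)) := by
      rw [le_div_iff₀ hLB']
      linarith
    refine h3.trans ?_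
    calc C * u ^ 2 / LB X (fun j => insert p (E j)) ≤ C * u ^ 2 / (LB X E / 2 ^ K) := by
          apply div_le_div_of_nonneg_left (by positivity) (by positivity) hLB2
      _ = _ := by field_simp
  have hM := MPhi_nonneg X
  have e2 : ∀ n ∈ Icc 1 ⌊3 * X⌋₊, nu X W a0 n * (if (p : ℤ) ∣ cc j0 * (n : ℤ) + h j0 then
        ∏ j, (VVm (E j) (RR X) (LL X) (g j) (cc j * (n : ℤ) + h j) *
          VVm (E j) (RR X) (LL X) (g j) (cc j * (n : ℤ) + h j)) else 0) =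
      nu X (W * p) b n * ∏ j, (VVm (insert p (E j)) (RR X) (LL X) (G j) (cc j * (n : ℤ) + h j) *
        VVm (insert p (E j)) (RR X) (LL X) (G j) (cc j * (n : ℤ) + h j)) := by
    intro n _
    rw [← nu_pH hb n]
    congr 1
    by_cases hd : (p : ℤ) ∣ cc j0 * (n : ℤ) + h j0
    · rw [if_pos hd, if_pos hd]
      apply prod_congr rfl
      intro j _
      have : VVm (E j) (RR X) (LL X) (g j) (cc j * (n : ℤ) + h j) =
          VVm (insert p (E j)) (RR X) (LL X) (G j) (cc j * (n : ℤ) + h j) := by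
        by_cases hj : j = j0
        · subst hj
          rw [VV_shift (E j) (RR X) (LL X) hL0 (g j) p hp hpE (hvan j) _ hd]
          congr 1
          funext x
          rw [hG]
          unfold shf
          rw [if_pos rfl]
        · have e3 : G j = g j := by
            funext x
            rw [hG]
            unfold shf
            rw [if_neg hj]
          rw [e3]
          by_cases hpj : p ∈ E j
          · rw [insert_eq_self.2 hpj]
          · have hnd : ¬ (p : ℤ) ∣ cc j * (n : ℤ) + h j := fun h' => hDT.res hj hp hpj hpE n ⟨h', hd⟩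
            rw [VV_same (E j) (RR X) (LL X) (g j) p hp _ hnd]
      rw [this]
    · rw [if_neg hd, if_neg hd]
  rw [sum_congr rfl e2]
  have k4 := (abs_le.1 k1).2
  have k5 : MPhi X * (1 / ((W * p : ℕ) : ℝ)) * SS ≤
      (MPhi X * (1 / (W : ℝ))) * (1 / LB X E) * (2 ^ K * C * (u ^ 2 / p)) := by
    calc MPhi X * (1 / ((W * p : ℕ) : ℝ)) * SS ≤ MPhi X * (1 / ((W * p : ℕ) : ℝ)) *
          (1 / LB X E * (2 ^ K * (C * u ^ 2))) := mul_le_mul_of_nonneg_left k3 (by positivity)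
      _ = _ := by push_cast; field_simp
  linarith

/-- exponential errors are negligible -/
lemma exp_errH (K : ℕ) (c δ : ℝ) (hδ : 0 < δ) : ∀ᶠ X : ℝ in atTop, ∀ (W : ℕ) (E : Fin K → Finset ℕ), 0 < W →
    (W : ℝ) ≤ Real.log X ^ 3 → (∀ j, ∀ p ∈ E j, p.Prime) →
    c * Real.exp (3 * LL X) ≤ δ * ((MPhi X * (1 / (W : ℝ))) * (1 / LB X E)) := by
  filter_upwards [exp_err K c δ hδ, LL_tendsto.eventually_ge_atTop 1] with X h1 h2
  intro W E hW hWle hE
  refine (h1 W ∅ hW hWle (by simp)).trans ?_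
  have hW0 : (0:ℝ) < W := by exact_mod_cast hW
  have hM0 : 0 ≤ MPhi X := MPhi_nonneg X
  have hLB : 0 < LB X E := LB_pos (by linarith) hE
  have e1 : LB X E ≤ (LL X * BE ∅) ^ K := by
    have e2 : BE ∅ = 1 := by unfold BE; rw [prod_empty]
    rw [e2, mul_one]
    unfold LB
    calc ∏ j, (LL X * BE (E j)) ≤ ∏ _j : Fin K, LL X := by
          apply Finset.prod_le_prod
          · intro j _
            have := BE_pos (hE j)
            positivity
          · intro j _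
            have h3 := BE_le_one (hE j)
            nlinarith
      _ = _ := by rw [prod_const, card_univ, Fintype.card_fin]
  have e3 : 1 / (LL X * BE ∅) ^ K ≤ 1 / LB X E := one_div_le_one_div_of_le hLB e1
  have : (0:ℝ) ≤ MPhi X * (1 / (W : ℝ)) := by positivity
  gcongr

/-- contribution of the `n` with a small prime factor -/
theorem nonroughH {K B : ℕ} (f : Fin B → ℝ → ℝ) (c : Fin B → ℝ) (A : Finset (Fin K → Fin B))
    (hsm : ∀ l, ContDiff ℝ ∞ (f l)) (hcs : ∀ l, HasCompactSupport (f l)) (hf0 : ∀ l x, c l < x → f l x = 0)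
    (hc : ∀ l, 0 ≤ c l ∧ c l ≤ 1 / 2) (hA : ∀ a ∈ A, ∑ j, c (a j) ≤ 1) (hf1 : ∀ l x, |f l x| ≤ 1) :
    ∃ C : ℝ, 0 ≤ C ∧ ∀ δ : ℝ, 0 < δ → δ ≤ 1 / 10 → ∀ᶠ X : ℝ in atTop,
      ∀ (W : ℕ) (E : Fin K → Finset ℕ) (a0 : ℕ) (cc : Fin K → ℕ) (h : Fin K → ℤ),
      (∀ j, GS X (32 * K + 2) (E j)) → 0 < W → (W : ℝ) ≤ Real.log X ^ 3 → FS W E cc h →
      ∑ n ∈ Icc 1 ⌊3 * X⌋₊, ∑ j : Fin K, ∑ p ∈ (PS δ X).filter (fun p => p ∉ E j),
        nu X W a0 n * (if (p : ℤ) ∣ cc j * (n : ℤ) + h j then sqwG E X f A (fun j => cc j * (n : ℤ) + h j) ^ 2 else 0) ≤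
        C * δ * ((MPhi X * (1 / (W : ℝ))) * (1 / LB X E)) := by
  classical
  have hA' : ∀ (a : Fin K → Fin B) (j0 : Fin K), ∃ C : ℝ, 0 ≤ C ∧ (a ∈ A → ∀ X : ℝ, 4 ≤ X → 2 ≤ LL X →
      ∀ (W : ℕ) (E : Fin K → Finset ℕ) (a0 p : ℕ) (cc : Fin K → ℕ)
      (h : Fin K → ℤ), 0 < W → p.Prime → p ∉ E j0 → (∀ j, GE X (32 * K + 2) (insert p (E j))) →
      ((W * p : ℕ) : ℝ) * Real.exp (LL X * 2) ≤ X → FS W E cc h →
      ∑ n ∈ Icc 1 ⌊3 * X⌋₊, nu X W a0 n * (if (p : ℤ) ∣ cc j0 * (n : ℤ) + h j0 then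
        ∏ j, (VVm (E j) (RR X) (LL X) (f (a j)) (cc j * (n : ℤ) + h j) *
          VVm (E j) (RR X) (LL X) (f (a j)) (cc j * (n : ℤ) + h j)) else 0) ≤
      (MPhi X * (1 / (W : ℝ))) * (1 / LB X E) * (2 ^ K * C * ((Real.log p / LL X) ^ 2 / p)) +
        5 * 2 ^ (2 * K) * Real.exp (2 * LL X)) := by
    intro a j0
    by_cases ha : a ∈ A
    · obtain ⟨C, hC0, hC⟩ := stepH (fun j => f (a j)) (fun j => c (a j)) (fun _ => hsm _) (fun _ => hcs _)
        (fun _ x hx => hf0 _ x hx) (fun _ => hc _) (hA a ha) (fun _ x => hf1 _ x) j0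
      exact ⟨C, hC0, fun _ => hC⟩
    · exact ⟨0, le_rfl, fun h => absurd h ha⟩
  choose Ca hCa0 hCa using hA'
  set Csum : ℝ := ∑ j : Fin K, ∑ a ∈ A, (A.card : ℝ) * (2 ^ K * Ca a j) with hCsum
  have hCsum0 : 0 ≤ Csum := sum_nonneg fun j _ => sum_nonneg fun a _ => by
    have := hCa0 a j; positivity
  set Cerr : ℝ := K * ((A.card : ℝ) ^ 2 * (5 * 2 ^ (2 * K))) with hCerr
  refine ⟨2 * Csum + 1, by positivity, ?_⟩
  intro δ hδ hδ1
  have hr : Tendsto (fun X : ℝ => (LL X) ^ (1 / 4 : ℝ)) atTop atTop :=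
    (tendsto_rpow_atTop (by norm_num)).comp LL_tendsto
  have hll : Tendsto (fun X : ℝ => Real.log (LL X)) atTop atTop := Real.tendsto_log_atTop.comp LL_tendsto
  have hWp : ∀ᶠ X : ℝ in atTop, Real.log X ^ 3 * Real.exp (1 / 10 * LL X) * Real.exp (LL X * 2) ≤ X := by
    have h1 : ∀ᶠ t : ℝ in atTop, 1 * t ^ 3 ≤ Real.exp ((1 / 1400) * t) :=
      ev_pow_exp 3 (1 / 1400) 1 (by norm_num)
    filter_upwards [Real.tendsto_log_atTop.eventually h1, Real.tendsto_log_atTop.eventually_ge_atTop 0,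
      eventually_gt_atTop 0] with X h2 h3 h4
    rw [one_mul] at h2
    calc Real.log X ^ 3 * Real.exp (1 / 10 * LL X) * Real.exp (LL X * 2) ≤
        Real.exp ((1 / 1400) * Real.log X) * Real.exp (1 / 10 * LL X) * Real.exp (LL X * 2) := by
          gcongr
      _ = Real.exp ((1 / 1400) * Real.log X + 1 / 10 * LL X + LL X * 2) := by rw [Real.exp_add, Real.exp_add]
      _ ≤ Real.exp (Real.log X) := by
          apply Real.exp_le_exp.2
          unfold LL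
          linarith
      _ = X := Real.exp_log h4
  filter_upwards [sum_u2 hδ, exp_errH K Cerr δ hδ, hWp, eventually_ge_atTop 4,
    LL_tendsto.eventually_ge_atTop 2, hr.eventually_ge_atTop 2, hll.eventually_ge_atTop 64,
    Real.tendsto_log_atTop.eventually_ge_atTop 1] with X h2 h3 h4 h5 h6 h7 h8 h9
  intro W E a0 cc h hGS hWpos hWle hFS
  have hL0 : 0 < LL X := by linarith
  have hW0 : (0:ℝ) < W := by exact_mod_cast hWpos
  have hM0 : 0 ≤ MPhi X := MPhi_nonneg X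
  have hLB : 0 < LB X E := LB_pos hL0 fun j => (hGS j).pr
  set Q : ℝ := (MPhi X * (1 / (W : ℝ))) * (1 / LB X E) with hQ
  have hQ0 : 0 ≤ Q := by positivity
  have hpexp : ∀ p ∈ PS δ X, (p : ℝ) ≤ Real.exp (1 / 10 * LL X) := by
    intro p hp
    refine (mem_PS.1 hp).2.trans (Real.exp_le_exp.2 ?_)
    nlinarith
  have hWpX : ∀ p ∈ PS δ X, ((W * p : ℕ) : ℝ) * Real.exp (LL X * 2) ≤ X := by
    intro p hp
    push_cast
    calc (W : ℝ) * p * Real.exp (LL X * 2) ≤ Real.log X ^ 3 * Real.exp (1 / 10 * LL X) * Real.exp (LL X * 2) := by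
          apply mul_le_mul_of_nonneg_right _ (Real.exp_pos _).le
          apply mul_le_mul hWle (hpexp p hp) (Nat.cast_nonneg _) (by positivity)
      _ ≤ _ := h4
  have hnE : ∀ j : Fin K, ∀ p ∈ (PS δ X).filter (fun p => p ∉ E j),
      ∑ n ∈ Icc 1 ⌊3 * X⌋₊, nu X W a0 n *
        (if (p : ℤ) ∣ cc j * (n : ℤ) + h j then sqwG E X f A (fun j => cc j * (n : ℤ) + h j) ^ 2 else 0) ≤
        Q * (∑ a ∈ A, (A.card : ℝ) * (2 ^ K * Ca a j)) * ((Real.log p / LL X) ^ 2 / p) +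
          (A.card : ℝ) ^ 2 * (5 * 2 ^ (2 * K)) * Real.exp (2 * LL X) := by
    intro j p hpf
    obtain ⟨hp, hpE⟩ := mem_filter.1 hpf
    have hpp := (mem_PS.1 hp).1
    have hGE : ∀ i, GE X (32 * K + 2) (insert p (E i)) := by
      intro i
      by_cases hpi : p ∈ E i
      · rw [insert_eq_self.2 hpi]
        exact (hGS i).toGE (by linarith)
      · exact (hGS i).insert h7 h8 hpp hpi
    have b1 : ∑ n ∈ Icc 1 ⌊3 * X⌋₊, nu X W a0 n *
        (if (p : ℤ) ∣ cc j * (n : ℤ) + h j then sqwG E X f A (fun j => cc j * (n : ℤ) + h j) ^ 2 else 0) ≤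
        ∑ a ∈ A, (A.card : ℝ) * ∑ n ∈ Icc 1 ⌊3 * X⌋₊, nu X W a0 n * (if (p : ℤ) ∣ cc j * (n : ℤ) + h j then
          ∏ j, (VVm (E j) (RR X) (LL X) (f (a j)) (cc j * (n : ℤ) + h j) *
            VVm (E j) (RR X) (LL X) (f (a j)) (cc j * (n : ℤ) + h j)) else 0) := by
      simp_rw [mul_sum]
      rw [sum_comm]
      apply sum_le_sum
      intro n _
      have hnu := nu_nonneg X W a0 n
      split_ifs with hd
      · have := sqwG_sq_le_sum E X f A (fun j => cc j * (n : ℤ) + h j)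
        calc nu X W a0 n * sqwG E X f A (fun j => cc j * (n : ℤ) + h j) ^ 2 ≤ nu X W a0 n * (A.card *
            ∑ a ∈ A, ∏ j, (VVm (E j) (RR X) (LL X) (f (a j)) (cc j * (n : ℤ) + h j) *
              VVm (E j) (RR X) (LL X) (f (a j)) (cc j * (n : ℤ) + h j))) := mul_le_mul_of_nonneg_left this hnu
          _ = _ := by
              rw [mul_sum, mul_sum]
              apply sum_congr rfl
              intro a _
              ring
      · simp
    refine b1.trans ?_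
    have b2 : ∀ a ∈ A, (A.card : ℝ) * ∑ n ∈ Icc 1 ⌊3 * X⌋₊, nu X W a0 n * (if (p : ℤ) ∣ cc j * (n : ℤ) + h j then
          ∏ j, (VVm (E j) (RR X) (LL X) (f (a j)) (cc j * (n : ℤ) + h j) *
            VVm (E j) (RR X) (LL X) (f (a j)) (cc j * (n : ℤ) + h j)) else 0) ≤
        (A.card : ℝ) * (Q * (2 ^ K * Ca a j * ((Real.log p / LL X) ^ 2 / p)) + 5 * 2 ^ (2 * K) * Real.exp (2 * LL X)) := by
      intro a ha
      apply mul_le_mul_of_nonneg_left _ (Nat.cast_nonneg _)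
      exact hCa a j ha X h5 h6 W E a0 p cc h hWpos hpp hpE hGE (hWpX p hp) hFS
    refine (sum_le_sum b2).trans (le_of_eq ?_)
    have b3 : ∀ a ∈ A, (A.card : ℝ) * (Q * (2 ^ K * Ca a j * ((Real.log p / LL X) ^ 2 / p)) + 5 * 2 ^ (2 * K) * Real.exp (2 * LL X)) =
        Q * ((Real.log p / LL X) ^ 2 / p) * ((A.card : ℝ) * (2 ^ K * Ca a j)) +
          (A.card : ℝ) * (5 * 2 ^ (2 * K) * Real.exp (2 * LL X)) := by
      intro a _; ring
    rw [sum_congr rfl b3, sum_add_distrib, ← mul_sum, sum_const, nsmul_eq_mul]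
    ring
  -- exchange
  have hex : ∑ n ∈ Icc 1 ⌊3 * X⌋₊, ∑ j : Fin K, ∑ p ∈ (PS δ X).filter (fun p => p ∉ E j),
        nu X W a0 n * (if (p : ℤ) ∣ cc j * (n : ℤ) + h j then sqwG E X f A (fun j => cc j * (n : ℤ) + h j) ^ 2 else 0) =
      ∑ j : Fin K, ∑ p ∈ (PS δ X).filter (fun p => p ∉ E j), ∑ n ∈ Icc 1 ⌊3 * X⌋₊,
        nu X W a0 n * (if (p : ℤ) ∣ cc j * (n : ℤ) + h j then sqwG E X f A (fun j => cc j * (n : ℤ) + h j) ^ 2 else 0) := by
    rw [sum_comm]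
    apply sum_congr rfl
    intro j _
    rw [sum_comm]
  rw [hex]
  have hsum0 : ∀ j : Fin K, 0 ≤ ∑ a ∈ A, (A.card : ℝ) * (2 ^ K * Ca a j) := fun j => sum_nonneg fun a _ => by
    have := hCa0 a j; positivity
  refine (sum_le_sum fun j _ => (sum_le_sum fun p hp => hnE j p hp).trans
    (sum_le_sum_of_subset_of_nonneg (filter_subset _ _) fun p _ _ => by
      have c1 := hsum0 j
      positivity)).trans ?_
  have hsplit : ∀ j : Fin K, ∑ p ∈ PS δ X, (Q * (∑ a ∈ A, (A.card : ℝ) * (2 ^ K * Ca a j)) * ((Real.log p / LL X) ^ 2 / p) +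
      (A.card : ℝ) ^ 2 * (5 * 2 ^ (2 * K)) * Real.exp (2 * LL X)) =
      Q * (∑ a ∈ A, (A.card : ℝ) * (2 ^ K * Ca a j)) * ∑ p ∈ PS δ X, (Real.log p / LL X) ^ 2 / p +
      ((PS δ X).card : ℝ) * ((A.card : ℝ) ^ 2 * (5 * 2 ^ (2 * K)) * Real.exp (2 * LL X)) := by
    intro j
    rw [sum_add_distrib, ← mul_sum, sum_const, nsmul_eq_mul]
  rw [sum_congr rfl (fun j _ => hsplit j), sum_add_distrib]
  have hcard := card_PS δ X
  have hexpδ : Real.exp (δ * LL X) ≤ Real.exp (LL X) := Real.exp_le_exp.2 (by nlinarith)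
  have d2 : ∑ j : Fin K, Q * (∑ a ∈ A, (A.card : ℝ) * (2 ^ K * Ca a j)) * ∑ p ∈ PS δ X, (Real.log p / LL X) ^ 2 / p ≤
      2 * Csum * δ * Q := by
    have e1 : ∀ j : Fin K, Q * (∑ a ∈ A, (A.card : ℝ) * (2 ^ K * Ca a j)) * ∑ p ∈ PS δ X, (Real.log p / LL X) ^ 2 / p ≤
        Q * (2 * δ) * (∑ a ∈ A, (A.card : ℝ) * (2 ^ K * Ca a j)) := by
      intro j
      have h0 := hsum0 j
      have h10 : ∑ p ∈ PS δ X, (Real.log p / LL X) ^ 2 / p ≤ 2 * δ := by
        refine h2.trans ?_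
        nlinarith
      calc Q * (∑ a ∈ A, (A.card : ℝ) * (2 ^ K * Ca a j)) * ∑ p ∈ PS δ X, (Real.log p / LL X) ^ 2 / p ≤
          Q * (∑ a ∈ A, (A.card : ℝ) * (2 ^ K * Ca a j)) * (2 * δ) := mul_le_mul_of_nonneg_left h10 (by positivity)
        _ = _ := by ring
    refine (sum_le_sum fun j _ => e1 j).trans (le_of_eq ?_)
    rw [← mul_sum, hCsum]
    ring
  have d3 : ∑ _j : Fin K, ((PS δ X).card : ℝ) * ((A.card : ℝ) ^ 2 * (5 * 2 ^ (2 * K)) * Real.exp (2 * LL X)) ≤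
      δ * Q := by
    rw [sum_const, nsmul_eq_mul, card_univ, Fintype.card_fin]
    refine le_trans ?_ (h3 W E hWpos hWle fun j => (hGS j).pr)
    have e5 : Real.exp (3 * LL X) = Real.exp (LL X) * Real.exp (2 * LL X) := by rw [← Real.exp_add]; ring_nf
    have e6 : ((PS δ X).card : ℝ) ≤ Real.exp (LL X) := hcard.trans hexpδ
    calc (K : ℝ) * (((PS δ X).card : ℝ) * ((A.card : ℝ) ^ 2 * (5 * 2 ^ (2 * K)) * Real.exp (2 * LL X))) ≤
        K * (Real.exp (LL X) * ((A.card : ℝ) ^ 2 * (5 * 2 ^ (2 * K)) * Real.exp (2 * LL X))) := by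
          gcongr
      _ = Cerr * Real.exp (3 * LL X) := by rw [hCerr, e5]; ring
  linarith

end Pool.Agent.Y848.UG
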