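import Pool.Agent.H387R2.MB8
import Pool.Agent.Y848.UG.Fam2
import Pool.Agent.Y848.UG.Step
import Pool.Agent.Y848.UG.S2
import Pool.Agent.Y848.MS.BV

set_option autoImplicit false

/-! # The positivity argument for systems of linear forms -/

open Finset Filter Topology
open scoped ContDiff

namespace Pool.Agent.Y848.UG

open Pool.Agent.H378R2 Pool.Agent.H387R2.MB
open Pool.Agent.Y848.MS (BVe_leM)

/-- the expected size -/
noncomputable def QG {K : ℕ} (X : ℝ) (W : ℕ) (E : Fin K → Finset ℕ) : ℝ :=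
  (MPhi X * (1 / (W : ℝ))) * (1 / LB X E)

/-- no small prime factor outside `E` -/
def RgG (δ X : ℝ) (E : Finset ℕ) (m : ℤ) : Prop := ∀ p ∈ PS δ X, p ∉ E → ¬ (p : ℤ) ∣ m

lemma LB_le {K : ℕ} {X : ℝ} (hL : 0 < LL X) {E : Fin K → Finset ℕ} (hE : ∀ j, ∀ p ∈ E j, p.Prime) :
    LB X E ≤ (LL X * BE ∅) ^ K := by
  have e2 : BE ∅ = 1 := by unfold BE; rw [prod_empty]
  rw [e2, mul_one]
  unfold LB
  calc ∏ j, (LL X * BE (E j)) ≤ ∏ _j : Fin K, LL X := by
        apply Finset.prod_le_prod
        · intro j _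
          have := BE_pos (hE j)
          positivity
        · intro j _
          have h3 := BE_le_one (hE j)
          nlinarith
    _ = _ := by rw [prod_const, card_univ, Fintype.card_fin]

lemma QQ_le_QG {K : ℕ} {X : ℝ} (hL : 0 < LL X) {W : ℕ} {E : Fin K → Finset ℕ} (hE : ∀ j, ∀ p ∈ E j, p.Prime) :
    QQ K X W ∅ ≤ QG X W E := by
  unfold QQ QG
  have hM0 : 0 ≤ MPhi X := MPhi_nonneg X
  have e3 : 1 / (LL X * BE ∅) ^ K ≤ 1 / LB X E := one_div_le_one_div_of_le (LB_pos hL hE) (LB_le hL hE)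
  have : (0:ℝ) ≤ MPhi X * (1 / (W : ℝ)) := by positivity
  gcongr

lemma LB_succ {K0 : ℕ} {X : ℝ} (E : Fin (K0 + 1) → Finset ℕ) (i : Fin (K0 + 1)) :
    LB X E = (LL X * BE (E i)) * LB X (fun j => E (i.succAbove j)) := by
  unfold LB
  rw [Fin.prod_univ_succAbove _ i]

lemma LPhi_le : ∀ᶠ X : ℝ in atTop, LPhi X ≤ 400 * MPhi X := by
  filter_upwards [MPhi_big, eventually_ge_atTop 4] with X h1 h4
  have h2 : LPhi X ≤ Chebyshev.psi (3 * X) := by
    unfold LPhi
    rw [Chebyshev.psi_eq_sum_Icc]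
    have hsub : Icc 1 ⌊3 * X⌋₊ ⊆ Icc 0 ⌊3 * X⌋₊ := Icc_subset_Icc (by omega) le_rfl
    refine le_trans ?_ (sum_le_sum_of_subset_of_nonneg hsub fun n _ _ => ArithmeticFunction.vonMangoldt_nonneg)
    apply sum_le_sum
    intro n _
    have h3 := abs_Phi_le (n / X)
    have h5 := (abs_le.1 h3).2
    calc Phi (n / X) * ArithmeticFunction.vonMangoldt n ≤ 1 * ArithmeticFunction.vonMangoldt n :=
          mul_le_mul_of_nonneg_right h5 ArithmeticFunction.vonMangoldt_nonneg
      _ = _ := one_mul _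
  have h3 := Chebyshev.psi_le_const_mul_self (x := 3 * X) (by linarith)
  have h5 : Real.log 4 ≤ 2 := by
    have : Real.log 4 = 2 * Real.log 2 := by
      rw [show (4:ℝ) = 2 ^ 2 by norm_num, Real.log_pow]; norm_num
    rw [this]
    have := Real.log_two_lt_d9
    linarith
  have h6 : (Real.log 4 + 4) * (3 * X) ≤ 20 * X := by nlinarith
  linarith

/-- the prime indices -/
def PA (R K1 : ℕ) : Finset (Fin (R + K1 + 1)) := univ.filter (fun i => R ≤ (i : ℕ))

lemma mem_PA {R K1 : ℕ} {i : Fin (R + K1 + 1)} : i ∈ PA R K1 ↔ R ≤ (i : ℕ) := by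
  unfold PA; rw [mem_filter]; exact ⟨fun h => h.2, fun h => ⟨mem_univ _, h⟩⟩

/-- the `i`-th prime index -/
def pidx (R K1 : ℕ) (i : Fin (K1 + 1)) : Fin (R + K1 + 1) := ⟨R + (i : ℕ), by have := i.2; omega⟩

lemma pidx_inj (R K1 : ℕ) : Function.Injective (pidx R K1) := by
  intro i j hij
  unfold pidx at hij
  simp only [Fin.mk.injEq] at hij
  exact Fin.ext (by omega)

lemma card_PA (R K1 : ℕ) : (PA R K1).card = K1 + 1 := by
  classical
  have h : PA R K1 = (univ : Finset (Fin (K1 + 1))).image (pidx R K1) := by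
    ext i
    rw [mem_PA, Finset.mem_image]
    constructor
    · intro hi
      refine ⟨⟨(i : ℕ) - R, by have := i.2; omega⟩, Finset.mem_univ _, ?_⟩
      apply Fin.ext
      unfold pidx
      simp only
      omega
    · rintro ⟨a, _, rfl⟩
      unfold pidx
      simp only
      omega
  rw [h, card_image_of_injective _ (pidx_inj R K1), card_univ, Fintype.card_fin]

open Classical in
/-- many `n` with several primes among the prime forms, no prime among the special companions and no small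
prime factor -/
theorem positivityA (k : ℕ) : ∃ K1 : ℕ, ∀ R m₀ : ℕ, 1 ≤ m₀ →
    ∃ (B : ℕ) (f : Fin B → ℝ → ℝ) (A : Finset (Fin (R + K1 + 1) → Fin B)),
    (∀ l x, |f l x| ≤ 1) ∧ ∃ δ : ℝ, 0 < δ ∧ δ ≤ 1 / 10 ∧ ∃ c0 : ℝ, 0 < c0 ∧ ∃ z : ℕ, ∀ᶠ X : ℝ in atTop,
    ∀ (W V : ℕ) (E : Fin (R + K1 + 1) → Finset ℕ) (a0 : ℕ) (cc : Fin (R + K1 + 1) → ℕ)
      (h : Fin (R + K1 + 1) → ℤ) (t : Fin (R + K1 + 1) → ℕ)
      (Cs : Finset (Fin (R + K1 + 1))), (∀ j, GS X z (E j)) →
      W = m₀ * V → Squarefree V → (W : ℝ) ≤ Real.log X ^ 3 → FS W E cc h →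
      (∀ j ∈ Cs, (j : ℕ) < R) →
      (∀ j, (j ∈ Cs ∨ j ∈ PA R K1) → PF W E cc h a0 j (t j) ∧ (t j : ℝ) ≤ Real.sqrt X ∧
        (W.totient : ℝ) = W * BE (E j)) →
      c0 * QG X W E ≤ ∑ n ∈ Icc 1 ⌊3 * X⌋₊, nu X W a0 n *
        (if (k + 1 ≤ ((PA R K1).filter (fun j => (n + t j).Prime)).card) ∧
            (∀ j ∈ Cs, ¬ (n + t j).Prime) ∧ (∀ j, RgG δ X (E j) (cc j * (n : ℤ) + h j)) then
          sqwG E X f A (fun j => cc j * (n : ℤ) + h j) ^ 2 else 0) := by
  obtain ⟨K1, hfam⟩ := familyA (801 + 640000 * k)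
  refine ⟨K1, fun R m₀ hm₀ => ?_⟩
  set K : ℝ := (K1 : ℝ) + 1 with hK
  have hKpos : 0 < K := by positivity
  have hK1' : 1 ≤ K := by rw [hK]; have h0 : (0:ℝ) ≤ K1 := Nat.cast_nonneg _; linarith only [h0]
  set ε : ℝ := 1 / (12800 * K) with hεdef
  have hε0 : 0 < ε := by positivity
  obtain ⟨B, f, c, A, hsm, hcs, hf0, hc, hA, hf1, hI, hJ1, hJC⟩ := hfam R ε hε0
  set I := II f A with hIdef
  set ε1 := min (I / K) (ε * I / ((R : ℝ) + 1)) with hε1
  have hε1pos : 0 < ε1 := lt_min (by positivity) (by positivity)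
  have hε1K : ε1 ≤ I / K := min_le_left _ _
  have hε1R : (R : ℝ) * ε1 ≤ ε * I := by
    have h1 : ε1 ≤ ε * I / ((R : ℝ) + 1) := min_le_right _ _
    rw [le_div_iff₀ (by positivity)] at h1
    linarith
  obtain ⟨z1, hS1⟩ := S1upH f c A hsm hcs hf0 hc hA hf1 ε1 hε1pos
  obtain ⟨z2, hS2⟩ := S2absG f c A hsm hcs hf0 hc hA hf1 ε1 hε1pos
  obtain ⟨C, hC0, hnr⟩ := nonroughH f c A hsm hcs hf0 hc hA hf1
  set δ : ℝ := min (1 / 10) (I / (3200 * K * (C + 1))) with hδ
  have hδ0 : 0 < δ := lt_min (by norm_num) (by positivity)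
  have hδ1 : δ ≤ 1 / 10 := min_le_left _ _
  have hδC : C * δ ≤ I / (3200 * K) := by
    have h1 : δ ≤ I / (3200 * K * (C + 1)) := min_le_right _ _
    calc C * δ ≤ (C + 1) * (I / (3200 * K * (C + 1))) := by
          apply mul_le_mul (by linarith) h1 hδ0.le (by linarith)
      _ = I / (3200 * K) := by field_simp
  refine ⟨B, f, A, hf1, δ, hδ0, hδ1, I / (3200 * K), by positivity, max z1 (max z2 (32 * (R + K1 + 1) + 2)), ?_⟩
  set cE : ℝ := K * (A.card : ℝ) ^ 2 + 5 * k * (A.card : ℝ) ^ 2 with hcE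
  set cR : ℝ := R * (A.card : ℝ) ^ 2 / 200 with hcR
  filter_upwards [hS1, hS2, hnr δ hδ0 hδ1, BVe_leM m₀ hm₀ (R + K1) (R + K1 + 1 + 4),
    err_small (R + K1 + 1) cE (I / 2) (by positivity) (by positivity),
    err_small (R + K1 + 1) cR (I / (3200 * K)) (by positivity) (by positivity),
    LPhi_ge, LPhi_le, eventually_ge_atTop 16, LL_tendsto.eventually_ge_atTop 1, ev_pow_exp 3 (1 / 700) 1 (by norm_num) |>
      (fun h => Real.tendsto_log_atTop.eventually h)] with X h1 h2 h3 h4 h5 h5b h6 h6b h7 h8 h9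
  intro W V E a0 cc h t Cs hGS hWV hVsq hWlog hFS hCs hPF
  set P := PA R K1 with hPdef
  have hX0 : 0 < X := by linarith
  have hL0 : 0 < LL X := by linarith
  have hV0 : 0 < V := Nat.pos_of_ne_zero hVsq.ne_zero
  have hW0 : 0 < W := by rw [hWV]; exact Nat.mul_pos hm₀ hV0
  have hWr : (0:ℝ) < W := by exact_mod_cast hW0
  have hφ : 0 < (W.totient : ℝ) := by exact_mod_cast Nat.totient_pos.2 hW0
  have hEp : ∀ j, ∀ p ∈ E j, p.Prime := fun j => (hGS j).pr
  have hWle : (W : ℝ) ≤ Real.exp (Real.log X / 700) := by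
    refine hWlog.trans ?_
    rw [one_mul] at h9
    calc Real.log X ^ 3 ≤ Real.exp (1 / 700 * Real.log X) := h9
      _ = _ := by ring_nf
  have hWX : (W : ℝ) * Real.exp (LL X * 2) ≤ X := size_aux' (by linarith) hWle (by norm_num)
  have hsqrt : Real.sqrt X ≤ X / 2 := sqrt_half h7
  have hGE : ∀ z', z' ≤ max z1 (max z2 (32 * (R + K1 + 1) + 2)) → ∀ j, GE X z' (E j) := fun z' hz' j =>
    ((hGS j).toGE h8).mono hz'
  set Q := QG X W E with hQ
  have hMP : 0 ≤ MPhi X := MPhi_nonneg X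
  have hLBp : 0 < LB X E := LB_pos hL0 hEp
  have hQ0 : 0 ≤ Q := by rw [hQ]; unfold QG; positivity
  -- first sum
  have s1 := h1 W E a0 cc h (hGE z1 (le_max_left _ _)) hW0 hWX hFS
  -- second sum
  obtain ⟨Bc, hBc1, hBc2⟩ := Bc_exists X W hW0
  have s2 := h2 W E a0 cc h (Real.sqrt X) (hGE z2 ((le_max_left _ _).trans (le_max_right _ _))) hW0 hFS hsqrt Bc hBc2
  have s3 := h4 W V hWV hVsq hWlog Bc hBc1
  have s4' := h5 W ∅ (BVe (R + K1) X W Bc) hW0 hWlog (by simp) s3
  have s4b' := h5b W ∅ (BVe (R + K1) X W Bc) hW0 hWlog (by simp) s3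
  have hQQQ : QQ (R + K1 + 1) X W ∅ ≤ Q := QQ_le_QG hL0 hEp
  have s4 : cE * (BVe (R + K1) X W Bc + Real.exp (2 * LL X) * ((4 * Real.sqrt X) * Real.log (4 * X) + 4 * Real.sqrt X * Real.log (4 * X)) +
      Real.log (4 * X) * Real.exp (2 * LL X)) ≤ I / 2 * (LL X * Q) := by
    refine s4'.trans ?_
    gcongr
  have s4b : cR * (BVe (R + K1) X W Bc + Real.exp (2 * LL X) * ((4 * Real.sqrt X) * Real.log (4 * X) + 4 * Real.sqrt X * Real.log (4 * X)) +
      Real.log (4 * X) * Real.exp (2 * LL X)) ≤ I / (3200 * K) * (LL X * Q) := by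
    refine s4b'.trans ?_
    gcongr
  have s5 := h3 W E a0 cc h (fun j => (hGS j).mono ((le_max_right _ _).trans (le_max_right _ _))) hW0 hWlog hFS
  set w : ℕ → ℝ := fun n => sqwG E X f A (fun j => cc j * (n : ℤ) + h j) ^ 2 with hw
  have hw0 : ∀ n, 0 ≤ w n := fun n => sq_nonneg _
  have hl4 := log4X (by linarith : 4 ≤ X)
  have hl40 : 0 ≤ Real.log (4 * X) := Real.log_nonneg (by linarith)
  set err2 := BVe (R + K1) X W Bc + Real.exp (2 * LL X) *
          ((4 * Real.sqrt X) * Real.log (4 * X) + 4 * Real.sqrt X * Real.log (4 * X)) with herr2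
  have herr0 : 0 ≤ err2 := by
    rw [herr2]
    apply add_nonneg (BVe_nonneg _ _ _ _)
    positivity
  -- lower bound for the theta sum
  have hPK : (P.card : ℝ) = K := by
    rw [hPdef, card_PA, hK]; push_cast; ring
  have hJ : (801 + 640000 * k) * I ≤ ∑ i ∈ P, JJ f A i := by
    have h1 : (P.card : ℝ) * ((801 + 640000 * k) * I / K) ≤ ∑ i ∈ P, JJ f A i := by
      rw [← nsmul_eq_mul]
      apply card_nsmul_le_sum
      intro i hi
      rw [div_le_iff₀ hKpos, mul_comm (JJ f A i)]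
      exact hJ1 i (mem_PA.1 hi)
    refine le_trans (le_of_eq ?_) h1
    rw [hPK]
    field_simp
  have hII1 : I ≤ (801 + 640000 * k) * I := by
    have h0 : (0:ℝ) ≤ k := Nat.cast_nonneg k
    have h1' : (1:ℝ) ≤ 801 + 640000 * k := by linarith only [h0]
    exact le_mul_of_one_le_left hI.le h1'
  -- the main factor of the second sum
  have hmain : ∀ i, (i ∈ Cs ∨ i ∈ P) →
      LL X * Q / 800 ≤ LPhi X * (1 / (W.totient : ℝ)) * (1 / LB X (fun j => E (i.succAbove j))) ∧
      LPhi X * (1 / (W.totient : ℝ)) * (1 / LB X (fun j => E (i.succAbove j))) ≤ 400 * (LL X * Q) := by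
    intro i hi
    have hBEi : 0 < BE (E i) := BE_pos (hEp i)
    have hLBi : 0 < LB X (fun j => E (i.succAbove j)) := LB_pos hL0 fun j => hEp _
    have htot := (hPF i hi).2.2
    have e3 : LL X * Q = (MPhi X * (1 / (W.totient : ℝ))) * (1 / LB X (fun j => E (i.succAbove j))) := by
      rw [hQ]; unfold QG
      rw [LB_succ E i, htot]
      field_simp
    rw [e3]
    have hnn : 0 ≤ (1 / (W.totient : ℝ)) * (1 / LB X (fun j => E (i.succAbove j))) := by positivity
    have e6 : MPhi X ≤ 400 * LPhi X := by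
      have := MPhi_le X (by linarith)
      linarith
    constructor
    · have e7 : MPhi X / 800 ≤ LPhi X := by linarith
      have := mul_le_mul_of_nonneg_right e7 hnn
      calc _ = MPhi X / 800 * (1 / (W.totient : ℝ) * (1 / LB X (fun j => E (i.succAbove j)))) := by ring
        _ ≤ LPhi X * (1 / (W.totient : ℝ) * (1 / LB X (fun j => E (i.succAbove j)))) := this
        _ = _ := by ring
    · have := mul_le_mul_of_nonneg_right h6b hnn
      calc _ = LPhi X * (1 / (W.totient : ℝ) * (1 / LB X (fun j => E (i.succAbove j)))) := by ring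
        _ ≤ 400 * MPhi X * (1 / (W.totient : ℝ) * (1 / LB X (fun j => E (i.succAbove j)))) := this
        _ = _ := by ring
  have hlow : ∀ i ∈ P, (LL X * Q / 800) * (JJ f A i - ε1) - (A.card : ℝ) ^ 2 * err2 ≤
      ∑ n ∈ Icc 1 ⌊3 * X⌋₊, nu X W a0 n * (w n * th (n + t i)) := by
    intro i hi
    have hJi : 0 ≤ JJ f A i - ε1 := by
      have e1 : (801 + 640000 * k) * I / K ≤ JJ f A i := by
        rw [div_le_iff₀ hKpos, mul_comm (JJ f A i)]
        exact hJ1 i (mem_PA.1 hi)
      have e2 : ε1 ≤ (801 + 640000 * k) * I / K := hε1K.trans (div_le_div_of_nonneg_right hII1 hKpos.le)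
      linarith
    have k1 := s2 i (t i) (hPF i (Or.inr hi)).1 (hPF i (Or.inr hi)).2.1
    have k2 := (abs_le.1 k1).1
    have e2 := (hmain i (Or.inr hi)).1
    set M1 := LPhi X * (1 / (W.totient : ℝ)) * (1 / LB X (fun j => E (i.succAbove j))) with hM1
    have := mul_le_mul_of_nonneg_right e2 hJi
    have e5 : M1 * (JJ f A i - ε1) = M1 * JJ f A i - M1 * ε1 := by ring
    rw [e5] at this
    linarith only [this, k2]
  have s6 : (LL X * Q / 800) * ((801 + 640000 * k) * I - I) - K * (A.card : ℝ) ^ 2 * err2 ≤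
      ∑ i ∈ P, ∑ n ∈ Icc 1 ⌊3 * X⌋₊, nu X W a0 n * (w n * th (n + t i)) := by
    refine le_trans ?_ (sum_le_sum fun i hi => hlow i hi)
    rw [sum_sub_distrib, sum_const, nsmul_eq_mul, ← mul_sum, sum_sub_distrib, sum_const, nsmul_eq_mul, hPK]
    have e1' : K * ε1 ≤ I := by
      calc K * ε1 ≤ K * (I / K) := mul_le_mul_of_nonneg_left hε1K hKpos.le
        _ = I := by field_simp
    have e8 : (LL X * Q / 800) * ((801 + 640000 * k) * I - I) ≤
        (LL X * Q / 800) * (∑ i ∈ P, JJ f A i - K * ε1) := by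
      apply mul_le_mul_of_nonneg_left _ (by positivity)
      linarith only [hJ, e1']
    linarith only [e8]
  -- upper bound
  have hpt : ∀ n ∈ Icc 1 ⌊3 * X⌋₊, nu X W a0 n * (w n * (∑ i ∈ P, th (n + t i) - k * Real.log (4 * X))) ≤
      (K * Real.log (4 * X)) * (nu X W a0 n * (if k + 1 ≤ (P.filter (fun j => (n + t j).Prime)).card then w n else 0)) := by
    intro n hn
    rw [mem_Icc] at hn
    have hnu := nu_nonneg X W a0 n
    have hl : 0 ≤ Real.log (4 * X) := Real.log_nonneg (by linarith)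
    have hn3 : (n : ℝ) ≤ 3 * X := (Nat.le_floor_iff (by positivity)).1 hn.2
    have e1 : ∑ i ∈ P, th (n + t i) ≤ Real.log (4 * X) * ((P.filter (fun j => (n + t j).Prime)).card : ℝ) := by
      rw [card_filter]
      push_cast
      rw [mul_sum]
      apply sum_le_sum
      intro i hi
      unfold th
      split_ifs with hp
      · rw [mul_one]
        apply Real.log_le_log (by exact_mod_cast hp.pos)
        push_cast
        have := (hPF i (Or.inr hi)).2.1
        linarith
      · simp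
    have e2 : w n * (∑ i ∈ P, th (n + t i) - k * Real.log (4 * X)) ≤
        (K * Real.log (4 * X)) * (if k + 1 ≤ (P.filter (fun j => (n + t j).Prime)).card then w n else 0) := by
      split_ifs with hc
      · have e3 : ((P.filter (fun j => (n + t j).Prime)).card : ℝ) ≤ K := by
          have := card_filter_le P (fun j => (n + t j).Prime)
          rw [← hPK]
          exact_mod_cast this
        have e4 : ∑ i ∈ P, th (n + t i) - k * Real.log (4 * X) ≤ K * Real.log (4 * X) := by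
          have h0 : 0 ≤ (k : ℝ) * Real.log (4 * X) := mul_nonneg (Nat.cast_nonneg _) hl
          have h1' := mul_le_mul_of_nonneg_left e3 hl
          linarith only [h0, h1', e1]
        calc _ ≤ w n * (K * Real.log (4 * X)) := mul_le_mul_of_nonneg_left e4 (hw0 n)
          _ = _ := by ring
      · rw [mul_zero]
        apply mul_nonpos_of_nonneg_of_nonpos (hw0 n)
        have e3 : ((P.filter (fun j => (n + t j).Prime)).card : ℝ) ≤ k := by
          exact_mod_cast (by omega : (P.filter (fun j => (n + t j).Prime)).card ≤ k)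
        have h1' := mul_le_mul_of_nonneg_left e3 hl
        linarith only [h1', e1]
    calc _ ≤ nu X W a0 n * ((K * Real.log (4 * X)) * (if k + 1 ≤ (P.filter (fun j => (n + t j).Prime)).card then w n else 0)) :=
          mul_le_mul_of_nonneg_left e2 hnu
      _ = _ := by ring
  have s7 := sum_le_sum hpt
  rw [← mul_sum] at s7
  have s8 : ∑ n ∈ Icc 1 ⌊3 * X⌋₊, nu X W a0 n * (w n * (∑ i ∈ P, th (n + t i) - k * Real.log (4 * X))) =
      ∑ i ∈ P, ∑ n ∈ Icc 1 ⌊3 * X⌋₊, nu X W a0 n * (w n * th (n + t i)) -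
        k * Real.log (4 * X) * ∑ n ∈ Icc 1 ⌊3 * X⌋₊, nu X W a0 n * w n := by
    rw [sum_comm, mul_sum, ← sum_sub_distrib]
    apply sum_congr rfl
    intro n _
    rw [← mul_sum, ← mul_sum]
    ring
  rw [s8] at s7
  set S := ∑ n ∈ Icc 1 ⌊3 * X⌋₊, nu X W a0 n * (if k + 1 ≤ (P.filter (fun j => (n + t j).Prime)).card then w n else 0) with hS
  have hS0 : 0 ≤ S := sum_nonneg fun n _ => mul_nonneg (nu_nonneg _ _ _ _) (by split_ifs; exacts [hw0 n, le_rfl])
  have s9 : k * Real.log (4 * X) * ∑ n ∈ Icc 1 ⌊3 * X⌋₊, nu X W a0 n * w n ≤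
      800 * k * (LL X * Q) * I + 5 * k * (A.card : ℝ) ^ 2 * (Real.log (4 * X) * Real.exp (2 * LL X)) := by
    have e1 : (∑ n ∈ Icc 1 ⌊3 * X⌋₊, nu X W a0 n * w n) ≤ Q * (2 * I) + (A.card : ℝ) ^ 2 * (5 * Real.exp (2 * LL X)) := by
      refine s1.trans ?_
      rw [← hIdef]
      have : ε1 ≤ I := by
        refine hε1K.trans ?_
        rw [div_le_iff₀ hKpos]
        exact le_mul_of_one_le_right hI.le hK1'
      have h10 : Q * (I + ε1) ≤ Q * (2 * I) := mul_le_mul_of_nonneg_left (by linarith) hQ0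
      have h11 : MPhi X * (1 / (W:ℝ)) * (1 / LB X E) * (I + ε1) = Q * (I + ε1) := rfl
      rw [h11]
      linarith
    have hk0 : (0:ℝ) ≤ k := Nat.cast_nonneg k
    calc k * Real.log (4 * X) * ∑ n ∈ Icc 1 ⌊3 * X⌋₊, nu X W a0 n * w n ≤
        k * Real.log (4 * X) * (Q * (2 * I) + (A.card : ℝ) ^ 2 * (5 * Real.exp (2 * LL X))) :=
          mul_le_mul_of_nonneg_left e1 (by positivity)
      _ = k * Q * (2 * I) * Real.log (4 * X) + 5 * k * (A.card : ℝ) ^ 2 * (Real.log (4 * X) * Real.exp (2 * LL X)) := by ring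
      _ ≤ k * Q * (2 * I) * (400 * LL X) + 5 * k * (A.card : ℝ) ^ 2 * (Real.log (4 * X) * Real.exp (2 * LL X)) := by
          gcongr
      _ = _ := by ring
  have s10 : LL X * Q * (I / 2) ≤ K * Real.log (4 * X) * S := by
    have e1 : (LL X * Q / 800) * ((801 + 640000 * k) * I - I) = LL X * Q * I + 800 * k * (LL X * Q) * I := by ring
    have e2 : K * (A.card : ℝ) ^ 2 * err2 + 5 * k * (A.card : ℝ) ^ 2 * (Real.log (4 * X) * Real.exp (2 * LL X)) ≤
        I / 2 * (LL X * Q) := by
      refine le_trans ?_ s4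
      rw [hcE]
      exact alg1 (by positivity) (by positivity) herr0 (by positivity) rfl
    rw [e1] at s6
    linarith only [s6, s7, s9, e2]
  have s11 : Q * (I / (800 * K)) ≤ S := by
    have e1 : LL X * Q * (I / 2) ≤ K * (400 * LL X) * S := by
      refine s10.trans ?_
      gcongr
    have e2 : Q * (I / 2) ≤ K * 400 * S := by
      have : LL X * (Q * (I / 2)) ≤ LL X * (K * 400 * S) := by linarith
      exact le_of_mul_le_mul_left this hL0
    calc Q * (I / (800 * K)) = (Q * (I / 2)) / (400 * K) := by field_simp; ring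
      _ ≤ (K * 400 * S) / (400 * K) := by gcongr
      _ = S := by field_simp
  -- primes at the special companions
  have hcomp : ∀ j ∈ Cs, ∑ n ∈ Icc 1 ⌊3 * X⌋₊, nu X W a0 n * (if (n + t j).Prime then w n else 0) ≤
      2 * Q * (JJ f A j + ε1) + (A.card : ℝ) ^ 2 * err2 / (200 * LL X) := by
    intro j hj
    have k1 := s2 j (t j) (hPF j (Or.inl hj)).1 (hPF j (Or.inl hj)).2.1
    have k2 := (abs_le.1 k1).2
    have e2 := (hmain j (Or.inl hj)).2
    set M1 := LPhi X * (1 / (W.totient : ℝ)) * (1 / LB X (fun i => E (j.succAbove i))) with hM1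
    have hlogX : Real.log X = 200 * LL X := by unfold LL; ring
    have k3 : Real.log X * ∑ n ∈ Icc 1 ⌊3 * X⌋₊, nu X W a0 n * (if (n + t j).Prime then w n else 0) ≤
        ∑ n ∈ Icc 1 ⌊3 * X⌋₊, nu X W a0 n * (w n * th (n + t j)) := by
      rw [mul_sum]
      apply sum_le_sum
      intro n _
      have hnu := nu_nonneg X W a0 n
      unfold th
      by_cases hp : (n + t j).Prime
      · rw [if_pos hp, if_pos hp]
        by_cases hnu0 : nu X W a0 n = 0
        · rw [hnu0]; simp
        · have hXn : X < n := by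
            by_contra hle
            push Not at hle
            apply hnu0
            unfold nu
            rw [Phi_eq_zero_of_le (by positivity) (by rw [div_le_one (by linarith)]; exact hle), ite_self]
          have h10 : Real.log X ≤ Real.log ((n + t j : ℕ) : ℝ) := by
            apply Real.log_le_log hX0
            push_cast
            have : (0:ℝ) ≤ t j := Nat.cast_nonneg _
            linarith
          have h11 := mul_le_mul_of_nonneg_left h10 (mul_nonneg hnu (hw0 n))
          calc Real.log X * (nu X W a0 n * w n) = nu X W a0 n * w n * Real.log X := by ring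
            _ ≤ nu X W a0 n * w n * Real.log ((n + t j : ℕ) : ℝ) := h11
            _ = _ := by ring
      · rw [if_neg hp, if_neg hp]; simp
    have hJ0 : 0 ≤ JJ f A j + ε1 := by
      have := (hJC j (hCs j hj)).1
      linarith
    have k4 : Real.log X * ∑ n ∈ Icc 1 ⌊3 * X⌋₊, nu X W a0 n * (if (n + t j).Prime then w n else 0) ≤
        400 * (LL X * Q) * (JJ f A j + ε1) + (A.card : ℝ) ^ 2 * err2 := by
      have := mul_le_mul_of_nonneg_right e2 hJ0
      have e5 : M1 * (JJ f A j + ε1) = M1 * JJ f A j + M1 * ε1 := by ring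
      rw [e5] at this
      linarith only [this, k2, k3]
    rw [hlogX, mul_comm, ← le_div_iff₀ (by positivity)] at k4
    refine k4.trans (le_of_eq ?_)
    field_simp
    ring
  have hCard : (Cs.card : ℝ) ≤ R := by
    have h1 : Cs.card ≤ (range R).card := by
      apply card_le_card_of_injOn (fun j : Fin (R + K1 + 1) => (j : ℕ))
      · intro j hj
        rw [mem_coe, mem_range]
        exact hCs j hj
      · intro a _ b _ hab
        exact Fin.ext hab
    rw [card_range] at h1
    exact_mod_cast h1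
  have hJsum : ∑ j ∈ Cs, JJ f A j ≤ ε * I := by
    rcases Cs.eq_empty_or_nonempty with h0 | ⟨j0, hj0⟩
    · rw [h0, sum_empty]; positivity
    · have hR0 : (0:ℝ) < R := by
        have := hCs j0 hj0
        exact_mod_cast (by omega : 0 < R)
      have h1 : ∑ j ∈ Cs, JJ f A j ≤ Cs.card • (ε * I / R) := by
        apply sum_le_card_nsmul
        intro j hj
        rw [le_div_iff₀ hR0, mul_comm]
        exact (hJC j (hCs j hj)).2
      refine h1.trans ?_
      rw [nsmul_eq_mul]
      calc (Cs.card : ℝ) * (ε * I / R) ≤ R * (ε * I / R) := mul_le_mul_of_nonneg_right hCard (by positivity)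
        _ = ε * I := by field_simp
  have s20 : ∑ j ∈ Cs, ∑ n ∈ Icc 1 ⌊3 * X⌋₊, nu X W a0 n * (if (n + t j).Prime then w n else 0) ≤
      2 * (I / (3200 * K) * Q) := by
    refine (sum_le_sum fun j hj => hcomp j hj).trans ?_
    rw [sum_add_distrib, sum_const, nsmul_eq_mul, ← mul_sum, sum_add_distrib, sum_const, nsmul_eq_mul]
    have e1 : (Cs.card : ℝ) * ε1 ≤ ε * I := (mul_le_mul_of_nonneg_right hCard hε1pos.le).trans hε1R
    have e2 : (Cs.card : ℝ) * ((A.card : ℝ) ^ 2 * err2 / (200 * LL X)) ≤ I / (3200 * K) * Q := by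
      have e3 : cR * err2 ≤ I / (3200 * K) * (LL X * Q) := by
        have e4 : 0 ≤ Real.log (4 * X) * Real.exp (2 * LL X) := mul_nonneg hl40 (Real.exp_pos _).le
        have e5 : 0 ≤ cR := by rw [hcR]; positivity
        have e7 : cR * err2 ≤ cR * (err2 + Real.log (4 * X) * Real.exp (2 * LL X)) :=
          mul_le_mul_of_nonneg_left (by linarith only [e4]) e5
        exact e7.trans s4b
      have e6 : (Cs.card : ℝ) * ((A.card : ℝ) ^ 2 * err2 / (200 * LL X)) ≤ cR * err2 / LL X := by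
        calc (Cs.card : ℝ) * ((A.card : ℝ) ^ 2 * err2 / (200 * LL X)) ≤
            R * ((A.card : ℝ) ^ 2 * err2 / (200 * LL X)) := mul_le_mul_of_nonneg_right hCard (by positivity)
          _ = _ := by rw [hcR]; field_simp
      refine e6.trans ?_
      rw [div_le_iff₀ hL0]
      linarith
    have e7 : 2 * Q * (∑ j ∈ Cs, JJ f A j + (Cs.card : ℝ) * ε1) ≤ I / (3200 * K) * Q := by
      calc 2 * Q * (∑ j ∈ Cs, JJ f A j + (Cs.card : ℝ) * ε1) ≤ 2 * Q * (ε * I + ε * I) := by
            apply mul_le_mul_of_nonneg_left _ (by positivity)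
            linarith only [hJsum, e1]
        _ = I / (3200 * K) * Q := by rw [hεdef]; field_simp; ring
    linarith only [e7, e2]
  -- remove the non rough part
  have s12 : S ≤ ∑ n ∈ Icc 1 ⌊3 * X⌋₊, nu X W a0 n *
        (if (k + 1 ≤ (P.filter (fun j => (n + t j).Prime)).card) ∧ (∀ j ∈ Cs, ¬ (n + t j).Prime) ∧
            (∀ j, RgG δ X (E j) (cc j * (n : ℤ) + h j)) then w n else 0) +
      ∑ n ∈ Icc 1 ⌊3 * X⌋₊, ∑ j ∈ Cs, nu X W a0 n * (if (n + t j).Prime then w n else 0) +
      ∑ n ∈ Icc 1 ⌊3 * X⌋₊, ∑ j : Fin (R + K1 + 1), ∑ p ∈ (PS δ X).filter (fun p => p ∉ E j),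
        nu X W a0 n * (if (p : ℤ) ∣ cc j * (n : ℤ) + h j then w n else 0) := by
    rw [hS, ← sum_add_distrib, ← sum_add_distrib]
    apply sum_le_sum
    intro n _
    have hnu := nu_nonneg X W a0 n
    have hterm : ∀ (j : Fin (R + K1 + 1)) (p : ℕ), 0 ≤ nu X W a0 n * (if (p : ℤ) ∣ cc j * (n : ℤ) + h j then w n else 0) := by
      intro j p
      apply mul_nonneg hnu
      split_ifs
      · exact hw0 n
      · exact le_rfl
    have hterm2 : ∀ (j : Fin (R + K1 + 1)), 0 ≤ nu X W a0 n * (if (n + t j).Prime then w n else 0) := by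
      intro j
      apply mul_nonneg hnu
      split_ifs
      · exact hw0 n
      · exact le_rfl
    have hnn : 0 ≤ ∑ j : Fin (R + K1 + 1), ∑ p ∈ (PS δ X).filter (fun p => p ∉ E j), nu X W a0 n * (if (p : ℤ) ∣ cc j * (n : ℤ) + h j then w n else 0) := by
      apply sum_nonneg; intro j _
      apply sum_nonneg; intro p _
      exact hterm j p
    have hnn2 : 0 ≤ ∑ j ∈ Cs, nu X W a0 n * (if (n + t j).Prime then w n else 0) :=
      sum_nonneg fun j _ => hterm2 j
    by_cases h10 : k + 1 ≤ (P.filter (fun j => (n + t j).Prime)).card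
    · by_cases h10b : ∀ j ∈ Cs, ¬ (n + t j).Prime
      · by_cases h11 : ∀ j, RgG δ X (E j) (cc j * (n : ℤ) + h j)
        · rw [if_pos h10, if_pos ⟨h10, h10b, h11⟩]
          linarith only [hnn, hnn2]
        · rw [if_pos h10, if_neg (fun h => h11 h.2.2), mul_zero, zero_add]
          unfold RgG at h11
          push Not at h11
          obtain ⟨j, p, hp, hpE, hpd⟩ := h11
          have e1 : nu X W a0 n * w n = nu X W a0 n * (if (p : ℤ) ∣ cc j * (n : ℤ) + h j then w n else 0) := by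
            rw [if_pos hpd]
          rw [e1]
          have e2 := single_le_sum (f := fun p : ℕ => nu X W a0 n * (if (p : ℤ) ∣ cc j * (n : ℤ) + h j then w n else 0))
            (fun p _ => hterm j p) (mem_filter.2 ⟨hp, hpE⟩ : p ∈ (PS δ X).filter (fun p => p ∉ E j))
          have e3 := single_le_sum (f := fun j => ∑ p ∈ (PS δ X).filter (fun p => p ∉ E j), nu X W a0 n * (if (p : ℤ) ∣ cc j * (n : ℤ) + h j then w n else 0))
            (fun j _ => sum_nonneg fun p _ => hterm j p) (mem_univ j)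
          linarith only [e2, e3, hnn2]
      · rw [if_pos h10, if_neg (fun h => h10b h.2.1), mul_zero, zero_add]
        push Not at h10b
        obtain ⟨j, hj, hpj⟩ := h10b
        have e1 : nu X W a0 n * w n = nu X W a0 n * (if (n + t j).Prime then w n else 0) := by rw [if_pos hpj]
        rw [e1]
        have e2 := single_le_sum (f := fun j => nu X W a0 n * (if (n + t j).Prime then w n else 0))
          (fun j _ => hterm2 j) hj
        linarith only [e2, hnn]
    · rw [if_neg h10, if_neg (fun h => h10 h.1), mul_zero, zero_add]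
      linarith only [hnn, hnn2]
  rw [sum_comm (s := Icc 1 ⌊3 * X⌋₊) (t := Cs)] at s12
  have s13 : C * δ * Q ≤ I / (3200 * K) * Q := mul_le_mul_of_nonneg_right hδC hQ0
  have s14 : Q * (I / (800 * K)) = 4 * (I / (3200 * K) * Q) := by field_simp; ring
  have s5' : ∑ n ∈ Icc 1 ⌊3 * X⌋₊, ∑ j : Fin (R + K1 + 1), ∑ p ∈ (PS δ X).filter (fun p => p ∉ E j),
        nu X W a0 n * (if (p : ℤ) ∣ cc j * (n : ℤ) + h j then w n else 0) ≤ C * δ * Q := s5
  linarith only [s11, s12, s20, s13, s14, s5']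

end Pool.Agent.Y848.UG
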