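import Pool.Agent.Y848.UG.Pos

set_option autoImplicit false

/-! # Many `n` without weights, and the upper bound sieve -/

open Finset Filter Topology
open scoped ContDiff

namespace Pool.Agent.Y848.UG

open Pool.Agent.H378R2 Pool.Agent.H387R2.MB

lemma rgG_prime {δ X : ℝ} {E : Finset ℕ} {m : ℤ} {p : ℕ} (h : RgG δ X E m) (hp : p.Prime) (hpE : p ∉ E)
    (hpm : (p : ℤ) ∣ m) : Real.exp (δ * LL X) < p := by
  by_contra hle
  push Not at hle
  exact h p (mem_PS.2 ⟨hp, hle⟩) hpE hpm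

/-- a good excluded set misses a small prime -/
lemma exists_out {δ : ℝ} (hδ : 0 < δ) (z : ℕ) : ∀ᶠ X : ℝ in atTop, ∀ E : Finset ℕ, GE X z E →
    ∃ p ∈ PS δ X, p ∉ E := by
  obtain ⟨C1, hC1⟩ := Pool.Agent.Erdos456.Mert.mertens_log
  have h4 : Tendsto (fun X : ℝ => (LL X) ^ (1 / 4 : ℝ)) atTop atTop :=
    (tendsto_rpow_atTop (by norm_num)).comp LL_tendsto
  have h1 : ∀ᶠ X : ℝ in atTop, (LL X) ^ (1 / 4 : ℝ) + |C1| + 1 < δ * LL X := by
    have e0 : Tendsto (fun X : ℝ => (LL X) ^ (3 / 4 : ℝ)) atTop atTop :=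
      (tendsto_rpow_atTop (by norm_num)).comp LL_tendsto
    filter_upwards [e0.eventually_ge_atTop (2 / δ), LL_tendsto.eventually_gt_atTop (2 * (|C1| + 1) / δ),
      LL_tendsto.eventually_gt_atTop 0] with X h2 h3 h4
    have h5 : (LL X) ^ (1 / 4 : ℝ) * (LL X) ^ (3 / 4 : ℝ) = LL X := by
      rw [← Real.rpow_add h4]; norm_num
    have h6 : 0 < (LL X) ^ (1 / 4 : ℝ) := Real.rpow_pos_of_pos h4 _
    have h7 : (LL X) ^ (1 / 4 : ℝ) ≤ δ / 2 * LL X := by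
      rw [div_le_iff₀ hδ] at h2
      have h8 := mul_le_mul_of_nonneg_left h2 h6.le
      have h9 : (LL X) ^ (1 / 4 : ℝ) * ((LL X) ^ (3 / 4 : ℝ) * δ) = LL X * δ := by rw [← mul_assoc, h5]
      linarith
    rw [div_lt_iff₀ hδ] at h3
    linarith
  filter_upwards [h1, LL_tendsto.eventually_ge_atTop 1] with X h2 h3
  intro E hGE
  by_contra hcon
  push Not at hcon
  have hL0 : 0 < LL X := by linarith
  have hN1 : 1 ≤ ⌊Real.exp (δ * LL X)⌋₊ := by
    apply Nat.le_floor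
    rw [Nat.cast_one]
    exact Real.one_le_exp (by positivity)
  have h5 := (abs_le.1 (hC1 _ hN1)).1
  have h6 : ∑ p ∈ PS δ X, Real.log p / p ≤ ∑ p ∈ E, Real.log p / p :=
    sum_le_sum_of_subset_of_nonneg hcon fun p _ _ => div_nonneg (Real.log_natCast_nonneg p) (Nat.cast_nonneg p)
  have h7 : δ * LL X - 1 ≤ Real.log (⌊Real.exp (δ * LL X)⌋₊ : ℝ) := by
    have h8 : Real.exp (δ * LL X) / 2 ≤ (⌊Real.exp (δ * LL X)⌋₊ : ℝ) := by
      have h9 := Nat.lt_floor_add_one (Real.exp (δ * LL X))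
      have h10 : (1 : ℝ) ≤ (⌊Real.exp (δ * LL X)⌋₊ : ℝ) := by exact_mod_cast hN1
      linarith
    have h9 := Real.log_le_log (by positivity) h8
    rw [Real.log_div (Real.exp_pos _).ne' (by norm_num), Real.log_exp] at h9
    have := Real.log_two_lt_d9
    linarith
  have h8 : ∑ p ∈ PS δ X, Real.log p / p = ∑ p ∈ Pool.Agent.Erdos456.Mert.PP ⌊Real.exp (δ * LL X)⌋₊, Real.log p / p := rfl
  have h9 := hGE.s1
  have h10 := le_abs_self C1
  rw [← h8] at h5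
  linarith

lemma rgG_ne {δ X : ℝ} {E : Finset ℕ} (hE : ∃ p ∈ PS δ X, p ∉ E) {m : ℤ} (h : RgG δ X E m) : m ≠ 0 := by
  rintro rfl
  obtain ⟨p, hp, hpE⟩ := hE
  exact h p hp hpE (dvd_zero _)

lemma rgG_omega {δ X A : ℝ} (hδ : 0 < δ) (hX : 1 < X) {E : Finset ℕ} {m : ℤ} (hm : m ≠ 0)
    (hmX : |(m : ℝ)| ≤ X ^ A) (h : RgG δ X E m) :
    (m.natAbs.primeFactors.filter (fun p => p ∉ E)).card ≤ ⌈200 * A / δ⌉₊ := by
  have hlog : 0 < Real.log X := Real.log_pos hX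
  have hL0 : 0 < LL X := by unfold LL; positivity
  have hm1 : 1 ≤ m.natAbs := Nat.one_le_iff_ne_zero.2 (Int.natAbs_ne_zero.2 hm)
  have h1 : Real.exp (δ * LL X) ^ (m.natAbs.primeFactors.filter (fun p => p ∉ E)).card ≤
      ((∏ p ∈ m.natAbs.primeFactors.filter (fun p => p ∉ E), p : ℕ) : ℝ) := by
    push_cast
    rw [← prod_const]
    apply Finset.prod_le_prod
    · intro p _; exact (Real.exp_pos _).le
    · intro p hp
      rw [mem_filter] at hp
      exact (rgG_prime h (Nat.prime_of_mem_primeFactors hp.1) hp.2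
        (Int.natCast_dvd.2 (Nat.dvd_of_mem_primeFactors hp.1))).le
  have h2 : ((∏ p ∈ m.natAbs.primeFactors.filter (fun p => p ∉ E), p : ℕ) : ℝ) ≤ X ^ A := by
    have h3 : ∏ p ∈ m.natAbs.primeFactors.filter (fun p => p ∉ E), p ∣ m.natAbs :=
      (prod_dvd_prod_of_subset _ _ _ (filter_subset _ _)).trans (Nat.prod_primeFactors_dvd _)
    have h4 : ((∏ p ∈ m.natAbs.primeFactors.filter (fun p => p ∉ E), p : ℕ) : ℝ) ≤ (m.natAbs : ℝ) := by
      exact_mod_cast Nat.le_of_dvd hm1 h3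
    have h5 : (m.natAbs : ℝ) = |(m : ℝ)| := by rw [Nat.cast_natAbs, Int.cast_abs]
    linarith
  have h3 := h1.trans h2
  rw [← Real.exp_nat_mul] at h3
  have h4 := Real.log_le_log (Real.exp_pos _) h3
  rw [Real.log_exp, Real.log_rpow (by linarith)] at h4
  have hlogX : Real.log X = 200 * LL X := by unfold LL; ring
  rw [hlogX] at h4
  have h6 : ((m.natAbs.primeFactors.filter (fun p => p ∉ E)).card : ℝ) ≤ 200 * A / δ := by
    rw [le_div_iff₀ hδ]
    have : ((m.natAbs.primeFactors.filter (fun p => p ∉ E)).card * δ) * LL X ≤ (200 * A) * LL X := by linarith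
    exact le_of_mul_le_mul_right this hL0
  exact_mod_cast h6.trans (Nat.le_ceil _)

lemma card_sqf_divE {m : ℕ} (hm : m ≠ 0) (E : Finset ℕ) (R : ℕ) :
    ((adm E R).filter (fun d => d ∣ m)).card ≤ 2 ^ (m.primeFactors.filter (fun p => p ∉ E)).card := by
  rw [← card_powerset]
  apply card_le_card_of_injOn (fun d => d.primeFactors)
  · intro d hd
    rw [mem_coe, mem_filter, mem_adm] at hd
    rw [mem_coe, mem_powerset]
    intro p hp
    rw [mem_filter]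
    refine ⟨Nat.primeFactors_mono hd.2 hm hp, fun hpE => ?_⟩
    have hpp := Nat.prime_of_mem_primeFactors hp
    exact hd.1.2.2 p hpE hpp (Nat.dvd_of_mem_primeFactors hp)
  · intro d hd e he hde
    rw [mem_coe, mem_filter, mem_adm] at hd he
    beta_reduce at hde
    rw [← Nat.prod_primeFactors_of_squarefree hd.1.2.1, ← Nat.prod_primeFactors_of_squarefree he.1.2.1, hde]

lemma VV_rgG_le {δ X A : ℝ} (hδ : 0 < δ) (hX : 1 < X) {E : Finset ℕ} {m : ℤ} (hm : m ≠ 0)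
    (hmX : |(m : ℝ)| ≤ X ^ A) (h : RgG δ X E m) (R : ℕ) (F : ℝ → ℝ) (hF : ∀ x, |F x| ≤ 1) :
    |VVm E R (LL X) F m| ≤ 2 ^ ⌈200 * A / δ⌉₊ := by
  classical
  unfold VVm
  refine (abs_sum_le_sum_abs _ _).trans ?_
  have h1 : ∀ d ∈ adm E R, |if (d : ℤ) ∣ m then ((ArithmeticFunction.moebius d : ℤ) : ℝ) * F (Real.log d / LL X) else 0| ≤
      if d ∣ m.natAbs then 1 else 0 := by
    intro d _
    by_cases hd : (d : ℤ) ∣ m
    · rw [if_pos hd, if_pos (Int.natCast_dvd.1 hd), abs_mul]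
      have hm : |((ArithmeticFunction.moebius d : ℤ) : ℝ)| ≤ 1 := by
        rw [← Int.cast_abs]
        exact_mod_cast ArithmeticFunction.abs_moebius_le_one
      calc |((ArithmeticFunction.moebius d : ℤ) : ℝ)| * |F (Real.log d / LL X)| ≤ 1 * 1 := by
            apply mul_le_mul hm (hF _) (abs_nonneg _) zero_le_one
        _ = 1 := one_mul 1
    · rw [if_neg hd, if_neg (fun h => hd (Int.natCast_dvd.2 h)), abs_zero]
  refine (sum_le_sum h1).trans ?_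
  rw [← sum_filter, sum_const, nsmul_eq_mul, mul_one]
  calc (((adm E R).filter (fun d => d ∣ m.natAbs)).card : ℝ) ≤ 2 ^ (m.natAbs.primeFactors.filter (fun p => p ∉ E)).card := by
        exact_mod_cast card_sqf_divE (Int.natAbs_ne_zero.2 hm) E R
    _ ≤ 2 ^ ⌈200 * A / δ⌉₊ := pow_le_pow_right₀ (by norm_num) (rgG_omega hδ hX hm hmX h)

/-- good `n` -/
def GdG {R K1 : ℕ} (k : ℕ) (δ X : ℝ) (E : Fin (R + K1 + 1) → Finset ℕ) (cc : Fin (R + K1 + 1) → ℕ)
    (h : Fin (R + K1 + 1) → ℤ) (t : Fin (R + K1 + 1) → ℕ) (Cs : Finset (Fin (R + K1 + 1))) (n : ℕ) : Prop :=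
  (k + 1 ≤ ((PA R K1).filter (fun j => (n + t j).Prime)).card) ∧
    (∀ j ∈ Cs, ¬ (n + t j).Prime) ∧ (∀ j, RgG δ X (E j) (cc j * (n : ℤ) + h j))

open Classical in
/-- many good `n`, counted without weight -/
theorem posUG (k : ℕ) : ∃ K1 : ℕ, ∀ R m₀ : ℕ, 1 ≤ m₀ → ∃ δ : ℝ, 0 < δ ∧ δ ≤ 1 / 10 ∧ ∃ z : ℕ, ∀ A : ℝ,
    ∃ c0 : ℝ, 0 < c0 ∧ ∀ᶠ X : ℝ in atTop,
    ∀ (W V : ℕ) (E : Fin (R + K1 + 1) → Finset ℕ) (a0 : ℕ) (cc : Fin (R + K1 + 1) → ℕ)
      (h : Fin (R + K1 + 1) → ℤ) (t : Fin (R + K1 + 1) → ℕ)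
      (Cs : Finset (Fin (R + K1 + 1))), (∀ j, GS X z (E j)) →
      W = m₀ * V → Squarefree V → (W : ℝ) ≤ Real.log X ^ 3 → FS W E cc h →
      (∀ j ∈ Cs, (j : ℕ) < R) →
      (∀ j, (j ∈ Cs ∨ j ∈ PA R K1) → PF W E cc h a0 j (t j) ∧ (t j : ℝ) ≤ Real.sqrt X ∧
        (W.totient : ℝ) = W * BE (E j)) →
      (∀ j, ∀ n : ℕ, (n : ℝ) ≤ 3 * X → |((cc j * (n : ℤ) + h j : ℤ) : ℝ)| ≤ X ^ A) →
      c0 * QG X W E ≤ ∑ n ∈ Icc 1 ⌊3 * X⌋₊, nu X W a0 n * (if GdG k δ X E cc h t Cs n then 1 else 0) := by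
  obtain ⟨K1, hpos⟩ := positivityA k
  refine ⟨K1, fun R m₀ hm₀ => ?_⟩
  obtain ⟨B, f, Af, hf1, δ, hδ, hδ1, c0, hc0, z, hp⟩ := hpos R m₀ hm₀
  refine ⟨δ, hδ, hδ1, z, fun A => ?_⟩
  set D : ℝ := ((Af.card : ℝ) * (2 ^ ⌈200 * A / δ⌉₊) ^ (R + K1 + 1)) ^ 2 + 1 with hD
  have hD0 : 0 < D := by positivity
  refine ⟨c0 / D, by positivity, ?_⟩
  filter_upwards [hp, eventually_gt_atTop 4, LL_tendsto.eventually_ge_atTop 1, exists_out hδ z] with X h1 h4 h6 hout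
  intro W V E a0 cc h t Cs hGS hWV hVsq hWlog hFS hCs hPF hval
  have h2 := h1 W V E a0 cc h t Cs hGS hWV hVsq hWlog hFS hCs hPF
  rw [div_mul_eq_mul_div, div_le_iff₀ hD0, sum_mul]
  refine h2.trans ?_
  apply sum_le_sum
  intro n hn
  rw [mem_Icc] at hn
  have hn3 : (n : ℝ) ≤ 3 * X := (Nat.le_floor_iff (by linarith)).1 hn.2
  have hnu := nu_nonneg X W a0 n
  rw [mul_assoc]
  apply mul_le_mul_of_nonneg_left _ hnu
  by_cases hc : GdG k δ X E cc h t Cs n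
  · have hc' := hc
    unfold GdG at hc'
    rw [if_pos hc, if_pos hc', one_mul]
    have hV : ∀ (j : Fin (R + K1 + 1)) (l : Fin B), |VVm (E j) (RR X) (LL X) (f l) (cc j * (n : ℤ) + h j)| ≤ 2 ^ ⌈200 * A / δ⌉₊ := by
      intro j l
      exact VV_rgG_le hδ (by linarith) (rgG_ne (hout (E j) ((hGS j).toGE h6)) (hc'.2.2 j)) (hval j n hn3)
        (hc'.2.2 j) _ _ (hf1 l)
    have habs : |sqwG E X f Af (fun j => cc j * (n : ℤ) + h j)| ≤ (Af.card : ℝ) * (2 ^ ⌈200 * A / δ⌉₊) ^ (R + K1 + 1) := by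
      unfold sqwG
      refine (abs_sum_le_sum_abs _ _).trans ?_
      rw [← nsmul_eq_mul]
      apply sum_le_card_nsmul
      intro a _
      rw [abs_prod]
      calc ∏ j : Fin (R + K1 + 1), |VVm (E j) (RR X) (LL X) (f (a j)) (cc j * (n : ℤ) + h j)| ≤
            ∏ _j : Fin (R + K1 + 1), (2:ℝ) ^ ⌈200 * A / δ⌉₊ :=
            Finset.prod_le_prod (fun j _ => abs_nonneg _) (fun j _ => hV j (a j))
        _ = _ := by rw [prod_const, card_univ, Fintype.card_fin]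
    have hsqw : sqwG E X f Af (fun j => cc j * (n : ℤ) + h j) ^ 2 ≤ ((Af.card : ℝ) * (2 ^ ⌈200 * A / δ⌉₊) ^ (R + K1 + 1)) ^ 2 := by
      rw [← sq_abs]
      exact pow_le_pow_left₀ (abs_nonneg _) habs 2
    rw [hD]
    linarith
  · have hc' : ¬ ((k + 1 ≤ ((PA R K1).filter (fun j => (n + t j).Prime)).card) ∧
      (∀ j ∈ Cs, ¬ (n + t j).Prime) ∧ (∀ j, RgG δ X (E j) (cc j * (n : ℤ) + h j))) := hc
    rw [if_neg hc, if_neg hc', zero_mul]

lemma VV_rgG_eq {δ X s : ℝ} {E : Finset ℕ} (hs0 : 0 < s) (hsδ : s ≤ δ) (hL : 1 ≤ LL X) {m : ℤ}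
    (h : RgG δ X E m) (R : ℕ) (hR : 1 ≤ R) :
    VVm E R (LL X) (hs s) m = 1 := by
  have hL0 : 0 < LL X := by linarith
  unfold VVm
  rw [sum_eq_single 1]
  · simp [hs_at_zero]
  · intro d hd hne
    rw [mem_adm] at hd
    by_cases hdm : (d : ℤ) ∣ m
    · rw [if_pos hdm]
      obtain ⟨p, hp, hpd⟩ := Nat.exists_prime_and_dvd hne
      have hpE : p ∉ E := fun hE => hd.2.2 p hE hp hpd
      have h1 := rgG_prime h hp hpE ((Int.natCast_dvd_natCast.2 hpd).trans hdm)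
      have h2 : (p : ℝ) ≤ d := by exact_mod_cast Nat.le_of_dvd hd.1.1 hpd
      have h3 : δ * LL X ≤ Real.log d := by
        have h4 : Real.exp (δ * LL X) ≤ d := by linarith
        have := Real.log_le_log (Real.exp_pos _) h4
        rwa [Real.log_exp] at this
      have h5 : s ≤ |Real.log d / LL X| := by
        refine le_trans ?_ (le_abs_self _)
        rw [le_div_iff₀ hL0]
        nlinarith
      rw [hs_zero hs0 h5, mul_zero]
    · rw [if_neg hdm]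
  · intro h1
    exfalso
    apply h1
    rw [mem_adm]
    refine ⟨⟨le_rfl, hR⟩, squarefree_one, fun p _ hp h2 => hp.one_lt.ne' (Nat.dvd_one.1 h2)⟩

open Classical in
/-- few `n` with all forms free of small prime factors -/
theorem rough_upG (J : ℕ) {δ : ℝ} (hδ : 0 < δ) : ∃ C : ℝ, 0 < C ∧ ∃ z : ℕ, ∀ᶠ X : ℝ in atTop,
    ∀ (W : ℕ) (E : Fin J → Finset ℕ) (a0 : ℕ) (cc : Fin J → ℕ) (h : Fin J → ℤ), (∀ j, GE X z (E j)) → 0 < W →
      (W : ℝ) * Real.exp (LL X * 2) ≤ X → FS W E cc h →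
      ∑ n ∈ Icc 1 ⌊3 * X⌋₊, nu X W a0 n * (if ∀ j, RgG δ X (E j) (cc j * (n : ℤ) + h j) then 1 else 0) ≤
        C * QG X W E + 5 * Real.exp (2 * LL X) := by
  set s : ℝ := min δ (1 / (J + 2)) with hs_def
  have hs0 : 0 < s := lt_min hδ (by positivity)
  have hsδ : s ≤ δ := min_le_left _ _
  have hsJ : s ≤ 1 / (J + 2) := min_le_right _ _
  have hs2 : s ≤ 1 / 2 := by
    refine hsJ.trans ?_
    apply one_div_le_one_div_of_le (by norm_num)
    have : (0:ℝ) ≤ J := Nat.cast_nonneg J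
    linarith
  obtain ⟨z, hz⟩ := asympE J (fun _ => hs s) (fun _ => hs s) (fun _ => hs_smooth s) (fun _ => hs_smooth s)
    (fun _ => hs_compact hs0) (fun _ => hs_compact hs0)
    (fun _ x hx => hs_zero hs0 ((hs2.trans hx.le).trans (le_abs_self x)))
    (fun _ x hx => hs_zero hs0 ((hs2.trans hx.le).trans (le_abs_self x))) 1 one_pos
  refine ⟨|∏ _j : Fin J, DD (hs s) (hs s)| + 1, by positivity, z, ?_⟩
  filter_upwards [hz, eventually_ge_atTop 4, LL_tendsto.eventually_ge_atTop 1] with X h1 h4 h6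
  intro W E a0 cc h hGE hW hWX hFS
  have hLB : 0 < LB X E := LB_pos (by linarith) fun j => (hGE j).pr
  have hMnn : 0 ≤ MPhi X := MPhi_nonneg X
  have hWr : (0 : ℝ) < W := by exact_mod_cast hW
  have hsum : ∑ _j : Fin J, s + ∑ _j : Fin J, s ≤ 2 := by
    rw [sum_const, card_univ, Fintype.card_fin, nsmul_eq_mul]
    have : (J : ℝ) * s ≤ 1 := by
      calc (J : ℝ) * s ≤ J * (1 / (J + 2)) := by gcongr
        _ ≤ 1 := by
            rw [mul_one_div, div_le_one (by positivity)]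
            linarith
    linarith
  have k1 := S1prodH (fun _ => hs s) (fun _ => hs s) (fun _ => s) (fun _ => s) 1 zero_le_one
    (fun _ x => hs_abs_le s x) (fun _ x => hs_abs_le s x)
    (fun _ x hx => hs_zero hs0 (hx.le.trans (le_abs_self x)))
    (fun _ x hx => hs_zero hs0 (hx.le.trans (le_abs_self x))) hsum h4 h6 hW hWX a0 hFS
  rw [one_pow, mul_one] at k1
  have k2 := h1 E (fun p _ => 1 / (p : ℝ)) hGE (fun _ p _ => w_one p)
  have k4 := (abs_le.1 k1).2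
  have k5 := (abs_le.1 k2).2
  set SS := sieveSum J (fun _ => hs s) (fun _ => hs s) (LL X) E (fun p _ => 1 / (p : ℝ)) (RR X)
  have k6 : SS ≤ (1 / LB X E) * (|∏ _j : Fin J, DD (hs s) (hs s)| + 1) := by
    rw [one_div, ← div_eq_inv_mul, le_div_iff₀ (by positivity)]
    have := le_abs_self (∏ _j : Fin J, DD (hs s) (hs s))
    unfold LB
    linarith
  have k7 : MPhi X * (1 / (W : ℝ)) * SS ≤ (MPhi X * (1 / (W : ℝ))) * ((1 / LB X E) *
      (|∏ _j : Fin J, DD (hs s) (hs s)| + 1)) :=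
    mul_le_mul_of_nonneg_left k6 (by positivity)
  have hR : 1 ≤ RR X := by
    unfold RR
    apply Nat.le_floor
    rw [Nat.cast_one]
    exact Real.one_le_exp (by linarith)
  have k8 : ∀ n ∈ Icc 1 ⌊3 * X⌋₊, nu X W a0 n * (if ∀ j, RgG δ X (E j) (cc j * (n : ℤ) + h j) then 1 else 0) ≤
      nu X W a0 n * ∏ j, (VVm (E j) (RR X) (LL X) (hs s) (cc j * (n : ℤ) + h j) *
        VVm (E j) (RR X) (LL X) (hs s) (cc j * (n : ℤ) + h j)) := by
    intro n _
    apply mul_le_mul_of_nonneg_left _ (nu_nonneg X W a0 n)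
    split_ifs with hc
    · refine le_of_eq (Eq.symm ?_)
      apply prod_eq_one
      intro j _
      rw [VV_rgG_eq hs0 hsδ h6 (hc j) _ hR, one_mul]
    · exact prod_nonneg fun j _ => mul_self_nonneg _
  refine (sum_le_sum k8).trans ?_
  unfold QG
  have e1 : (|∏ _j : Fin J, DD (hs s) (hs s)| + 1) * (MPhi X * (1 / (W:ℝ)) * (1 / LB X E)) =
    (MPhi X * (1 / (W : ℝ))) * ((1 / LB X E) * (|∏ _j : Fin J, DD (hs s) (hs s)| + 1)) := by ring
  rw [e1]
  linarith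

end Pool.Agent.Y848.UG
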