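import Pool.Agent.Y848.UG.PosU
import Pool.Agent.Y848.UG.GSf

set_option autoImplicit false

/-! # From an admissible system of linear forms to the sieve configuration -/

open Finset

namespace Pool.Agent.Y848.UG

open Pool.Agent.H378R2 Pool.Agent.H387R2.MB
open Pool.Agent.H387R2 (Uni.WW Uni.WW_pos)

/-- an admissible system: the forms `a_l x + b_l`, `l ≤ r`, the last one being `x` -/
structure Sys (r : ℕ) (a : ℕ → ℕ) (b : ℕ → ℤ) : Prop where
  ar : a r = 1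
  br : b r = 0
  pos : ∀ l ≤ r, 1 ≤ a l
  dist : ∀ l ≤ r, ∀ l' ≤ r, l ≠ l' → ¬ (a l = a l' ∧ b l = b l')
  adm : ∀ p : ℕ, p.Prime → ∃ x : ℤ, ∀ l ≤ r, ¬ (p : ℤ) ∣ a l * x + b l

lemma Sys.prim {r : ℕ} {a : ℕ → ℕ} {b : ℕ → ℤ} (H : Sys r a b) {l : ℕ} (hl : l ≤ r) {p : ℕ} (hp : p.Prime)
    (h1 : p ∣ a l) : ¬ (p : ℤ) ∣ b l := by
  intro h2
  obtain ⟨x, hx⟩ := H.adm p hp
  exact hx l hl (dvd_add ((Int.natCast_dvd_natCast.2 h1).mul_right x) h2)

lemma Sys.cop {r : ℕ} {a : ℕ → ℕ} {b : ℕ → ℤ} (H : Sys r a b) {l : ℕ} (hl : l ≤ r) :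
    IsCoprime (a l : ℤ) (b l) := by
  rw [Int.isCoprime_iff_gcd_eq_one]
  by_contra hne
  obtain ⟨p, hp, hpd⟩ := Nat.exists_prime_and_dvd hne
  have h1 : (p : ℤ) ∣ a l := (Int.natCast_dvd_natCast.2 hpd).trans (Int.gcd_dvd_left _ _)
  have h2 : (p : ℤ) ∣ b l := (Int.natCast_dvd_natCast.2 hpd).trans (Int.gcd_dvd_right _ _)
  exact H.prim hl hp (Int.natCast_dvd_natCast.1 h1) h2

/-- coincidence of two shifted forms -/
lemma Sys.coinc {r : ℕ} {a : ℕ → ℕ} {b : ℕ → ℤ} (H : Sys r a b) {l l' : ℕ} (hl : l ≤ r) (hl' : l' ≤ r) (s s' : ℤ)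
    (h : (a l : ℤ) * (b l' + a l' * s') = a l' * (b l + a l * s)) :
    a l = a l' ∧ b l' - b l = a l * (s - s') := by
  have h1 : (a l : ℤ) * b l' - a l' * b l = a l * a l' * (s - s') := by linear_combination h
  have hd1 : (a l : ℤ) ∣ a l' := by
    have h2 : (a l : ℤ) ∣ a l' * b l := by
      have : (a l' : ℤ) * b l = a l * (b l' - a l' * (s - s')) := by linear_combination -h1
      rw [this]; exact Dvd.intro _ rfl
    exact (H.cop hl).dvd_of_dvd_mul_right h2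
  have hd2 : (a l' : ℤ) ∣ a l := by
    have h2 : (a l' : ℤ) ∣ a l * b l' := by
      have : (a l : ℤ) * b l' = a l' * (b l + a l * (s - s')) := by linear_combination h1
      rw [this]; exact Dvd.intro _ rfl
    exact (H.cop hl').dvd_of_dvd_mul_right h2
  have he : a l = a l' := Nat.dvd_antisymm (Int.natCast_dvd_natCast.1 hd1) (Int.natCast_dvd_natCast.1 hd2)
  refine ⟨he, ?_⟩
  have ha : (a l : ℤ) ≠ 0 := by exact_mod_cast (by have := H.pos l hl; omega : a l ≠ 0)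
  apply mul_left_cancel₀ ha
  rw [← he] at h1
  linear_combination h1

/-- choice of the spacing of the shifts -/
lemma exists_v {r : ℕ} {a : ℕ → ℕ} {b : ℕ → ℤ} (H : Sys r a b) (K W : ℕ) (hW : 0 < W) :
    ∃ v : ℕ, 1 ≤ v ∧ v ≤ (r + 1) * (r + 1) * (K * K) + 1 ∧ ∀ l ≤ r, ∀ l' ≤ r, ∀ i < K, ∀ i' < K, i ≠ i' → a l = a l' →
      b l' - b l ≠ a l * (((W * v * (i + 1) : ℕ) : ℤ) - ((W * v * (i' + 1) : ℕ) : ℤ)) := by
  classical
  set M : ℕ := (r + 1) * (r + 1) * (K * K) with hM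
  by_contra hcon
  push Not at hcon
  have hc : ∀ v ∈ Icc 1 (M + 1), ∃ q : (ℕ × ℕ) × (ℕ × ℕ), q ∈ (range (r + 1) ×ˢ range (r + 1)) ×ˢ (range K ×ˢ range K) ∧
      q.2.1 ≠ q.2.2 ∧ a q.1.1 = a q.1.2 ∧
      b q.1.2 - b q.1.1 = a q.1.1 * (((W * v * (q.2.1 + 1) : ℕ) : ℤ) - ((W * v * (q.2.2 + 1) : ℕ) : ℤ)) := by
    intro v hv
    rw [mem_Icc] at hv
    obtain ⟨l, hl, l', hl', i, hi, i', hi', hii, haa, hbb⟩ := hcon v hv.1 hv.2
    refine ⟨((l, l'), (i, i')), ?_, hii, haa, hbb⟩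
    simp only [mem_product, mem_range]
    omega
  choose! g hg using hc
  have hinj : Set.InjOn g (Icc 1 (M + 1) : Finset ℕ) := by
    intro v hv w hw hvw
    have h1 := hg v hv
    have h2 := hg w hw
    rw [← hvw] at h2
    have h3 := h1.2.2.2.symm.trans h2.2.2.2
    have hl : (g v).1.1 ≤ r := by
      have := h1.1
      simp only [mem_product, mem_range] at this
      omega
    have ha : (a (g v).1.1 : ℤ) ≠ 0 := by exact_mod_cast (by have := H.pos _ hl; omega : a (g v).1.1 ≠ 0)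
    have h4 := mul_left_cancel₀ ha h3
    push_cast at h4
    have hWz : (W : ℤ) ≠ 0 := by exact_mod_cast hW.ne'
    have hd : (((g v).2.1 : ℤ) - (g v).2.2) ≠ 0 := by
      intro h0
      exact h1.2.1 (by exact_mod_cast (sub_eq_zero.1 h0))
    have h5 : (W : ℤ) * (((g v).2.1 : ℤ) - (g v).2.2) * v = (W : ℤ) * (((g v).2.1 : ℤ) - (g v).2.2) * w := by
      linear_combination h4
    have h6 := mul_left_cancel₀ (mul_ne_zero hWz hd) h5
    exact_mod_cast h6
  have hcard := card_le_card_of_injOn (s := Icc 1 (M + 1)) (t := (range (r + 1) ×ˢ range (r + 1)) ×ˢ (range K ×ˢ range K))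
    g (fun v hv => (hg v hv).1) hinj
  rw [Nat.card_Icc, card_product, card_product, card_product, card_range, card_range] at hcard
  omega

/-- a class avoiding fewer than `p` forms -/
lemma exists_clG {J p : ℕ} (hJ : J < p) (hp : p.Prime) (c : Fin J → ℕ) (h : Fin J → ℤ)
    (hpr : ∀ j, p ∣ c j → ¬ (p : ℤ) ∣ h j) : ∃ x : ℕ, ∀ j, ¬ (p : ℤ) ∣ c j * (x : ℤ) + h j := by
  by_contra hcon
  push Not at hcon
  have hf : ∀ x : Fin p, ∃ j, (p : ℤ) ∣ c j * ((x : ℕ) : ℤ) + h j := fun x => hcon x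
  choose f hf using hf
  have hinj : Function.Injective f := by
    intro x y hxy
    have h1 := hf x
    have h2 := hf y
    rw [hxy] at h1
    have h3 : (p : ℤ) ∣ c (f y) * (((x : ℕ) : ℤ) - ((y : ℕ) : ℤ)) := by
      have h4 := dvd_sub h1 h2
      have e : (c (f y) : ℤ) * ((x : ℕ) : ℤ) + h (f y) - (c (f y) * ((y : ℕ) : ℤ) + h (f y)) =
        c (f y) * (((x : ℕ) : ℤ) - ((y : ℕ) : ℤ)) := by ring
      rwa [e] at h4
    rcases (Nat.prime_iff_prime_int.1 hp).dvd_or_dvd h3 with h4 | h4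
    · exfalso
      have h5 : p ∣ c (f y) := Int.natCast_dvd_natCast.1 h4
      exact hpr _ h5 ((Int.dvd_add_right (h4.mul_right _)).1 h2)
    · have h5 : ((x : ℕ) : ℤ) - ((y : ℕ) : ℤ) = 0 := by
        apply Int.eq_zero_of_abs_lt_dvd h4
        rw [abs_lt]
        have := x.2
        have := y.2
        constructor <;> omega
      exact Fin.ext (by omega)
  have := Fintype.card_le_of_injective f hinj
  rw [Fintype.card_fin, Fintype.card_fin] at this
  omega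

/-- the determinant -/
def Dt {J : ℕ} (c : Fin J → ℕ) (h : Fin J → ℤ) (i j : Fin J) : ℤ := (c i : ℤ) * h j - c j * h i

lemma Dt_comm {J : ℕ} (c : Fin J → ℕ) (h : Fin J → ℤ) (i j : Fin J) : Dt c h i j = - Dt c h j i := by
  unfold Dt; ring

/-- special forms: coefficient one and bounded constant -/
def Sp {J : ℕ} (c : Fin J → ℕ) (h : Fin J → ℤ) (H : ℕ) (j : Fin J) : Prop := c j = 1 ∧ |h j| ≤ 2 * H

open Classical in
/-- the number whose prime factors are excluded for the form `j` -/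
noncomputable def NN {J : ℕ} (c : Fin J → ℕ) (h : Fin J → ℤ) (H : ℕ) (j : Fin J) : ℕ :=
  if Sp c h H j then 1 else
    c j * ∏ i ∈ univ.filter (fun i => i ≠ j ∧ (Sp c h H i ∨ i < j)), (Dt c h i j).natAbs

/-- the excluded primes -/
noncomputable def EE' {J : ℕ} (Y : ℕ) (c : Fin J → ℕ) (h : Fin J → ℤ) (H : ℕ) (j : Fin J) : Finset ℕ :=
  (Uni.WW Y * NN c h H j).primeFactors

/-- a system of distinct primitive forms -/
structure Prm {J : ℕ} (c : Fin J → ℕ) (h : Fin J → ℤ) : Prop where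
  pos : ∀ j, 1 ≤ c j
  ne : ∀ i j, i ≠ j → Dt c h i j ≠ 0
  prim : ∀ j, ∀ p : ℕ, p.Prime → p ∣ c j → ¬ (p : ℤ) ∣ h j

lemma NN_pos {J : ℕ} {c : Fin J → ℕ} {h : Fin J → ℤ} (P : Prm c h) (H : ℕ) (j : Fin J) : 0 < NN c h H j := by
  classical
  unfold NN
  split_ifs
  · exact one_pos
  · apply Nat.mul_pos (P.pos j)
    apply prod_pos
    intro i hi
    rw [mem_filter] at hi
    exact Int.natAbs_pos.2 (P.ne i j hi.2.1)

lemma mem_EE' {J : ℕ} {c : Fin J → ℕ} {h : Fin J → ℤ} (P : Prm c h) {Y H : ℕ} {j : Fin J} {p : ℕ} (hp : p.Prime) :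
    p ∈ EE' Y c h H j ↔ p ≤ Y ∨ (¬ Sp c h H j ∧ (p ∣ c j ∨ ∃ i, i ≠ j ∧ (Sp c h H i ∨ i < j) ∧ (p : ℤ) ∣ Dt c h i j)) := by
  classical
  unfold EE'
  rw [Nat.mem_primeFactors]
  have hne : Uni.WW Y * NN c h H j ≠ 0 := (Nat.mul_pos (Uni.WW_pos Y) (NN_pos P H j)).ne'
  have h1 : p ∣ NN c h H j ↔ (¬ Sp c h H j ∧ (p ∣ c j ∨ ∃ i, i ≠ j ∧ (Sp c h H i ∨ i < j) ∧ (p : ℤ) ∣ Dt c h i j)) := by
    unfold NN
    by_cases hs : Sp c h H j
    · rw [if_pos hs]
      constructor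
      · intro h; exact absurd (Nat.dvd_one.1 h) hp.one_lt.ne'
      · intro h; exact absurd hs h.1
    · rw [if_neg hs, hp.dvd_mul, Prime.dvd_finsetProd_iff hp.prime]
      constructor
      · rintro (h | ⟨i, hi, hd⟩)
        · exact ⟨hs, Or.inl h⟩
        · rw [mem_filter] at hi
          exact ⟨hs, Or.inr ⟨i, hi.2.1, hi.2.2, Int.natCast_dvd.2 hd⟩⟩
      · rintro ⟨_, h | ⟨i, h1, h2, h3⟩⟩
        · exact Or.inl h
        · exact Or.inr ⟨i, mem_filter.2 ⟨mem_univ _, h1, h2⟩, Int.natCast_dvd.1 h3⟩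
  constructor
  · rintro ⟨_, h2, _⟩
    rcases hp.dvd_mul.1 h2 with h3 | h3
    · exact Or.inl ((dvd_WW hp).1 h3)
    · exact Or.inr (h1.1 h3)
  · intro h2
    refine ⟨hp, ?_, hne⟩
    rcases h2 with h3 | h3
    · exact ((dvd_WW hp).2 h3).mul_right _
    · exact (h1.2 h3).mul_left _

/-- two special forms are separated by the primes up to `4 H` -/
lemma sp_sp {J : ℕ} {c : Fin J → ℕ} {h : Fin J → ℤ} (P : Prm c h) {Y H : ℕ} (hY : 4 * H ≤ Y) {i j : Fin J}
    (hij : i ≠ j) (hi : Sp c h H i) (hj : Sp c h H j) {p : ℕ} (hpY : Y < p) : ¬ (p : ℤ) ∣ Dt c h i j := by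
  intro hd
  have h0 := P.ne i j hij
  apply h0
  apply Int.eq_zero_of_abs_lt_dvd hd
  have e : Dt c h i j = h j - h i := by
    unfold Dt; rw [hi.1, hj.1]; push_cast; ring
  rw [e]
  have h1 := abs_le.1 hi.2
  have h2 := abs_le.1 hj.2
  rw [abs_lt]
  constructor <;> omega

lemma dt_EE {J : ℕ} {c : Fin J → ℕ} {h : Fin J → ℤ} (P : Prm c h) {Y H : ℕ} (hY : 4 * H ≤ Y) {i j : Fin J}
    (hij : i ≠ j) {p : ℕ} (hp : p.Prime) (hi : p ∉ EE' Y c h H i) (hj : p ∉ EE' Y c h H j) :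
    ¬ (p : ℤ) ∣ Dt c h i j := by
  intro hd
  rw [mem_EE' P hp] at hi hj
  push Not at hi hj
  have hpY : Y < p := hi.1
  have hd' : (p : ℤ) ∣ Dt c h j i := by rw [Dt_comm]; exact hd.neg_right
  by_cases hsi : Sp c h H i
  · by_cases hsj : Sp c h H j
    · exact sp_sp P hY hij hsi hsj hpY hd
    · exact (hj.2 hsj).2 i hij (Or.inl hsi) hd
  · by_cases hsj : Sp c h H j
    · exact (hi.2 hsi).2 j hij.symm (Or.inl hsj) hd'
    · rcases lt_or_gt_of_ne hij with hlt | hlt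
      · exact (hj.2 hsj).2 i hij (Or.inr hlt) hd
      · exact (hi.2 hsi).2 j hij.symm (Or.inr hlt) hd'

lemma cf_EE {J : ℕ} {c : Fin J → ℕ} {h : Fin J → ℤ} (P : Prm c h) {Y H : ℕ} {j : Fin J} {p : ℕ} (hp : p.Prime)
    (hj : p ∉ EE' Y c h H j) : ¬ p ∣ c j := by
  intro hd
  rw [mem_EE' P hp] at hj
  push Not at hj
  by_cases hsj : Sp c h H j
  · rw [hsj.1] at hd
    exact hp.one_lt.ne' (Nat.dvd_one.1 hd)
  · exact (hj.2 hsj).1 hd

lemma FS_EE {J : ℕ} {c : Fin J → ℕ} {h : Fin J → ℤ} (P : Prm c h) {Y H : ℕ} (hY : 4 * H ≤ Y) :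
    FS (Uni.WW Y) (EE' Y c h H) c h := by
  refine ⟨fun j p hp hj hd => ?_, fun j p hp hj => cf_EE P hp hj, fun i j hij p hp hi hj => dt_EE P hY hij hp hi hj⟩
  rw [mem_EE' P hp] at hj
  push Not at hj
  have := (dvd_WW hp).1 hd
  omega

/-- a special form is a possible prime form -/
lemma PF_EE {J : ℕ} {c : Fin J → ℕ} {h : Fin J → ℤ} (P : Prm c h) {Y H : ℕ} (hY : 4 * H ≤ Y) {a0 : ℕ} {i : Fin J}
    (hs : Sp c h H i) (h0 : 0 ≤ h i) (ha : ∀ p : ℕ, p.Prime → p ≤ Y → ¬ (p : ℤ) ∣ c i * (a0 : ℤ) + h i) :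
    PF (Uni.WW Y) (EE' Y c h H) c h a0 i (h i).toNat := by
  have hti : ((h i).toNat : ℤ) = h i := Int.toNat_of_nonneg h0
  refine ⟨hs.1, hti.symm, ?_, ?_⟩
  · by_contra hcop
    obtain ⟨p, hp, hp1, hp2⟩ := Nat.Prime.not_coprime_iff_dvd.1 hcop
    apply ha p hp ((dvd_WW hp).1 hp2)
    have h1 := Int.natCast_dvd_natCast.2 hp1
    push_cast at h1
    rw [hs.1]
    push_cast
    rw [one_mul]
    rwa [hti] at h1
  · intro j hji p hp hj hd
    have e : hh c h (h i).toNat j = Dt c h i j := by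
      unfold hh Dt
      rw [hti, hs.1]
      push_cast
      ring
    rw [e] at hd
    rw [mem_EE' P hp] at hj
    push Not at hj
    by_cases hsj : Sp c h H j
    · exact sp_sp P hY hji.symm hs hsj hj.1 hd
    · exact (hj.2 hsj).2 i hji.symm (Or.inl hs) hd

lemma EE_sp {J : ℕ} {c : Fin J → ℕ} {h : Fin J → ℤ} {Y H : ℕ} {i : Fin J} (hs : Sp c h H i) :
    EE' Y c h H i = (Uni.WW Y).primeFactors := by
  unfold EE' NN
  rw [if_pos hs, mul_one]

/-- full roughness -/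
lemma full_rough {J : ℕ} {c : Fin J → ℕ} {h : Fin J → ℤ} (P : Prm c h) {Y H : ℕ} {δ X : ℝ} {n : ℕ}
    (hcl : ∀ j, ∀ p : ℕ, p.Prime → p ≤ Y → ¬ (p : ℤ) ∣ c j * (n : ℤ) + h j)
    (hR : ∀ j, RgG δ X (EE' Y c h H j) (c j * (n : ℤ) + h j)) :
    ∀ j, ∀ p ∈ PS δ X, ¬ (p : ℤ) ∣ c j * (n : ℤ) + h j := by
  -- first the special forms
  have hsp : ∀ j, Sp c h H j → ∀ p ∈ PS δ X, ¬ (p : ℤ) ∣ c j * (n : ℤ) + h j := by
    intro j hs p hp
    have hpp := (mem_PS.1 hp).1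
    by_cases hpE : p ∈ EE' Y c h H j
    · rw [EE_sp hs, Nat.mem_primeFactors] at hpE
      exact hcl j p hpp ((dvd_WW hpp).1 hpE.2.1)
    · exact hR j p hp hpE
  have key : ∀ N : ℕ, ∀ j : Fin J, (j : ℕ) ≤ N → ∀ p ∈ PS δ X, ¬ (p : ℤ) ∣ c j * (n : ℤ) + h j := by
    intro N
    induction N with
    | zero =>
      intro j hj p hp hd
      have hpp := (mem_PS.1 hp).1
      by_cases hpE : p ∈ EE' Y c h H j
      · rw [mem_EE' P hpp] at hpE
        rcases hpE with h1 | ⟨hs, h1 | ⟨i, hij, h2, h3⟩⟩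
        · exact hcl j p hpp h1 hd
        · exact P.prim j p hpp h1 ((Int.dvd_add_right ((Int.natCast_dvd_natCast.2 h1).mul_right _)).1 hd)
        · rcases h2 with h2 | h2
          · by_cases hcj : p ∣ c j
            · exact P.prim j p hpp hcj ((Int.dvd_add_right ((Int.natCast_dvd_natCast.2 hcj).mul_right _)).1 hd)
            · have h4 : (p : ℤ) ∣ c j * (c i * (n : ℤ) + h i) := by
                have e : (c j : ℤ) * (c i * (n : ℤ) + h i) = c i * (c j * (n : ℤ) + h j) - Dt c h i j := by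
                  unfold Dt; ring
                rw [e]
                exact dvd_sub (hd.mul_left _) h3
              rcases (Nat.prime_iff_prime_int.1 hpp).dvd_or_dvd h4 with h5 | h5
              · exact hcj (Int.natCast_dvd_natCast.1 h5)
              · exact hsp i h2 p hp h5
          · rw [Fin.lt_def] at h2
            omega
      · exact hR j p hp hpE hd
    | succ N ih =>
      intro j hj p hp hd
      have hpp := (mem_PS.1 hp).1
      by_cases hpE : p ∈ EE' Y c h H j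
      · rw [mem_EE' P hpp] at hpE
        rcases hpE with h1 | ⟨hs, h1 | ⟨i, hij, h2, h3⟩⟩
        · exact hcl j p hpp h1 hd
        · exact P.prim j p hpp h1 ((Int.dvd_add_right ((Int.natCast_dvd_natCast.2 h1).mul_right _)).1 hd)
        · by_cases hcj : p ∣ c j
          · exact P.prim j p hpp hcj ((Int.dvd_add_right ((Int.natCast_dvd_natCast.2 hcj).mul_right _)).1 hd)
          · have h4 : (p : ℤ) ∣ c j * (c i * (n : ℤ) + h i) := by
              have e : (c j : ℤ) * (c i * (n : ℤ) + h i) = c i * (c j * (n : ℤ) + h j) - Dt c h i j := by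
                unfold Dt; ring
              rw [e]
              exact dvd_sub (hd.mul_left _) h3
            rcases (Nat.prime_iff_prime_int.1 hpp).dvd_or_dvd h4 with h5 | h5
            · exact hcj (Int.natCast_dvd_natCast.1 h5)
            · rcases h2 with h2 | h2
              · exact hsp i h2 p hp h5
              · rw [Fin.lt_def] at h2
                exact ih i (by omega) p hp h5
      · exact hR j p hp hpE hd
  intro j
  exact key j j le_rfl

end Pool.Agent.Y848.UG
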