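import Pool.Agent.Y848.UG.Main

set_option autoImplicit false

/-! # The main theorem in terms of `x`, and its consequences -/

open Finset Filter Topology

namespace Pool.Agent.Y848.UG

open Pool.Agent.H378R2 Pool.Agent.H387R2.MB

lemma GoodI.mono {m m' r : ℕ} {a : ℕ → ℕ} {b : ℕ → ℤ} {H L n : ℕ} {u u' : ℝ} (h : GoodI m' r a b H L u' n)
    (hm : m ≤ m') (hu : u ≤ u') : GoodI m r a b H L u n :=
  ⟨hm.trans h.1, fun p hp hpp => ⟨(h.2 p hp hpp).1, fun l hl q hq hd => hu.trans_lt ((h.2 p hp hpp).2 l hl q hq hd)⟩⟩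

open Classical in
theorem top (m r : ℕ) : ∃ δ : ℝ, 0 < δ ∧ ∃ κ H : ℕ, ∀ C : ℕ, ∀ A : ℝ, ∀ᶠ x : ℝ in atTop,
    ∀ (a : ℕ → ℕ) (b : ℕ → ℤ) (L : ℕ), Sys r a b → (∀ l ≤ r, (a l : ℝ) ≤ x ^ A) → (∀ l ≤ r, |(b l : ℝ)| ≤ x ^ A) →
      (L : ℝ) ≤ Real.log x / Real.log (Real.log x) ^ 2 → (L ≤ C ∨ ∀ l < r, a l = 1 → b l ≤ C ∨ (L : ℤ) < b l) →
      x / Real.log x ^ κ ≤ (#((Icc 1 ⌊x⌋₊).filter (fun n => GoodI m r a b H L (x ^ δ) n)) : ℝ) := by
  obtain ⟨δ, hδ, κ, H, h⟩ := many m r
  refine ⟨δ / 400, by positivity, κ + 1, H, fun C A => ?_⟩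
  obtain ⟨A', hA'⟩ : ∃ A', A' = 2 * max A 0 := ⟨_, rfl⟩
  have hkey : ∀ᶠ X : ℝ in atTop, ∀ (a : ℕ → ℕ) (b : ℕ → ℤ) (L : ℕ), Sys r a b →
      (∀ l ≤ r, (a l : ℝ) ≤ (3 * X) ^ A) → (∀ l ≤ r, |(b l : ℝ)| ≤ (3 * X) ^ A) →
      (L : ℝ) ≤ Real.log (3 * X) / Real.log (Real.log (3 * X)) ^ 2 → (L ≤ C ∨ ∀ l < r, a l = 1 → b l ≤ C ∨ (L : ℤ) < b l) →
      (3 * X) / Real.log (3 * X) ^ (κ + 1) ≤
        (#((Icc 1 ⌊3 * X⌋₊).filter (fun n => GoodI m r a b H L ((3 * X) ^ (δ / 400)) n)) : ℝ) := by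
    have hllog : Tendsto (fun X : ℝ => Real.log (Real.log X)) atTop atTop :=
      Real.tendsto_log_atTop.comp Real.tendsto_log_atTop
    filter_upwards [h C A', eventually_ge_atTop 4, Real.tendsto_log_atTop.eventually_ge_atTop 3,
      hllog.eventually_ge_atTop 1] with X h1 h2 h3 h4
    intro a b L S ha hb hL hLC
    have hX0 : 0 < X := by linarith
    have hll0 : 0 < Real.log (Real.log X) := by linarith
    have hl3 : Real.log (3 * X) ≤ 2 * Real.log X := by
      rw [Real.log_mul (by norm_num) hX0.ne']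
      have : Real.log 3 ≤ 2 := by
        have := Real.log_le_sub_one_of_pos (by norm_num : (0:ℝ) < 3)
        linarith
      linarith
    have hl3' : Real.log X ≤ Real.log (3 * X) := Real.log_le_log hX0 (by linarith)
    have hxA : (3 * X) ^ A ≤ X ^ A' := by
      rw [Real.rpow_def_of_pos (by positivity), Real.rpow_def_of_pos hX0]
      apply Real.exp_le_exp.2
      have e1 : 0 ≤ max A 0 := le_max_right _ _
      have e2 : A ≤ max A 0 := le_max_left _ _
      calc Real.log (3 * X) * A ≤ Real.log (3 * X) * max A 0 := by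
            apply mul_le_mul_of_nonneg_left e2 (by linarith)
        _ ≤ 2 * Real.log X * max A 0 := mul_le_mul_of_nonneg_right hl3 e1
        _ = Real.log X * A' := by rw [hA']; ring
    have hll : Real.log (Real.log X) ≤ Real.log (Real.log (3 * X)) := Real.log_le_log (by linarith) hl3'
    have k1 := h1 a b L S (fun l hl => (ha l hl).trans hxA) (fun l hl => (hb l hl).trans hxA)
      (by
        refine hL.trans ?_
        calc Real.log (3 * X) / Real.log (Real.log (3 * X)) ^ 2 ≤ (2 * Real.log X) / Real.log (Real.log X) ^ 2 := by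
              apply div_le_div₀ (by linarith) hl3 (by positivity)
              exact pow_le_pow_left₀ (by linarith) hll 2
          _ = _ := by ring) hLC
    have hu : (3 * X) ^ (δ / 400) ≤ Real.exp (δ * LL X) := by
      rw [Real.rpow_def_of_pos (by positivity)]
      apply Real.exp_le_exp.2
      unfold LL
      calc Real.log (3 * X) * (δ / 400) ≤ 2 * Real.log X * (δ / 400) := mul_le_mul_of_nonneg_right hl3 (by positivity)
        _ = δ * (Real.log X / 200) := by ring
    have k2 : (#((Ioc ⌊X⌋₊ ⌊3 * X⌋₊).filter (fun n => GoodI (m + 1) r a b H L (Real.exp (δ * LL X)) n)) : ℝ) ≤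
        (#((Icc 1 ⌊3 * X⌋₊).filter (fun n => GoodI m r a b H L ((3 * X) ^ (δ / 400)) n)) : ℝ) := by
      have : (#((Ioc ⌊X⌋₊ ⌊3 * X⌋₊).filter (fun n => GoodI (m + 1) r a b H L (Real.exp (δ * LL X)) n))) ≤
          (#((Icc 1 ⌊3 * X⌋₊).filter (fun n => GoodI m r a b H L ((3 * X) ^ (δ / 400)) n))) := by
        apply card_le_card
        intro n hn
        rw [mem_filter, mem_Ioc] at hn
        rw [mem_filter, mem_Icc]
        exact ⟨⟨by omega, hn.1.2⟩, hn.2.mono (by omega) hu⟩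
      exact_mod_cast this
    refine le_trans ?_ (k1.trans k2)
    have hp1 : 0 < Real.log X := by linarith
    have hp2 : 0 < Real.log (3 * X) := by linarith
    rw [div_le_div_iff₀ (by positivity) (by positivity)]
    calc 3 * X * Real.log X ^ κ ≤ Real.log (3 * X) * X * Real.log (3 * X) ^ κ := by
          have : (3:ℝ) ≤ Real.log (3 * X) := by linarith
          gcongr
      _ = X * Real.log (3 * X) ^ (κ + 1) := by ring
  have h3 : Tendsto (fun x : ℝ => x / 3) atTop atTop := tendsto_id.atTop_div_const (by norm_num)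
  filter_upwards [h3.eventually hkey] with x hx
  have e : 3 * (x / 3) = x := by ring
  rw [e] at hx
  exact hx

open Classical in
/-- the form used for shifts -/
theorem top_shifts (m r : ℕ) : ∃ δ : ℝ, 0 < δ ∧ ∃ κ H₀ : ℕ, ∀ H : ℕ, ∀ A : ℝ, ∀ᶠ x : ℝ in atTop,
    ∀ B : Finset ℕ, #B = r → (∀ b ∈ B, 1 ≤ b ∧ (b : ℝ) ≤ x ^ A) →
      (∀ p : ℕ, p.Prime → ∃ n : ℕ, ¬ p ∣ n ∧ ∀ b ∈ B, ¬ p ∣ n + b) →
      x / Real.log x ^ κ ≤ (#((Icc 1 ⌊x⌋₊).filter (fun n =>
        m ≤ #((Ioc n (n + H₀)).filter Nat.Prime) ∧ ∀ p ∈ Ioc n (n + H), p.Prime → p ≤ n + H₀ ∧ ∀ b ∈ B,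
          ∀ q : ℕ, q.Prime → q ∣ p + b → x ^ δ < q)) : ℝ) := by
  obtain ⟨δ, hδ, κ, H0, h⟩ := top m r
  refine ⟨δ, hδ, κ, H0, fun H A => ?_⟩
  have hlim : Tendsto (fun x : ℝ => Real.log x / Real.log (Real.log x) ^ 2) atTop atTop := by
    have h1 : Tendsto (fun y : ℝ => y / Real.log y ^ 2) atTop atTop := by
      have h2 : (fun y : ℝ => Real.log y ^ 2) =o[atTop] (fun y : ℝ => y) := by
        have := Real.isLittleO_pow_log_id_atTop (n := 2)
        exact this
      have h3 := h2.tendsto_div_nhds_zero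
      have h4 : Tendsto (fun y : ℝ => Real.log y ^ 2 / y) atTop (nhdsWithin 0 (Set.Ioi 0)) := by
        rw [tendsto_nhdsWithin_iff]
        refine ⟨h3, ?_⟩
        filter_upwards [eventually_gt_atTop 1] with y hy
        have h6 : 0 < Real.log y := Real.log_pos hy
        have h7 : 0 < y := by linarith
        exact div_pos (pow_pos h6 2) h7
      have h5 := h4.inv_tendsto_nhdsGT_zero
      refine h5.congr fun y => ?_
      simp
    exact h1.comp Real.tendsto_log_atTop
  filter_upwards [h H (max A 0), hlim.eventually_ge_atTop (H : ℝ), eventually_ge_atTop 1] with x h1 h2 h3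
  intro B hB hb hadm
  obtain ⟨b, hbd⟩ : ∃ b : ℕ → ℤ, ∀ l, b l = if hl : l < r then ((B.orderEmbOfFin hB ⟨l, hl⟩ : ℕ) : ℤ) else 0 :=
    ⟨_, fun _ => rfl⟩
  have hbl : ∀ l, (hl : l < r) → b l = ((B.orderEmbOfFin hB ⟨l, hl⟩ : ℕ) : ℤ) := by
    intro l hl
    rw [hbd, dif_pos hl]
  have hbr : b r = 0 := by rw [hbd, dif_neg (lt_irrefl r)]
  have hmem : ∀ l, (hl : l < r) → (B.orderEmbOfFin hB ⟨l, hl⟩) ∈ B := fun l hl => Finset.orderEmbOfFin_mem B hB _
  have hxA : (1:ℝ) ≤ x ^ (max A 0) := Real.one_le_rpow h3 (le_max_right _ _)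
  have hS : Sys r (fun _ => 1) b := by
    refine ⟨rfl, hbr, fun l _ => le_rfl, ?_, ?_⟩
    · rintro l hl l' hl' hne ⟨-, he⟩
      rcases Nat.lt_or_ge l r with h4 | h4
      · rcases Nat.lt_or_ge l' r with h5 | h5
        · rw [hbl l h4, hbl l' h5] at he
          have h6 := (B.orderEmbOfFin hB).injective (by exact_mod_cast he : B.orderEmbOfFin hB ⟨l, h4⟩ = B.orderEmbOfFin hB ⟨l', h5⟩)
          exact hne (by simpa using h6)
        · have : l' = r := by omega
          rw [this, hbr, hbl l h4] at he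
          have := (hb _ (hmem l h4)).1
          omega
      · have h6 : l = r := by omega
        rcases Nat.lt_or_ge l' r with h5 | h5
        · rw [h6, hbr, hbl l' h5] at he
          have := (hb _ (hmem l' h5)).1
          omega
        · omega
    · intro p hp
      obtain ⟨n, hn1, hn2⟩ := hadm p hp
      refine ⟨n, fun l hl hd => ?_⟩
      rcases Nat.lt_or_ge l r with h4 | h4
      · rw [hbl l h4] at hd
        apply hn2 _ (hmem l h4)
        have : (p : ℤ) ∣ ((n + B.orderEmbOfFin hB ⟨l, h4⟩ : ℕ) : ℤ) := by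
          push_cast
          push_cast at hd
          rwa [one_mul] at hd
        exact Int.natCast_dvd_natCast.1 this
      · have h6 : l = r := by omega
        rw [h6, hbr] at hd
        apply hn1
        push_cast at hd
        rw [one_mul, add_zero] at hd
        exact Int.natCast_dvd_natCast.1 hd
  have k1 := h1 (fun _ => 1) b H hS (fun _ _ => by push_cast; exact hxA)
    (by
      intro l hl
      rcases Nat.lt_or_ge l r with h4 | h4
      · rw [hbl l h4]
        push_cast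
        rw [Nat.abs_cast]
        exact ((hb _ (hmem l h4)).2).trans (Real.rpow_le_rpow_of_exponent_le h3 (le_max_left _ _))
      · have h6 : l = r := by omega
        rw [h6, hbr]
        push_cast
        rw [abs_zero]
        linarith) h2 (Or.inl le_rfl)
  refine k1.trans ?_
  have : (#((Icc 1 ⌊x⌋₊).filter (fun n => GoodI m r (fun _ => 1) b H0 H (x ^ δ) n))) ≤
      (#((Icc 1 ⌊x⌋₊).filter (fun n =>
        m ≤ #((Ioc n (n + H0)).filter Nat.Prime) ∧ ∀ p ∈ Ioc n (n + H), p.Prime → p ≤ n + H0 ∧ ∀ b ∈ B,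
          ∀ q : ℕ, q.Prime → q ∣ p + b → x ^ δ < q))) := by
    apply card_le_card
    intro n hn
    rw [mem_filter] at hn ⊢
    refine ⟨hn.1, hn.2.1, fun p hp hpp => ⟨(hn.2.2 p hp hpp).1, fun b' hb' q hq hqd => ?_⟩⟩
    obtain ⟨i, hi⟩ : ∃ i, B.orderEmbOfFin hB i = b' := by
      have : b' ∈ Set.range (B.orderEmbOfFin hB) := by
        rw [Finset.range_orderEmbOfFin]; exact hb'
      exact this
    refine (hn.2.2 p hp hpp).2 i i.2 q hq ?_
    rw [hbl i i.2]
    push_cast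
    rw [one_mul]
    have h7 : ((B.orderEmbOfFin hB ⟨(i : ℕ), i.2⟩ : ℕ) : ℤ) = b' := by exact_mod_cast hi
    rw [h7]
    exact_mod_cast Int.natCast_dvd_natCast.2 hqd
  exact_mod_cast this

end Pool.Agent.Y848.UG
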