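import Pool.Agent.Y848.UG.MainS
import Pool.Agent.Y843.HS.Top

set_option autoImplicit false

/-! # Progressions of windows with the same primes -/

open Finset Filter Topology

namespace Pool.Agent.Y848.UG

open Pool.Agent.H378R2 Pool.Agent.H387R2.MB
open Pool.Agent.Y843.HS (VV Pr)

lemma GoodI.mono {m m' r : ℕ} {a : ℕ → ℕ} {b : ℕ → ℤ} {H L n : ℕ} {u u' : ℝ} (h : GoodI m' r a b H L u' n)
    (hm : m ≤ m') (hu : u ≤ u') : GoodI m r a b H L u n :=
  ⟨hm.trans h.1, fun p hp hpp => ⟨(h.2 p hp hpp).1, fun l hl q hq hd => hu.trans_lt ((h.2 p hp hpp).2 l hl q hq hd)⟩⟩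

/-- a progression of `k` windows with the same primes -/
def Prg (m r : ℕ) (a : ℕ → ℕ) (b : ℕ → ℤ) (H L : ℕ) (u : ℝ) (k N : ℕ) (D : ℝ) (n : ℕ) : Prop :=
  ∃ d : ℕ, 1 ≤ d ∧ (d : ℝ) ≤ D ∧ ∀ j < k, n + j * d ≤ N ∧ GoodI m r a b H L u (n + j * d) ∧
    ∀ t ∈ Icc 1 L, ((n + j * d + t).Prime ↔ (n + t).Prime)

open Classical in
theorem apX (m r : ℕ) : ∃ δ : ℝ, 0 < δ ∧ ∃ κ H0 : ℕ, ∀ k C : ℕ, ∀ A : ℝ, ∃ B : ℕ,
    ∀ᶠ X : ℝ in atTop, ∀ (a : ℕ → ℕ) (b : ℕ → ℤ) (L : ℕ), Sys r a b →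
      (∀ l ≤ r, (a l : ℝ) ≤ X ^ A) → (∀ l ≤ r, |(b l : ℝ)| ≤ X ^ A) →
      (L : ℝ) ≤ 2 * (Real.log X / Real.log (Real.log X) ^ 2) → (L ≤ C ∨ ∀ l < r, a l = 1 → b l ≤ C ∨ (L : ℤ) < b l) →
      X / Real.log X ^ κ ≤ (#((Ioc ⌊X⌋₊ ⌊3 * X⌋₊).filter (fun n =>
        Prg (m + 1) r a b H0 L (Real.exp (δ * LL X)) k ⌊3 * X⌋₊ (Real.log X ^ B) n)) : ℝ) := by
  obtain ⟨δ, hδ, κ, H0, J, h⟩ := manyS m r
  refine ⟨δ, hδ, κ + 1, H0, fun k C A => ?_⟩
  obtain ⟨c1, hc1, hev⟩ := h C A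
  obtain ⟨κ', hκ'⟩ : ∃ κ', κ' = δ / 400 := ⟨_, rfl⟩
  have hκ0 : 0 < κ' := by rw [hκ']; positivity
  obtain ⟨B, X0, hfin⟩ := Pool.Agent.Y843.HS.fin (k + 1) J κ' (c1 * (κ' / 2) ^ J / 6) hκ0 (by positivity)
  refine ⟨2 * B, ?_⟩
  filter_upwards [hev, eventually_ge_atTop 4, eventually_ge_atTop ((X0 : ℝ) + 1),
    Real.tendsto_log_atTop.eventually_ge_atTop 2, Real.tendsto_log_atTop.eventually_ge_atTop (8 / κ')]
    with X h1 h2 h3 h4 h5
  intro a b L S ha hb hL hLC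
  obtain ⟨G, Z, P, hG1, hG2, hG3, hZ, hG4, hG5, hG6⟩ := h1 a b L S ha hb hL hLC
  have hX0 : 0 < X := by linarith
  obtain ⟨X', hX'⟩ : ∃ X', X' = ⌊3 * X⌋₊ - ⌊X⌋₊ := ⟨_, rfl⟩
  have hfl1 := Nat.floor_le hX0.le
  have hfl2 := Nat.lt_floor_add_one X
  have hfl3 := Nat.floor_le (by positivity : 0 ≤ 3 * X)
  have hfl4 := Nat.lt_floor_add_one (3 * X)
  have hle : ⌊X⌋₊ ≤ ⌊3 * X⌋₊ := Nat.floor_mono (by linarith)
  have hX'r : (X' : ℝ) = (⌊3 * X⌋₊ : ℝ) - (⌊X⌋₊ : ℝ) := by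
    rw [hX', Nat.cast_sub hle]
  have hX'1 : X ≤ (X' : ℝ) := by rw [hX'r]; linarith
  have hX'2 : (X' : ℝ) ≤ 3 * X := by
    rw [hX'r]
    have : (0:ℝ) ≤ (⌊X⌋₊ : ℝ) := Nat.cast_nonneg _
    linarith
  have hX'0 : (0:ℝ) < X' := by linarith
  have hl3 : Real.log (3 * X) ≤ 2 * Real.log X := by
    rw [Real.log_mul (by norm_num) hX0.ne']
    have : Real.log 3 ≤ 2 := by
      have := Real.log_le_sub_one_of_pos (by norm_num : (0:ℝ) < 3)
      linarith
    linarith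
  have hlX' : Real.log (X' : ℝ) ≤ 2 * Real.log X := (Real.log_le_log hX'0 hX'2).trans hl3
  have hlX'' : Real.log X ≤ Real.log (X' : ℝ) := Real.log_le_log hX0 hX'1
  have hzu : ((X' : ℝ)) ^ κ' ≤ Real.exp (δ * LL X) := by
    rw [Real.rpow_def_of_pos hX'0]
    apply Real.exp_le_exp.2
    unfold LL
    calc Real.log (X' : ℝ) * κ' ≤ 2 * Real.log X * κ' := mul_le_mul_of_nonneg_right hlX' hκ0.le
      _ = δ * (Real.log X / 200) := by rw [hκ']; ring
  -- the size of the sifting range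
  obtain ⟨z, hz⟩ : ∃ z, z = ⌊((X' : ℝ)) ^ κ'⌋₊ := ⟨_, rfl⟩
  have hpow : Real.exp 8 ≤ ((X' : ℝ)) ^ κ' := by
    rw [Real.rpow_def_of_pos hX'0]
    apply Real.exp_le_exp.2
    rw [div_le_iff₀ hκ0] at h5
    nlinarith
  have hexp8 : (9:ℝ) ≤ Real.exp 8 := by
    have := Real.add_one_le_exp (8:ℝ)
    linarith
  have hz3 : 3 ≤ z := by
    rw [hz]
    apply Nat.le_floor
    push_cast
    linarith
  have hzlog : κ' / 2 * Real.log X ≤ Real.log (z : ℝ) := by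
    have e1 : ((X' : ℝ)) ^ κ' / 2 ≤ (z : ℝ) := by
      have := Nat.lt_floor_add_one (((X' : ℝ)) ^ κ')
      rw [← hz] at this
      linarith
    have e2 := Real.log_le_log (by positivity) e1
    rw [Real.log_div (by positivity) (by norm_num), Real.log_rpow hX'0] at e2
    have e3 : Real.log 2 ≤ 1 := by
      have := Real.log_two_lt_d9
      linarith
    rw [div_le_iff₀ hκ0] at h5
    nlinarith
  have hlogX0 : 0 < Real.log X := by linarith
  have hVV0 : 0 ≤ VV Z 0 z := by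
    unfold VV
    apply prod_nonneg
    intro p hp
    have hpp : p.Prime := by
      unfold Pr at hp
      exact (mem_filter.1 hp).2
    have e1 := (hZ p hpp).2.1
    have e2 : ((Z p).card : ℝ) / p ≤ 1 := by
      rw [div_le_one (by exact_mod_cast hpp.pos)]
      exact_mod_cast e1.le
    linarith
  have hGbig : c1 * (κ' / 2) ^ J / 6 * X' * VV Z 0 z ≤ (#G : ℝ) / 2 := by
    have e1 := hG6 z hz3
    have e2 : (κ' / 2) ^ J ≤ (Real.log z / Real.log X) ^ J := by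
      apply pow_le_pow_left₀ (by positivity)
      rw [le_div_iff₀ hlogX0]
      exact hzlog
    have e3 : c1 * X * ((κ' / 2) ^ J * VV Z 0 z) ≤ (#G : ℝ) := by
      refine le_trans ?_ e1
      gcongr
    calc c1 * (κ' / 2) ^ J / 6 * X' * VV Z 0 z ≤ c1 * (κ' / 2) ^ J / 6 * (3 * X) * VV Z 0 z := by gcongr
      _ = (c1 * X * ((κ' / 2) ^ J * VV Z 0 z)) / 2 := by ring
      _ ≤ (#G : ℝ) / 2 := by linarith
  -- the elements which do not start a progression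
  obtain ⟨S', hS'⟩ : ∃ S', S' = G.filter (fun n => ¬ ∃ d : ℕ, 1 ≤ d ∧ (d : ℝ) ≤ Real.log X' ^ B ∧ ∀ j < k + 1, n + j * d ∈ G) :=
    ⟨_, rfl⟩
  have hS'small : (#S' : ℝ) < c1 * (κ' / 2) ^ J / 6 * X' * VV Z 0 z := by
    by_contra hcon
    push Not at hcon
    obtain ⟨a1, d, hd1, hd2, hd3⟩ := hfin X' ⌊X⌋₊ (by
        have : (X0 : ℝ) ≤ X' := by linarith
        exact_mod_cast this) Z
      (fun p hp _ => hZ p hp) S'
      (by
        intro n hn
        rw [hS', mem_filter] at hn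
        have := hG1 hn.1
        rw [mem_Ioc] at this ⊢
        omega)
      (by
        intro n hn p hp hpX
        rw [hS', mem_filter] at hn
        exact hG4 n hn.1 p hp (hpX.trans hzu))
      (by rw [← hz]; exact hcon)
    have h0 := hd3 0 (by omega)
    rw [zero_mul, add_zero, hS', mem_filter] at h0
    apply h0.2
    refine ⟨d, hd1, hd2, fun j hj => ?_⟩
    have := hd3 j hj
    rw [hS', mem_filter] at this
    exact this.1
  obtain ⟨G', hG'⟩ : ∃ G', G' = G.filter (fun n => ∃ d : ℕ, 1 ≤ d ∧ (d : ℝ) ≤ Real.log X' ^ B ∧ ∀ j < k + 1, n + j * d ∈ G) :=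
    ⟨_, rfl⟩
  have hcard : (#G : ℝ) = #G' + #S' := by
    rw [hG', hS']
    exact_mod_cast (card_filter_add_card_filter_not (s := G) _).symm
  have hG'big : (#G : ℝ) / 2 ≤ #G' := by linarith
  have hsub : G' ⊆ (Ioc ⌊X⌋₊ ⌊3 * X⌋₊).filter (fun n =>
      Prg (m + 1) r a b H0 L (Real.exp (δ * LL X)) k ⌊3 * X⌋₊ (Real.log X ^ (2 * B)) n) := by
    intro n hn
    rw [hG', mem_filter] at hn
    obtain ⟨hn1, d, hd1, hd2, hd3⟩ := hn
    rw [mem_filter]
    refine ⟨hG1 hn1, d, hd1, ?_, fun j hj => ?_⟩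
    · refine hd2.trans ?_
      calc Real.log X' ^ B ≤ (2 * Real.log X) ^ B := pow_le_pow_left₀ (by linarith) hlX' B
        _ ≤ (Real.log X ^ 2) ^ B := by
            apply pow_le_pow_left₀ (by linarith)
            nlinarith
        _ = Real.log X ^ (2 * B) := by rw [← pow_mul]
    · have hjG := hd3 j (by omega)
      refine ⟨(mem_Ioc.1 (hG1 hjG)).2, hG2 _ hjG, fun t ht => ?_⟩
      have e1 : t ∈ (Icc 1 L).filter (fun t => (n + j * d + t).Prime) ↔ t ∈ (Icc 1 L).filter (fun t => (n + t).Prime) := by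
        rw [hG3 _ hjG, hG3 _ hn1]
      rw [mem_filter, mem_filter] at e1
      exact ⟨fun h => (e1.1 ⟨ht, h⟩).2, fun h => (e1.2 ⟨ht, h⟩).2⟩
  have hfinal : (#G' : ℝ) ≤ (#((Ioc ⌊X⌋₊ ⌊3 * X⌋₊).filter (fun n =>
      Prg (m + 1) r a b H0 L (Real.exp (δ * LL X)) k ⌊3 * X⌋₊ (Real.log X ^ (2 * B)) n)) : ℝ) := by
    exact_mod_cast card_le_card hsub
  refine le_trans ?_ hfinal
  refine le_trans ?_ hG'big
  refine le_trans ?_ (div_le_div_of_nonneg_right hG5 (by norm_num : (0:ℝ) ≤ 2))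
  rw [div_div, div_le_div_iff₀ (by positivity) (by positivity), pow_succ]
  have : 0 ≤ X * Real.log X ^ κ := by positivity
  nlinarith

open Classical in
theorem topS (m r : ℕ) : ∃ δ : ℝ, 0 < δ ∧ ∃ κ H : ℕ, ∀ k C : ℕ, ∀ A : ℝ, ∃ B : ℕ, ∀ᶠ x : ℝ in atTop,
    ∀ (a : ℕ → ℕ) (b : ℕ → ℤ) (L : ℕ), Sys r a b → (∀ l ≤ r, (a l : ℝ) ≤ x ^ A) → (∀ l ≤ r, |(b l : ℝ)| ≤ x ^ A) →
      (L : ℝ) ≤ Real.log x / Real.log (Real.log x) ^ 2 → (L ≤ C ∨ ∀ l < r, a l = 1 → b l ≤ C ∨ (L : ℤ) < b l) →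
      x / Real.log x ^ κ ≤ (#((Icc 1 ⌊x⌋₊).filter (fun n =>
        Prg m r a b H L (x ^ δ) k ⌊x⌋₊ (Real.log x ^ B) n)) : ℝ) := by
  obtain ⟨δ, hδ, κ, H, h⟩ := apX m r
  refine ⟨δ / 400, by positivity, κ + 1, H, fun k C A => ?_⟩
  obtain ⟨A', hA'⟩ : ∃ A', A' = 2 * max A 0 := ⟨_, rfl⟩
  obtain ⟨B, hB⟩ := h k C A'
  refine ⟨B, ?_⟩
  have hkey : ∀ᶠ X : ℝ in atTop, ∀ (a : ℕ → ℕ) (b : ℕ → ℤ) (L : ℕ), Sys r a b →
      (∀ l ≤ r, (a l : ℝ) ≤ (3 * X) ^ A) → (∀ l ≤ r, |(b l : ℝ)| ≤ (3 * X) ^ A) →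
      (L : ℝ) ≤ Real.log (3 * X) / Real.log (Real.log (3 * X)) ^ 2 → (L ≤ C ∨ ∀ l < r, a l = 1 → b l ≤ C ∨ (L : ℤ) < b l) →
      (3 * X) / Real.log (3 * X) ^ (κ + 1) ≤
        (#((Icc 1 ⌊3 * X⌋₊).filter (fun n =>
          Prg m r a b H L ((3 * X) ^ (δ / 400)) k ⌊3 * X⌋₊ (Real.log (3 * X) ^ B) n)) : ℝ) := by
    have hllog : Tendsto (fun X : ℝ => Real.log (Real.log X)) atTop atTop :=
      Real.tendsto_log_atTop.comp Real.tendsto_log_atTop
    filter_upwards [hB, eventually_ge_atTop 4, Real.tendsto_log_atTop.eventually_ge_atTop 3,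
      hllog.eventually_ge_atTop 1] with X h1 h2 h3 h4
    intro a b L S ha hb hL hLC
    have hX0 : 0 < X := by linarith
    have hll0 : 0 < Real.log (Real.log X) := by linarith
    have hl3 : Real.log (3 * X) ≤ 2 * Real.log X := by
      rw [Real.log_mul (by norm_num) hX0.ne']
      have : Real.log 3 ≤ 2 := by
        have := Real.log_le_sub_one_of_pos (by norm_num : (0:ℝ) < 3)
        linarith
      linarith
    have hl3' : Real.log X ≤ Real.log (3 * X) := Real.log_le_log hX0 (by linarith)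
    have hxA : (3 * X) ^ A ≤ X ^ A' := by
      rw [Real.rpow_def_of_pos (by positivity), Real.rpow_def_of_pos hX0]
      apply Real.exp_le_exp.2
      have e1 : 0 ≤ max A 0 := le_max_right _ _
      have e2 : A ≤ max A 0 := le_max_left _ _
      calc Real.log (3 * X) * A ≤ Real.log (3 * X) * max A 0 := by
            apply mul_le_mul_of_nonneg_left e2 (by linarith)
        _ ≤ 2 * Real.log X * max A 0 := mul_le_mul_of_nonneg_right hl3 e1
        _ = Real.log X * A' := by rw [hA']; ring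
    have hll : Real.log (Real.log X) ≤ Real.log (Real.log (3 * X)) := Real.log_le_log (by linarith) hl3'
    have k1 := h1 a b L S (fun l hl => (ha l hl).trans hxA) (fun l hl => (hb l hl).trans hxA)
      (by
        refine hL.trans ?_
        calc Real.log (3 * X) / Real.log (Real.log (3 * X)) ^ 2 ≤ (2 * Real.log X) / Real.log (Real.log X) ^ 2 := by
              apply div_le_div₀ (by linarith) hl3 (by positivity)
              exact pow_le_pow_left₀ (by linarith) hll 2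
          _ = _ := by ring) hLC
    have hu : (3 * X) ^ (δ / 400) ≤ Real.exp (δ * LL X) := by
      rw [Real.rpow_def_of_pos (by positivity)]
      apply Real.exp_le_exp.2
      unfold LL
      calc Real.log (3 * X) * (δ / 400) ≤ 2 * Real.log X * (δ / 400) := mul_le_mul_of_nonneg_right hl3 (by positivity)
        _ = δ * (Real.log X / 200) := by ring
    have k2 : (#((Ioc ⌊X⌋₊ ⌊3 * X⌋₊).filter (fun n =>
        Prg (m + 1) r a b H L (Real.exp (δ * LL X)) k ⌊3 * X⌋₊ (Real.log X ^ B) n)) : ℝ) ≤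
        (#((Icc 1 ⌊3 * X⌋₊).filter (fun n =>
          Prg m r a b H L ((3 * X) ^ (δ / 400)) k ⌊3 * X⌋₊ (Real.log (3 * X) ^ B) n)) : ℝ) := by
      have : (#((Ioc ⌊X⌋₊ ⌊3 * X⌋₊).filter (fun n =>
          Prg (m + 1) r a b H L (Real.exp (δ * LL X)) k ⌊3 * X⌋₊ (Real.log X ^ B) n))) ≤
          (#((Icc 1 ⌊3 * X⌋₊).filter (fun n =>
            Prg m r a b H L ((3 * X) ^ (δ / 400)) k ⌊3 * X⌋₊ (Real.log (3 * X) ^ B) n))) := by
        apply card_le_card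
        intro n hn
        rw [mem_filter, mem_Ioc] at hn
        rw [mem_filter, mem_Icc]
        refine ⟨⟨by omega, hn.1.2⟩, ?_⟩
        obtain ⟨d, hd1, hd2, hd3⟩ := hn.2
        exact ⟨d, hd1, hd2.trans (pow_le_pow_left₀ (by linarith) hl3' B),
          fun j hj => ⟨(hd3 j hj).1, (hd3 j hj).2.1.mono (by omega) hu, (hd3 j hj).2.2⟩⟩
      exact_mod_cast this
    refine le_trans ?_ (k1.trans k2)
    have hp1 : 0 < Real.log X := by linarith
    have hp2 : 0 < Real.log (3 * X) := by linarith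
    rw [div_le_div_iff₀ (by positivity) (by positivity)]
    calc 3 * X * Real.log X ^ κ ≤ Real.log (3 * X) * X * Real.log (3 * X) ^ κ := by
          have : (3:ℝ) ≤ Real.log (3 * X) := by linarith
          gcongr
      _ = X * Real.log (3 * X) ^ (κ + 1) := by ring
  have h3 : Tendsto (fun x : ℝ => x / 3) atTop atTop := tendsto_id.atTop_div_const (by norm_num)
  filter_upwards [h3.eventually hkey] with x hx
  have e : 3 * (x / 3) = x := by ring
  rw [e] at hx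
  exact hx

end Pool.Agent.Y848.UG
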